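import Mathlib
import Pool.Agent.H6.W.JDef
import Pool.Agent.H13.W.Graph
import Pool.Agent.H73.W.Tangle0

set_option autoImplicit false
open Finset

/-! # C6.0: the worlds of the junction step

Tile coordinates `(x, y)`, label `lt (x, y)`, scale `n = 2 h` tiles per cell, box `b : JBox` of `H6/W/JDef`.

* `InQ` tile of the box (room and plates), `Ly` outer layer (tiles outside, at distance at most 3: thick layer).
  `Lam M` = all these tiles except the diagonal tiles at the corners of `M` (the places where the colour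
  changes).
* Colours of the outer layer: `Cl` = (`u`, `l`, `cr`): `u i` = colour of the ceiling between the corners
  `(true, i - 1)` and `(true, i)`, `u 0` = left wall above the slit and first piece of the ceiling; `l` same for
  the floor, `l 0` = left wall below the slit; `cr y` = right wall at the row `y`.
* `Wl b n cl` = open labels of the layer.
* `colM base M ex` = the colours which start with `base` on the left wall above the slit and change clockwise at
  the corners of `M` and at the exit `ex = some r` of the string on the right wall.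
* `GG b n M cl D w` = strand graph; `D` = deleted tiles (tile coordinates), `w` = open labels in the box.
* string of the moving end `v = (x0, r0)`: `strD v` = tiles `(x, r0)`, `x0 ≤ x`; the end is the corner `zc v`,
  west side of the tile `v`.
* mark on the upper (`s = true`) or lower bank of `P` at the abscissa `x1` (a gap between two plates of `P`):
  row `Yr s` inside the slit deleted to the LEFT of `x1` (`slD s x1`), the half of the plates behind it (upper
  half for `s = true`) is flipped to the left of `x1` (`flp s x1`); the end is `mc s x1`, west side of the tile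
  `(x1, Yr s)`.
* far end at the mark `c`: one of the corners `f1 c`, `f2 c` (the other one is loose). -/

namespace Pool.Agent.H61.W

open Pool.Agent.H33.Q1 Pool.Agent.H6.W Pool.Agent.H50.W Pool.Agent.H58.W Pool.Agent.H13.W
open Pool.Agent.H73.W (ph)

section Geometry

variable (b : JBox) (n : ℤ)

/-- tile of the box (room or plate) -/
def InQ (x y : ℤ) : Prop := (x / n, y / n) ∈ b.Q

/-- tile of the chain of plates -/
def InC (x y : ℤ) : Prop := InQ b n x y ∧ chn 0 b.M b.τ (x / n, y / n) ≠ none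

/-- tile of the room -/
def InR (x y : ℤ) : Prop := InQ b n x y ∧ chn 0 b.M b.τ (x / n, y / n) = none

/-- tile of the outer layer (three rows thick) -/
def Ly (x y : ℤ) : Prop :=
  ¬ InQ b n x y ∧ ∃ i j : ℤ, |i| ≤ 3 ∧ |j| ≤ 3 ∧ InQ b n (x + i) (y + j)

/-- the corner `c` as a vertex of the tile frame -/
def cpt (c : Bool × ℕ) : ℤ × ℤ :=
  (b.st c.2 * n, if c.1 then (b.H + c.2 + 1) * n else -((b.H + c.2 + 1) * n))

/-- the diagonal tile at the corner `c` -/
def dgt (c : Bool × ℕ) : ℤ × ℤ :=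
  ((cpt b n c).1 - 1, if c.1 then (cpt b n c).2 else (cpt b n c).2 - 1)

/-- first corner of the strand graph at the mark `c`: east side of the diagonal tile -/
def f1 (c : Bool × ℕ) : ℤ × ℤ := eE (lt (dgt b n c))

/-- second corner of the strand graph at the mark `c`: side of the diagonal tile towards the left wall -/
def f2 (c : Bool × ℕ) : ℤ × ℤ := if c.1 then eS (lt (dgt b n c)) else eN (lt (dgt b n c))

/-- tiles of the strand graph -/
def Lam (M : Finset (Bool × ℕ)) : Set (ℤ × ℤ) :=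
  {e | ∃ x y, e = lt (x, y) ∧
    (InQ b n x y ∨ (Ly b n x y ∧ ∀ c ∈ M, (x, y) ≠ dgt b n c))}

end Geometry

/-! ### Colours of the outer layer -/

/-- colours of the outer layer -/
structure Cl where
  u : ℕ → Bool
  l : ℕ → Bool
  cr : ℤ → Bool

/-- colour of the tile `(x, y)` of the outer layer -/
def lcol (b : JBox) (n : ℤ) (cl : Cl) (x y : ℤ) : Bool :=
  if b.X * n ≤ x then cl.cr y
  else if 0 ≤ y then cl.u (min b.K (y / n - b.H).toNat)
  else cl.l (min b.K ((-y - 1) / n - b.H).toNat)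

open Classical in
/-- open labels of the outer layer -/
noncomputable def Wl (b : JBox) (n : ℤ) (cl : Cl) : Finset (ℤ × ℤ) :=
  ((Icc (-(b.X * n) - 3) (b.X * n + 2) ×ˢ Icc (-((b.H + b.K) * n) - 3) ((b.H + b.K) * n + 2)).filter fun t =>
    ¬ InQ b n t.1 t.2 ∧ lcol b n cl t.1 t.2 = true).image lt

/-- parity as a colour -/
def par (k : ℕ) : Bool := k % 2 == 1

/-- The colours which start with `base` on the left wall above the slit and change clockwise at the corners
of `M` and at the exit `ex` on the right wall. -/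
def colM (base : Bool) (M : Finset (Bool × ℕ)) (ex : Option ℤ) : Cl where
  u i := base ^^ par (M.filter fun c => c.1 = true ∧ c.2 < i).card
  cr y := base ^^ par (M.filter fun c => c.1 = true).card ^^
    (match ex with | none => false | some r => decide (y < r))
  l i := base ^^ par (M.filter fun c => c.1 = true).card ^^ ex.isSome ^^
    par (M.filter fun c => c.1 = false ∧ i ≤ c.2).card

/-! ### Deleted rows, ends -/

/-- the string of the moving end -/
def strD (v : ℤ × ℤ) : Set (ℤ × ℤ) := {p | p.2 = v.2 ∧ v.1 ≤ p.1}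

/-- the moving end -/
def zc (v : ℤ × ℤ) : ℤ × ℤ := eW (lt v)

/-- the deleted row inside the slit -/
def Yr (s : Bool) : ℤ := if s then 0 else -1

/-- deleted tiles behind the mark on the bank `s` of `P` at the abscissa `x1` -/
def slD (s : Bool) (x1 : ℤ) : Set (ℤ × ℤ) := {p | p.2 = Yr s ∧ p.1 < x1}

/-- the end at this mark -/
def mc (s : Bool) (x1 : ℤ) : ℤ × ℤ := eW (lt (x1, Yr s))

open Classical in
/-- the flipped labels of the plates -/
noncomputable def flp (b : JBox) (h : ℕ) (s : Bool) (x1 : ℤ) : Finset (ℤ × ℤ) :=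
  (b.B h).filter fun e => InC b (2 * h) (tt e).1 (tt e).2 ∧ (tt e).1 < x1 ∧
    (if s then 0 < (tt e).2 else (tt e).2 < -1)

/-- **The strand graph.** -/
noncomputable def GG (b : JBox) (n : ℤ) (M : Finset (Bool × ℕ)) (cl : Cl) (D : Set (ℤ × ℤ))
    (w : Finset (ℤ × ℤ)) : SimpleGraph (ℤ × ℤ) :=
  SG (Lam b n M) (lt '' D) (w ∪ Wl b n cl)

/-- the corner `c` of the graph is joined to the mark `q` -/
def RF (b : JBox) (n : ℤ) (G : SimpleGraph (ℤ × ℤ)) (c : ℤ × ℤ) (q : Bool × ℕ) : Prop :=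
  G.Reachable c (f1 b n q) ∨ G.Reachable c (f2 b n q)

/-- `ω` with the chunk `P` open or closed -/
noncomputable def cfg (b : JBox) (h : ℕ) (o : Bool) (ω : Finset (ℤ × ℤ)) : Finset (ℤ × ℤ) :=
  if o then ω ∪ b.Pl h else ω \ b.Pl h

/-! ### The four worlds -/

/-- colour of the left wall above the slit, wiring `w` of `JBox.Cr`, no mark on `P` -/
def bs (w : Bool) : Bool := !w

/-- the same with a mark on the bank `s` of `P` -/
def bsP (w s : Bool) : Bool := if s then w else !w

/-- `X` world: moving end `v` (over), marks `c2, c3, c4` -/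
noncomputable def GX (b : JBox) (h : ℕ) (w : Bool) (c2 c3 c4 : Bool × ℕ) (v : ℤ × ℤ) (o : Bool)
    (ω : Finset (ℤ × ℤ)) : SimpleGraph (ℤ × ℤ) :=
  GG b (2 * h) {c2, c3, c4} (colM (bs w) {c2, c3, c4} (some v.2)) (strD v) (cfg b h o ω)

/-- `Y` world: mark on the bank `s` of `P` at `x1` (over), moving end `v` (under), marks `c3, c4` -/
noncomputable def GY (b : JBox) (h : ℕ) (w s : Bool) (x1 : ℤ) (c3 c4 : Bool × ℕ) (v : ℤ × ℤ) (o : Bool)
    (ω : Finset (ℤ × ℤ)) : SimpleGraph (ℤ × ℤ) :=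
  GG b (2 * h) {c3, c4} (colM (bsP w s) {c3, c4} (some v.2)) (strD v ∪ slD s x1)
    (symmDiff (cfg b h o ω) (flp b h s x1))

/-- `G` world: mark on the bank `s` of `P` at `x1`, marks `c2, c3, c4` -/
noncomputable def GP (b : JBox) (h : ℕ) (w s : Bool) (x1 : ℤ) (c2 c3 c4 : Bool × ℕ) (o : Bool)
    (ω : Finset (ℤ × ℤ)) : SimpleGraph (ℤ × ℤ) :=
  GG b (2 * h) {c2, c3, c4} (colM (bsP w s) {c2, c3, c4} none) (slD s x1)
    (symmDiff (cfg b h o ω) (flp b h s x1))

/-! ### Values -/

/-- counterclockwise order of the marks, cut at the foot of the slit (floor from left to right, ceiling from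
right to left) -/
def ky (b : JBox) (c : Bool × ℕ) : ℤ := if c.1 then 2 * (b.K : ℤ) - c.2 else c.2

/-- first of the two marks counterclockwise -/
def fst2 (b : JBox) (c3 c4 : Bool × ℕ) : Bool × ℕ := if ky b c3 < ky b c4 then c3 else c4

/-- second of the two marks -/
def snd2 (b : JBox) (c3 c4 : Bool × ℕ) : Bool × ℕ := if ky b c3 < ky b c4 then c4 else c3

/-- the value at the mark `c2` (73's `K2` for `u3 = 1`, `u4 = 0`) -/
noncomputable def K2 (b : JBox) (c2 c3 c4 : Bool × ℕ) : ℂ :=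
  if ky b (fst2 b c3 c4) < ky b c2 ∧ ky b c2 < ky b (snd2 b c3 c4) then ph⁻¹ else ph

/-- value `V0` of an end `c` of the graph: `K(x3) = 0`, `K(x4) = 1`, `K(x2) = K2`; mean over the world -/
noncomputable def V0 (b : JBox) (h : ℕ) (c2 c3 c4 : Bool × ℕ)
    (G : Finset (ℤ × ℤ) → SimpleGraph (ℤ × ℤ)) (c : ℤ × ℤ) : ℂ :=
  (b.PJ h (fun ω => RF b (2 * h) (G ω) c (snd2 b c3 c4)) : ℂ) +
    K2 b c2 c3 c4 * (b.PJ h (fun ω => RF b (2 * h) (G ω) c c2) : ℂ)

/-- number of passages of the strand of the far end `x3` through the deleted row behind the mark on `P` -/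
noncomputable def cntY (b : JBox) (h : ℕ) (s : Bool) (x1 : ℤ) (c3 c4 : Bool × ℕ)
    (G : SimpleGraph (ℤ × ℤ)) : ℕ :=
  Set.ncard {x : ℤ | x < x1 ∧ RF b (2 * h) G (eS (lt (x, Yr s))) (fst2 b c3 c4)}

/-- value `VU` (73) of the moving end `c`: `1` at `x3`, `0` at `x4`, `ph` or `ph⁻¹` at the mark on `P`; mean
over the world -/
noncomputable def V1 (b : JBox) (h : ℕ) (s : Bool) (x1 : ℤ) (c3 c4 : Bool × ℕ)
    (G : Finset (ℤ × ℤ) → SimpleGraph (ℤ × ℤ)) (c : ℤ × ℤ) : ℂ :=
  (b.PJ h (fun ω => RF b (2 * h) (G ω) c (fst2 b c3 c4)) : ℂ) +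
    ph * (b.PJ h (fun ω => (G ω).Reachable c (mc s x1) ∧ Even (cntY b h s x1 c3 c4 (G ω))) : ℂ) +
    ph⁻¹ * (b.PJ h (fun ω => (G ω).Reachable c (mc s x1) ∧ ¬ Even (cntY b h s x1 c3 c4 (G ω))) : ℂ)

/-- `X (v) = 2 E [c_P V0]` -/
noncomputable def Xf (b : JBox) (h : ℕ) (w : Bool) (c2 c3 c4 : Bool × ℕ) (v : ℤ × ℤ) : ℂ :=
  V0 b h c2 c3 c4 (GX b h w c2 c3 c4 v true) (zc v) - V0 b h c2 c3 c4 (GX b h w c2 c3 c4 v false) (zc v)

/-- `Y (v) = 2 E [c_P VU]` -/
noncomputable def Yf (b : JBox) (h : ℕ) (w s : Bool) (x1 : ℤ) (c3 c4 : Bool × ℕ) (v : ℤ × ℤ) : ℂ :=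
  V1 b h s x1 c3 c4 (GY b h w s x1 c3 c4 v true) (zc v) -
    V1 b h s x1 c3 c4 (GY b h w s x1 c3 c4 v false) (zc v)

/-- both fixed: `z1` = mark on `P`, `z2 = c2` -/
noncomputable def Gf (b : JBox) (h : ℕ) (w s : Bool) (x1 : ℤ) (c2 c3 c4 : Bool × ℕ) : ℂ :=
  V0 b h c2 c3 c4 (GP b h w s x1 c2 c3 c4 true) (mc s x1) -
    V0 b h c2 c3 c4 (GP b h w s x1 c2 c3 c4 false) (mc s x1)

/-- `P` is pivotal for the marks `c1, c2, c3, c4` (any order) -/
def Pv4 (b : JBox) (h : ℕ) (w : Bool) (c1 c2 c3 c4 : Bool × ℕ) (ω : Finset (ℤ × ℤ)) : Prop :=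
  ∃ σ : Equiv.Perm (Fin 4), StrictMono (fun i => b.mark (2 * h) ((![c1, c2, c3, c4] ∘ σ) i)) ∧
    b.Piv h w ((![c1, c2, c3, c4] ∘ σ) 0) ((![c1, c2, c3, c4] ∘ σ) 1) ((![c1, c2, c3, c4] ∘ σ) 2)
      ((![c1, c2, c3, c4] ∘ σ) 3) ω

noncomputable def pf (b : JBox) (h : ℕ) (w : Bool) (c1 c2 c3 c4 : Bool × ℕ) : ℝ :=
  b.PJ h (Pv4 b h w c1 c2 c3 c4)

/-! ### Discretisation of the marks, macroscopic room -/

/-- the corner nearest to the boundary point `x ± i` (unit = `H`) on its right -/
noncomputable def cor (b : JBox) (c : Bool × ℝ) : Bool × ℕ :=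
  (c.1, sInf {i : ℕ | i < b.K ∧ c.2 * b.H ≤ b.st i})

/-- the gap of `P` nearest to `x < 0` on its right -/
noncomputable def gp (b : JBox) (n : ℤ) (x : ℝ) : ℤ := -(⌊-x * b.H / b.M⌋ * b.M * n)

/-- the macroscopic room -/
def Ur (b : JBox) : Set ℂ :=
  interior {z : ℂ | (⌊z.re * b.H⌋, ⌊z.im * b.H⌋) ∈ b.Q ∧
    chn 0 b.M b.τ (⌊z.re * b.H⌋, ⌊z.im * b.H⌋) = none}

end Pool.Agent.H61.W
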