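import Mathlib
import Pool.Agent.H44.W.CloseDef

set_option autoImplicit false

/-! # Box averages and pointwise closeness

`pair_close`: if `f v + f' v'` is small for all lattice points `v` near `z`, `v'` near `z'`, then the limits of
the box averages satisfy the same. -/

namespace Pool.Agent.H61.W

open Filter Topology Set Complex
open Pool.Agent.Q1.M4 (lat)
open Pool.Agent.H44.W (WLim av)

lemma av_const {m : ℕ} (hm : 0 < m) (c : ℂ) (v : ℤ × ℤ) : av m (fun _ => c) v = c := by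
  have : (m : ℂ) ≠ 0 := by exact_mod_cast hm.ne'
  simp only [av, Finset.sum_const, Finset.card_range, nsmul_eq_mul]
  field_simp

lemma norm_av_add_le {m : ℕ} (hm : 0 < m) {f f' : ℤ × ℤ → ℂ} {v v' : ℤ × ℤ} {ε : ℝ}
    (h : ∀ k < m, ∀ l < m, ‖f (v + ((k : ℤ), (l : ℤ))) + f' (v' + ((k : ℤ), (l : ℤ)))‖ ≤ ε) :
    ‖av m f v + av m f' v'‖ ≤ ε := by
  have hm' : (0 : ℝ) < m := by exact_mod_cast hm
  have e : av m f v + av m f' v' = (1 / ((m : ℂ) * m)) * ∑ k ∈ Finset.range m, ∑ l ∈ Finset.range m,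
      (f (v + ((k : ℤ), (l : ℤ))) + f' (v' + ((k : ℤ), (l : ℤ)))) := by
    simp only [av, Finset.sum_add_distrib]
    ring
  rw [e, norm_mul]
  have h1 : ‖∑ k ∈ Finset.range m, ∑ l ∈ Finset.range m,
      (f (v + ((k : ℤ), (l : ℤ))) + f' (v' + ((k : ℤ), (l : ℤ))))‖ ≤ m * (m * ε) := by
    calc _ ≤ ∑ k ∈ Finset.range m, ‖∑ l ∈ Finset.range m,
          (f (v + ((k : ℤ), (l : ℤ))) + f' (v' + ((k : ℤ), (l : ℤ))))‖ := norm_sum_le _ _
      _ ≤ ∑ k ∈ Finset.range m, (m : ℝ) * ε := by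
          apply Finset.sum_le_sum
          intro k hk
          calc _ ≤ ∑ l ∈ Finset.range m,
                ‖f (v + ((k : ℤ), (l : ℤ))) + f' (v' + ((k : ℤ), (l : ℤ)))‖ := norm_sum_le _ _
            _ ≤ ∑ l ∈ Finset.range m, ε :=
                Finset.sum_le_sum fun l hl => h k (Finset.mem_range.1 hk) l (Finset.mem_range.1 hl)
            _ = (m : ℝ) * ε := by simp
      _ = m * (m * ε) := by simp
  have h2 : ‖(1 / ((m : ℂ) * m))‖ = 1 / ((m : ℝ) * m) := by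
    rw [norm_div, norm_one, norm_mul]; simp
  rw [h2]
  calc 1 / ((m : ℝ) * m) * _ ≤ 1 / ((m : ℝ) * m) * (m * (m * ε)) :=
        mul_le_mul_of_nonneg_left h1 (by positivity)
    _ = ε := by field_simp

lemma lat_div_re (v : ℤ × ℤ) (R : ℝ) : (lat v / (R : ℂ)).re = v.1 / R := by
  rw [Complex.div_ofReal_re]; rfl

lemma lat_div_im (v : ℤ × ℤ) (R : ℝ) : (lat v / (R : ℂ)).im = v.2 / R := by
  rw [Complex.div_ofReal_im]; rfl

/-- the lattice point near `R z` -/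
noncomputable def fl (R : ℝ) (z : ℂ) : ℤ × ℤ := (⌊R * z.re⌋, ⌊R * z.im⌋)

lemma dist_fl {R δ : ℝ} (hR : 0 < R) (z : ℂ) (k l : ℕ) (hk : (k : ℝ) ≤ δ * R) (hl : (l : ℝ) ≤ δ * R) :
    dist (lat (fl R z + ((k : ℤ), (l : ℤ))) / (R : ℂ)) z ≤ 2 * (δ + 1 / R) := by
  rw [Complex.dist_eq]
  have key : ∀ (x : ℝ) (j : ℕ), (j : ℝ) ≤ δ * R →
      |((⌊R * x⌋ + (j : ℤ) : ℤ) : ℝ) / R - x| ≤ δ + 1 / R := by
    intro x j hj
    have h1 := Int.floor_le (R * x)
    have h2 := Int.lt_floor_add_one (R * x)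
    have h3 : (0:ℝ) ≤ j := Nat.cast_nonneg j
    have hδ : 0 ≤ δ * R := h3.trans hj
    push_cast
    have e : ((⌊R * x⌋ : ℝ) + j) / R - x = ((⌊R * x⌋ : ℝ) + j - R * x) / R := by field_simp
    rw [e, abs_div, abs_of_pos hR, div_le_iff₀ hR]
    have e2 : (δ + 1 / R) * R = δ * R + 1 := by field_simp
    rw [e2, abs_le]
    constructor <;> linarith
  set w := lat (fl R z + ((k : ℤ), (l : ℤ))) / (R : ℂ) - z with hw
  have hre : w.re = ((⌊R * z.re⌋ + (k : ℤ) : ℤ) : ℝ) / R - z.re := by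
    rw [hw, Complex.sub_re, lat_div_re]; rfl
  have him : w.im = ((⌊R * z.im⌋ + (l : ℤ) : ℤ) : ℝ) / R - z.im := by
    rw [hw, Complex.sub_im, lat_div_im]; rfl
  calc ‖w‖ ≤ |w.re| + |w.im| := Complex.norm_le_abs_re_add_abs_im w
    _ ≤ (δ + 1 / R) + (δ + 1 / R) := by
        rw [hre, him]; exact add_le_add (key _ _ hk) (key _ _ hl)
    _ = _ := by ring

lemma tendsto_fl {R : ℕ → ℝ} {F : Filter ℕ} (hR : Tendsto R F atTop) (z : ℂ) :
    Tendsto (fun n => lat (fl (R n) z) / (R n : ℂ)) F (𝓝 z) := by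
  rw [tendsto_iff_dist_tendsto_zero]
  have h0 : Tendsto (fun n => 2 * (0 + 1 / R n)) F (𝓝 0) := by
    have : Tendsto (fun n => 1 / R n) F (𝓝 0) := by
      have h := tendsto_inv_atTop_zero.comp hR
      refine h.congr fun n => ?_
      simp
    have := (this.const_add 0).const_mul 2
    simpa using this
  refine squeeze_zero' (Eventually.of_forall fun n => dist_nonneg) ?_ h0
  filter_upwards [hR.eventually_gt_atTop 0] with n hn
  have := dist_fl (δ := 0) hn z 0 0 (by simp) (by simp)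
  have e : fl (R n) z + (((0:ℕ) : ℤ), ((0:ℕ) : ℤ)) = fl (R n) z := by
    ext <;> simp
  rwa [e] at this

/-- **Pairs.** -/
theorem pair_close {R : ℕ → ℝ} {F : Filter ℕ} [NeBot F] (hR : Tendsto R F atTop) {Ω : Set ℂ}
    (hΩ : IsOpen Ω) {f f' : ℕ → ℤ × ℤ → ℂ} {g g' : ℂ → ℂ} (hg : ContinuousOn g Ω)
    (hg' : ContinuousOn g' Ω) (w : WLim R F Ω f g) (w' : WLim R F Ω f' g') {z z' : ℂ} (hz : z ∈ Ω)
    (hz' : z' ∈ Ω) {r ε : ℝ} (hr : 0 < r)
    (h : ∀ᶠ n in F, ∀ v v' : ℤ × ℤ, lat v / (R n : ℂ) ∈ Metric.closedBall z r →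
      lat v' / (R n : ℂ) ∈ Metric.closedBall z' r → ‖f n v + f' n v'‖ ≤ ε) :
    ‖g z + g' z'‖ ≤ ε := by
  apply le_of_forall_pos_le_add
  intro η hη
  obtain ⟨r1, hr1, hr1r, h1, h1'⟩ : ∃ r1 > 0, r1 ≤ r ∧ Metric.closedBall z r1 ⊆ Ω ∧
      Metric.closedBall z' r1 ⊆ Ω := by
    obtain ⟨a, ha, ha'⟩ := Metric.isOpen_iff.1 hΩ z hz
    obtain ⟨b, hb, hb'⟩ := Metric.isOpen_iff.1 hΩ z' hz'
    refine ⟨min r (min (a / 2) (b / 2)), by positivity, min_le_left _ _, ?_, ?_⟩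
    · refine (Metric.closedBall_subset_ball ?_).trans ha'
      calc min r (min (a / 2) (b / 2)) ≤ a / 2 := (min_le_right _ _).trans (min_le_left _ _)
        _ < a := by linarith
    · refine (Metric.closedBall_subset_ball ?_).trans hb'
      calc min r (min (a / 2) (b / 2)) ≤ b / 2 := (min_le_right _ _).trans (min_le_right _ _)
        _ < b := by linarith
  obtain ⟨δ0, hδ0, hw⟩ := w _ h1 (isCompact_closedBall z r1) (η / 4) (by linarith)
  obtain ⟨δ0', hδ0', hw'⟩ := w' _ h1' (isCompact_closedBall z' r1) (η / 4) (by linarith)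
  set δ : ℝ := min (min (δ0 / 2) (δ0' / 2)) (r1 / 8) with hδ
  have hδp : 0 < δ := by positivity
  have hd1 : δ < δ0 := by
    have : δ ≤ δ0 / 2 := (min_le_left _ _).trans (min_le_left _ _)
    linarith
  have hd2 : δ < δ0' := by
    have : δ ≤ δ0' / 2 := (min_le_left _ _).trans (min_le_right _ _)
    linarith
  have hd3 : δ ≤ r1 / 8 := min_le_right _ _
  have c1 : ∀ᶠ n in F, ‖g (lat (fl (R n) z) / (R n : ℂ)) - g z‖ ≤ η / 4 := by
    have h2 := (hg.continuousAt (hΩ.mem_nhds hz)).tendsto.comp (tendsto_fl hR z)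
    filter_upwards [Metric.tendsto_nhds.1 h2 (η / 4) (by linarith)] with n hn
    rw [← dist_eq_norm]; exact hn.le
  have c2 : ∀ᶠ n in F, ‖g' (lat (fl (R n) z') / (R n : ℂ)) - g' z'‖ ≤ η / 4 := by
    have h2 := (hg'.continuousAt (hΩ.mem_nhds hz')).tendsto.comp (tendsto_fl hR z')
    filter_upwards [Metric.tendsto_nhds.1 h2 (η / 4) (by linarith)] with n hn
    rw [← dist_eq_norm]; exact hn.le
  have c3 : ∀ᶠ n in F, 0 < R n ∧ 1 ≤ δ * R n ∧ 1 / R n ≤ r1 / 8 := by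
    filter_upwards [hR.eventually_gt_atTop 0, hR.eventually_ge_atTop (1 / δ),
      hR.eventually_ge_atTop (8 / r1)] with n e1 e2 e3
    refine ⟨e1, ?_, ?_⟩
    · rw [div_le_iff₀ hδp] at e2; linarith
    · rw [div_le_iff₀ e1]
      rw [div_le_iff₀ hr1] at e3; linarith
  have c4 := hw δ hδp hd1
  have c5 := hw' δ hδp hd2
  obtain ⟨n, hn, k1, k2, ⟨k3, k4, k5⟩, k6, k7⟩ := (h.and (c1.and (c2.and (c3.and (c4.and c5))))).exists
  set m := ⌊δ * R n⌋₊ with hm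
  have hm0 : 0 < m := Nat.floor_pos.2 k4
  have hmle : (m : ℝ) ≤ δ * R n := Nat.floor_le (by linarith)
  have hnear : ∀ (y : ℂ) (k l : ℕ), k < m → l < m →
      lat (fl (R n) y + ((k : ℤ), (l : ℤ))) / (R n : ℂ) ∈ Metric.closedBall y r1 := by
    intro y k l hk hl
    rw [Metric.mem_closedBall]
    have hk' : (k : ℝ) ≤ δ * R n := by
      have : (k : ℝ) ≤ m := by exact_mod_cast hk.le
      linarith
    have hl' : (l : ℝ) ≤ δ * R n := by
      have : (l : ℝ) ≤ m := by exact_mod_cast hl.le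
      linarith
    have := dist_fl k3 y k l hk' hl'
    linarith
  have hnear0 : ∀ y : ℂ, lat (fl (R n) y) / (R n : ℂ) ∈ Metric.closedBall y r1 := by
    intro y
    have := hnear y 0 0 hm0 hm0
    have e : fl (R n) y + (((0:ℕ) : ℤ), ((0:ℕ) : ℤ)) = fl (R n) y := by
      ext <;> simp
    rwa [e] at this
  have a1 := k6 _ (hnear0 z)
  have a2 := k7 _ (hnear0 z')
  have a3 : ‖av m (f n) (fl (R n) z) + av m (f' n) (fl (R n) z')‖ ≤ ε := by
    apply norm_av_add_le hm0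
    intro k hk l hl
    exact hn _ _ (Metric.closedBall_subset_closedBall hr1r (hnear z k l hk hl))
      (Metric.closedBall_subset_closedBall hr1r (hnear z' k l hk hl))
  set A1 := av m (f n) (fl (R n) z)
  set A2 := av m (f' n) (fl (R n) z')
  set g1 := g (lat (fl (R n) z) / (R n : ℂ))
  set g2 := g' (lat (fl (R n) z') / (R n : ℂ))
  have e : g z + g' z' = (A1 + A2) - (A1 - g1) - (A2 - g2) - (g1 - g z) - (g2 - g' z') := by ring
  rw [e]
  calc _ ≤ ‖A1 + A2‖ + ‖A1 - g1‖ + ‖A2 - g2‖ + ‖g1 - g z‖ + ‖g2 - g' z'‖ := by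
        refine (norm_sub_le _ _).trans (add_le_add ?_ le_rfl)
        refine (norm_sub_le _ _).trans (add_le_add ?_ le_rfl)
        refine (norm_sub_le _ _).trans (add_le_add ?_ le_rfl)
        exact norm_sub_le _ _
    _ ≤ ε + η := by linarith

lemma wlim_const {R : ℕ → ℝ} {F : Filter ℕ} (hR : Tendsto R F atTop) {Ω : Set ℂ} {y : ℕ → ℂ} {y0 : ℂ}
    (hy : Tendsto y F (𝓝 y0)) : WLim R F Ω (fun n _ => y n) (fun _ => y0) := by
  intro K _ _ ε hε
  refine ⟨1, one_pos, fun δ hδ _ => ?_⟩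
  have c3 : ∀ᶠ n in F, 1 ≤ δ * R n := by
    filter_upwards [hR.eventually_ge_atTop (1 / δ)] with n e2
    rw [div_le_iff₀ hδ] at e2; linarith
  filter_upwards [c3, Metric.tendsto_nhds.1 hy ε hε] with n h1 h2 v _
  rw [av_const (Nat.floor_pos.2 h1), ← dist_eq_norm]
  exact h2.le

/-- **One point.** -/
theorem one_close {R : ℕ → ℝ} {F : Filter ℕ} [NeBot F] (hR : Tendsto R F atTop) {Ω : Set ℂ}
    (hΩ : IsOpen Ω) {f : ℕ → ℤ × ℤ → ℂ} {g : ℂ → ℂ} (hg : ContinuousOn g Ω)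
    (w : WLim R F Ω f g) {z : ℂ} (hz : z ∈ Ω) {y : ℕ → ℂ} {y0 : ℂ} (hy : Tendsto y F (𝓝 y0))
    {r ε : ℝ} (hr : 0 < r)
    (h : ∀ᶠ n in F, ∀ v : ℤ × ℤ, lat v / (R n : ℂ) ∈ Metric.closedBall z r → ‖f n v - y n‖ ≤ ε) :
    ‖g z - y0‖ ≤ ε := by
  have := pair_close (g' := fun _ => -y0) (f' := fun n _ => -y n) hR hΩ hg continuousOn_const w
    (wlim_const hR hy.neg) hz hz hr (ε := ε) (by
      filter_upwards [h] with n hn v v' hv _
      rw [← sub_eq_add_neg]; exact hn v hv)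
  rwa [← sub_eq_add_neg] at this

end Pool.Agent.H61.W
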