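import Mathlib
import Pool.Agent.H61.W.Avg

set_option autoImplicit false

/-! # `WLim`: finite linear combinations, conjugates, change of the lattice functions by `o(1)` -/

namespace Pool.Agent.H61.W

open Filter Topology Set Complex
open Pool.Agent.Q1.M4 (lat)
open Pool.Agent.H44.W (WLim av)

lemma av_add (m : ℕ) (f f' : ℤ × ℤ → ℂ) (v : ℤ × ℤ) :
    av m (fun u => f u + f' u) v = av m f v + av m f' v := by
  simp only [av, Finset.sum_add_distrib]; ring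

lemma av_smul (m : ℕ) (c : ℂ) (f : ℤ × ℤ → ℂ) (v : ℤ × ℤ) :
    av m (fun u => c * f u) v = c * av m f v := by
  simp only [av, ← Finset.mul_sum]; ring

lemma av_sum {ι : Type*} (s : Finset ι) (m : ℕ) (c : ι → ℂ) (f : ι → ℤ × ℤ → ℂ) (v : ℤ × ℤ) :
    av m (fun u => ∑ i ∈ s, c i * f i u) v = ∑ i ∈ s, c i * av m (f i) v := by
  classical
  induction s using Finset.induction_on with
  | empty => simp [av]
  | insert i s hi ih =>
    simp only [Finset.sum_insert hi]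
    rw [← ih, ← av_smul, ← av_add]

lemma av_conj (m : ℕ) (f : ℤ × ℤ → ℂ) (v : ℤ × ℤ) :
    av m (fun u => (starRingEnd ℂ) (f u)) v = (starRingEnd ℂ) (av m f v) := by
  simp only [av, map_mul, map_sum, map_div₀, map_one, map_natCast]

lemma norm_av_sub_le {m : ℕ} (hm : 0 < m) {f f' : ℤ × ℤ → ℂ} {v : ℤ × ℤ} {ε : ℝ}
    (h : ∀ k < m, ∀ l < m, ‖f (v + ((k : ℤ), (l : ℤ))) - f' (v + ((k : ℤ), (l : ℤ)))‖ ≤ ε) :
    ‖av m f v - av m f' v‖ ≤ ε := by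
  have e : av m f v - av m f' v = av m f v + av m (fun u => (-1) * f' u) v := by
    rw [av_smul]; ring
  rw [e]
  apply norm_av_add_le hm
  intro k hk l hl
  have := h k hk l hl
  rw [neg_one_mul, ← sub_eq_add_neg]
  exact this

/-- **Finite linear combinations.** -/
theorem WLim.sum {R : ℕ → ℝ} {F : Filter ℕ} {Ω : Set ℂ} {ι : Type*} (s : Finset ι) (c : ι → ℂ)
    {f : ι → ℕ → ℤ × ℤ → ℂ} {g : ι → ℂ → ℂ} (h : ∀ i ∈ s, WLim R F Ω (f i) (g i)) :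
    WLim R F Ω (fun n v => ∑ i ∈ s, c i * f i n v) (fun z => ∑ i ∈ s, c i * g i z) := by
  classical
  intro K hK hKc ε hε
  set T : ℝ := ∑ i ∈ s, (‖c i‖ + 1) with hT
  have hT0 : 0 ≤ T := Finset.sum_nonneg fun i _ => by positivity
  have h1 : ∀ i ∈ s, ∃ δ0 > 0, ∀ δ : ℝ, 0 < δ → δ < δ0 → ∀ᶠ j in F, ∀ v : ℤ × ℤ,
      lat v / (R j : ℂ) ∈ K → ‖av ⌊δ * R j⌋₊ (f i j) v - g i (lat v / (R j : ℂ))‖ ≤ ε / (T + 1) :=
    fun i hi => h i hi K hK hKc (ε / (T + 1)) (by positivity)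
  choose! δ0 hδ0 h2 using h1
  obtain ⟨δ1, hδ1, hδ1'⟩ : ∃ δ1 > 0, ∀ i ∈ s, δ1 ≤ δ0 i := by
    rcases s.eq_empty_or_nonempty with rfl | hs
    · exact ⟨1, one_pos, fun i hi => by simp at hi⟩
    · refine ⟨s.inf' hs δ0, ?_, fun i hi => Finset.inf'_le _ hi⟩
      rw [gt_iff_lt, Finset.lt_inf'_iff]
      exact hδ0
  refine ⟨δ1, hδ1, fun δ hδ hδ' => ?_⟩
  have h3 : ∀ᶠ j in F, ∀ i ∈ s, ∀ v : ℤ × ℤ, lat v / (R j : ℂ) ∈ K →
      ‖av ⌊δ * R j⌋₊ (f i j) v - g i (lat v / (R j : ℂ))‖ ≤ ε / (T + 1) := by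
    rw [Finset.eventually_all]
    exact fun i hi => h2 i hi δ hδ (hδ'.trans_le (hδ1' i hi))
  filter_upwards [h3] with j hj v hv
  rw [av_sum, ← Finset.sum_sub_distrib]
  calc ‖∑ i ∈ s, (c i * av ⌊δ * R j⌋₊ (f i j) v - c i * g i (lat v / (R j : ℂ)))‖
      ≤ ∑ i ∈ s, ‖c i * av ⌊δ * R j⌋₊ (f i j) v - c i * g i (lat v / (R j : ℂ))‖ := norm_sum_le _ _
    _ ≤ ∑ i ∈ s, (‖c i‖ + 1) * (ε / (T + 1)) := by
        apply Finset.sum_le_sum
        intro i hi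
        rw [← mul_sub, norm_mul]
        have := hj i hi v hv
        have h0 : 0 ≤ ε / (T + 1) := by positivity
        nlinarith [norm_nonneg (c i), norm_nonneg (av ⌊δ * R j⌋₊ (f i j) v - g i (lat v / (R j : ℂ)))]
    _ = T * (ε / (T + 1)) := by rw [← Finset.sum_mul]
    _ ≤ ε := by
        rw [← mul_div_assoc, div_le_iff₀ (by linarith)]
        nlinarith

theorem WLim.smul {R : ℕ → ℝ} {F : Filter ℕ} {Ω : Set ℂ} (c : ℂ) {f : ℕ → ℤ × ℤ → ℂ} {g : ℂ → ℂ}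
    (h : WLim R F Ω f g) : WLim R F Ω (fun n v => c * f n v) (fun z => c * g z) := by
  have := WLim.sum (R := R) (F := F) (Ω := Ω) (Finset.univ : Finset (Fin 1)) (fun _ => c)
    (f := fun _ => f) (g := fun _ => g) (fun _ _ => h)
  simpa using this

theorem WLim.conj {R : ℕ → ℝ} {F : Filter ℕ} {Ω : Set ℂ} {f : ℕ → ℤ × ℤ → ℂ} {g : ℂ → ℂ}
    (h : WLim R F Ω f g) :
    WLim R F Ω (fun n v => (starRingEnd ℂ) (f n v)) (fun z => (starRingEnd ℂ) (g z)) := by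
  intro K hK hKc ε hε
  obtain ⟨δ0, hδ0, h1⟩ := h K hK hKc ε hε
  refine ⟨δ0, hδ0, fun δ hδ hδ' => ?_⟩
  filter_upwards [h1 δ hδ hδ'] with j hj v hv
  rw [av_conj, ← map_sub, Complex.norm_conj]
  exact hj v hv

theorem WLim.mono {R : ℕ → ℝ} {F F' : Filter ℕ} (hF : F' ≤ F) {Ω Ω' : Set ℂ} (hΩ : Ω' ⊆ Ω)
    {f : ℕ → ℤ × ℤ → ℂ} {g : ℂ → ℂ} (h : WLim R F Ω f g) : WLim R F' Ω' f g := by
  intro K hK hKc ε hε
  obtain ⟨δ0, hδ0, h1⟩ := h K (hK.trans hΩ) hKc ε hε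
  exact ⟨δ0, hδ0, fun δ hδ hδ' => hF (h1 δ hδ hδ')⟩

lemma dist_shift {R δ : ℝ} (hR : 0 < R) (v : ℤ × ℤ) (k l : ℕ) (hk : (k : ℝ) ≤ δ * R)
    (hl : (l : ℝ) ≤ δ * R) :
    dist (lat (v + ((k : ℤ), (l : ℤ))) / (R : ℂ)) (lat v / (R : ℂ)) ≤ 2 * δ := by
  rw [Complex.dist_eq]
  set w := lat (v + ((k : ℤ), (l : ℤ))) / (R : ℂ) - lat v / (R : ℂ) with hw
  have hre : w.re = k / R := by
    rw [hw, Complex.sub_re, lat_div_re, lat_div_re]
    simp only [Prod.fst_add]; push_cast; ring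
  have him : w.im = l / R := by
    rw [hw, Complex.sub_im, lat_div_im, lat_div_im]
    simp only [Prod.snd_add]; push_cast; ring
  calc ‖w‖ ≤ |w.re| + |w.im| := Complex.norm_le_abs_re_add_abs_im w
    _ = k / R + l / R := by
        rw [hre, him, abs_of_nonneg (by positivity), abs_of_nonneg (by positivity)]
    _ ≤ δ + δ := by
        apply add_le_add
        · rw [div_le_iff₀ hR]; exact hk
        · rw [div_le_iff₀ hR]; exact hl
    _ = 2 * δ := by ring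

/-- **`o(1)` changes.** -/
theorem WLim.congr_small {R : ℕ → ℝ} {F : Filter ℕ} (hR : Tendsto R F atTop) {Ω : Set ℂ}
    (hΩ : IsOpen Ω) {f f' : ℕ → ℤ × ℤ → ℂ} {g : ℂ → ℂ} (h : WLim R F Ω f g)
    (hf : ∀ K ⊆ Ω, IsCompact K → ∀ ε > 0, ∀ᶠ n in F, ∀ v : ℤ × ℤ, lat v / (R n : ℂ) ∈ K →
      ‖f n v - f' n v‖ ≤ ε) : WLim R F Ω f' g := by
  intro K hK hKc ε hε
  obtain ⟨δ0, hδ0, h1⟩ := h K hK hKc (ε / 2) (by linarith)
  obtain ⟨r, hr, hr'⟩ := hKc.exists_cthickening_subset_open hΩ hK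
  have h2 := hf (Metric.cthickening r K) hr' (hKc.cthickening) (ε / 2) (by linarith)
  refine ⟨min δ0 (r / 4), by positivity, fun δ hδ hδ' => ?_⟩
  have hd1 : δ < δ0 := hδ'.trans_le (min_le_left _ _)
  have hd2 : δ < r / 4 := hδ'.trans_le (min_le_right _ _)
  have h3 : ∀ᶠ n in F, 0 < R n ∧ 1 ≤ δ * R n := by
    filter_upwards [hR.eventually_gt_atTop 0, hR.eventually_ge_atTop (1 / δ)] with n e1 e2
    rw [div_le_iff₀ hδ] at e2
    exact ⟨e1, by linarith⟩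
  filter_upwards [h1 δ hδ hd1, h2, h3] with n a1 a2 ⟨a3, a4⟩ v hv
  set m := ⌊δ * R n⌋₊ with hm
  have hm0 : 0 < m := Nat.floor_pos.2 a4
  have hmle : (m : ℝ) ≤ δ * R n := Nat.floor_le (by linarith)
  have e1 := a1 v hv
  have e2 : ‖av m (f' n) v - av m (f n) v‖ ≤ ε / 2 := by
    apply norm_av_sub_le hm0
    intro k hk l hl
    rw [norm_sub_rev]
    apply a2
    apply Metric.mem_cthickening_of_dist_le _ _ _ _ hv
    have hk' : (k : ℝ) ≤ δ * R n := by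
      have : (k : ℝ) ≤ m := by exact_mod_cast hk.le
      linarith
    have hl' : (l : ℝ) ≤ δ * R n := by
      have : (l : ℝ) ≤ m := by exact_mod_cast hl.le
      linarith
    have := dist_shift a3 v k l hk' hl'
    linarith
  have e : av m (f' n) v - g (lat v / (R n : ℂ)) =
      (av m (f' n) v - av m (f n) v) + (av m (f n) v - g (lat v / (R n : ℂ))) := by ring
  rw [e]
  exact (norm_add_le _ _).trans (by linarith)

end Pool.Agent.H61.W
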