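import Mathlib
import Pool.Agent.H44.W.CloseDef

set_option autoImplicit false

/-! # W-C: the interface of the junction step (infinite strip version)

Limit domain: strip `|Im z| < 1` minus the slit `(-∞, 0]`, solid plate `P = [-δ, 0]` (the tip of the slit is `0`).
`k` = level (plates, steps of the walls `→ 0`, length of the box `→ ∞`), `n` = mesh, `R k n` = scale: the lattice
position `v` is the point `lat v / R k n`. `U k` = room of level `k` (macroscopic, open).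
* `X k n b v` = functional `E[c_P V]` with `z1 = v` (over) moving and `z2` = admissible corner nearest to the
  boundary point `b` (under) fixed;
* `Y k n b v` = the same with `z1` = gap of `P` nearest to the point `b` of the banks of `P` (over) fixed and
  `z2 = v` (under) moving;
* `G k n b c` = both fixed: `z1` = gap of `P` nearest to `b`, `z2` = corner nearest to `c`;
* `p k n b c` = probability that `P` is pivotal for the marks nearest to `b`, `c` and the two fixed marks. -/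

namespace Pool.Agent.H61.W

open Filter Topology Set Complex
open Pool.Agent.Q1.M4 (lat)
open Pool.Agent.H44.W (WLim)

/-- slit strip -/
def SStrip : Set ℂ := {z | |z.im| < 1 ∧ ¬ (z.im = 0 ∧ z.re ≤ 0)}

/-- sign of a side: `true` = upper -/
noncomputable def sgn (s : Bool) : ℝ := if s then 1 else -1

/-- the boundary point `x ± i` -/
noncomputable def bdp (b : Bool × ℝ) : ℂ := ⟨b.2, sgn b.1⟩

/-- the angle of the boundary point `x ± i` seen by `tanh (π z / 4)`, in `(-π, π)` -/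
noncomputable def ang (b : Bool × ℝ) : ℝ := sgn b.1 * (2 * Real.arctan (Real.exp (-(Real.pi * b.2 / 2))))

/-- number of passages (over marks counted positively, under marks negatively) -/
noncomputable def passN (a1 a2 a3 a4 : ℝ) : ℝ :=
  ((if a2 < a1 then 1 else 0) + (if a3 < a1 then 1 else 0) + (if a4 < a1 then 1 else 0)) -
    ((if a3 < a2 then 1 else 0) + (if a4 < a2 then 1 else 0))

/-- the phase `e^(-i π N / 3)` -/
noncomputable def phs (a1 a2 a3 a4 : ℝ) : ℂ := exp (-(Real.pi / 3 * passN a1 a2 a3 a4 : ℝ) * I)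

/-- eventually in `k`, for all compact parts of the room, eventually in `n`, at all lattice points of the part -/
def EvIn (R : ℕ → ℕ → ℝ) (U : ℕ → Set ℂ) (Z : Set ℂ) (Q : ℕ → ℕ → ℤ × ℤ → Prop) : Prop :=
  ∀ᶠ k in atTop, ∀ K ⊆ U k, IsCompact K → ∀ᶠ n in atTop, ∀ v : ℤ × ℤ,
    lat v / (R k n : ℂ) ∈ K → lat v / (R k n : ℂ) ∈ Z → Q k n v

/-- **Data of the junction step**, `δ` = length of `P`, `A` = bound for the functional with both moving marks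
near `P`, `M` = absolute bound, `b3`, `b4` = fixed marks, `κ` = normalisation. -/
structure JData (δ A M : ℝ) (κ : ℂ) (b3 b4 : Bool × ℝ) where
  R : ℕ → ℕ → ℝ
  U : ℕ → Set ℂ
  X : ℕ → ℕ → Bool × ℝ → ℤ × ℤ → ℂ
  Y : ℕ → ℕ → Bool × ℝ → ℤ × ℤ → ℂ
  G : ℕ → ℕ → Bool × ℝ → Bool × ℝ → ℂ
  p : ℕ → ℕ → Bool × ℝ → Bool × ℝ → ℝ
  R_lim : ∀ k, Tendsto (R k) atTop atTop
  U_open : ∀ k, IsOpen (U k)
  U_lim : ∀ K ⊆ SStrip, IsCompact K → ∀ᶠ k in atTop, K ⊆ U k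
  p_nonneg : ∀ k n b c, 0 ≤ p k n b c
  p_le : ∀ k n b c, p k n b c ≤ 1
  G_bdd : ∀ k n b c, ‖G k n b c‖ ≤ M
  /-- (S), over: `X` has holomorphic limits -/
  X_hol : ∀ c : Bool × ℝ, c ≠ b3 → c ≠ b4 → ∀ᶠ k in atTop, ∀ 𝒰 : Ultrafilter ℕ, (𝒰 : Filter ℕ) ≤ atTop →
    ∃ g : ℂ → ℂ, DifferentiableOn ℂ g (U k) ∧ (∀ z ∈ U k, ‖g z‖ ≤ M) ∧
      WLim (R k) 𝒰 (U k) (fun n => X k n c) g
  /-- (S), under: `Y` has antiholomorphic limits -/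
  Y_hol : ∀ b : Bool × ℝ, b.2 ∈ Ioo (-δ) 0 → ∀ᶠ k in atTop, ∀ 𝒰 : Ultrafilter ℕ, (𝒰 : Filter ℕ) ≤ atTop →
    ∃ g : ℂ → ℂ, DifferentiableOn ℂ (fun z => (starRingEnd ℂ) (g z)) (U k) ∧ (∀ z ∈ U k, ‖g z‖ ≤ M) ∧
      WLim (R k) 𝒰 (U k) (fun n => Y k n b) g
  /-- (a) floor and ceiling, `z1` moving -/
  X_bd : ∀ b c : Bool × ℝ, b ≠ c → b ≠ b3 → b ≠ b4 → c ≠ b3 → c ≠ b4 → ∀ ε > 0, ∃ r > 0,
    EvIn R U (Metric.closedBall (bdp b) r) fun k n v =>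
      ‖X k n c v - κ * phs (ang b) (ang c) (ang b3) (ang b4) * p k n b c‖ ≤ ε
  /-- (b) across the fine plates, `z1` moving -/
  X_odd : ∀ c : Bool × ℝ, c ≠ b3 → c ≠ b4 → ∀ x : ℝ, x < -δ → ∀ ε > 0, ∃ r > 0,
    ∀ᶠ k in atTop, ∀ K ⊆ U k, IsCompact K → ∀ᶠ n in atTop, ∀ v v' : ℤ × ℤ,
      lat v / (R k n : ℂ) ∈ K ∩ Metric.closedBall (x : ℂ) r ∩ {z | 0 < z.im} →
      lat v' / (R k n : ℂ) ∈ K ∩ Metric.closedBall (x : ℂ) r ∩ {z | z.im < 0} →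
      ‖X k n c v + X k n c v'‖ ≤ ε
  /-- (c) banks of `P`, `z1` moving -/
  X_P : ∀ b c : Bool × ℝ, b.2 ∈ Ioo (-δ) 0 → c ≠ b3 → c ≠ b4 → ∀ ε > 0, ∃ r > 0,
    EvIn R U (Metric.closedBall (b.2 : ℂ) r ∩ {z | 0 < sgn b.1 * z.im}) fun k n v =>
      ‖X k n c v - G k n b c‖ ≤ ε
  /-- (d) floor and ceiling, `z2` moving -/
  Y_bd : ∀ b c : Bool × ℝ, b.2 ∈ Ioo (-δ) 0 → c ≠ b3 → c ≠ b4 → ∀ ε > 0, ∃ r > 0,
    EvIn R U (Metric.closedBall (bdp c) r) fun k n v => ‖Y k n b v - G k n b c‖ ≤ ε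
  /-- (b) across the fine plates, `z2` moving -/
  Y_odd : ∀ b : Bool × ℝ, b.2 ∈ Ioo (-δ) 0 → ∀ x : ℝ, x < -δ → ∀ ε > 0, ∃ r > 0,
    ∀ᶠ k in atTop, ∀ K ⊆ U k, IsCompact K → ∀ᶠ n in atTop, ∀ v v' : ℤ × ℤ,
      lat v / (R k n : ℂ) ∈ K ∩ Metric.closedBall (x : ℂ) r ∩ {z | 0 < z.im} →
      lat v' / (R k n : ℂ) ∈ K ∩ Metric.closedBall (x : ℂ) r ∩ {z | z.im < 0} →
      ‖Y k n b v + Y k n b v'‖ ≤ ε
  /-- (e) both moving marks near `P`: two arms -/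
  Y_near : ∀ b : Bool × ℝ, b.2 ∈ Ioo (-δ) 0 →
    EvIn R U {z | δ ≤ ‖z‖ ∧ ‖z‖ ≤ 4 * δ} fun k n v => ‖Y k n b v‖ ≤ A

/-- **Conclusion of W-C** (to be proved): the averaged junction bound. -/
def JunctionThm : Prop :=
  ∀ L l : ℝ, 0 < l → ∃ C δ0 : ℝ, 0 < δ0 ∧ ∀ δ A M : ℝ, ∀ κ : ℂ, ∀ b3 b4 : Bool × ℝ,
    0 < δ → δ ≤ δ0 → 0 ≤ A → ‖κ‖ = 1 → |b3.2| ≤ L → |b4.2| ≤ L → b3 ≠ b4 →
    ∀ J : JData δ A M κ b3 b4, ∀ s1 s2 : Bool, ∀ x1 x2 : ℝ, -L ≤ x1 → x1 + l ≤ L → -L ≤ x2 → x2 + l ≤ L →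
    ∀ q : ℕ → ℕ → ℝ,
    (∀ y1 ∈ Icc x1 (x1 + l), ∀ y2 ∈ Icc x2 (x2 + l), ∀ᶠ k in atTop, ∀ᶠ n in atTop,
      q k n ≤ J.p k n (s1, y1) (s2, y2)) →
    ∀ η > 0, ∀ᶠ k in atTop, ∀ᶠ n in atTop, q k n ≤ C * δ * A + η

end Pool.Agent.H61.W
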