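import Mathlib
import Pool.Agent.H6.W.JDef
import Pool.Agent.H61.W.JData

set_option autoImplicit false

/-! # W-C: from `JunctionThm` and the construction of `JData` (`C6`) to the junction bound `JB` of W-E -/

namespace Pool.Agent.H61.W

open Filter Topology Set
open Pool.Agent.H6.W

/-- the boundary point `x ± i` (unit = half height of the box) is inside the window `t` of `JBox.InW` -/
def WinC (L g t : ℕ) (b : Bool × ℝ) : Prop :=
  (b.1 = true ∧ t < 2 * L * g ∧ (t : ℝ) - L * g < g * b.2 ∧ g * b.2 < (t : ℝ) - L * g + 1) ∨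
  (b.1 = false ∧ 2 * L * g ≤ t ∧ t < 4 * L * g ∧ 3 * L * g - 1 - (t : ℝ) < g * b.2 ∧
    g * b.2 < 3 * L * g - (t : ℝ))

/-- **C6 = what the lattice side (16) has to construct.** For every sequence of boxes of order `δ k → 0`, scales
`h k n → ∞`, wiring `w` and separated windows: `JData` with `A = CA σ ^ c`, such that `p` bounds the probability
that the chunk is pivotal for all marks in the windows. -/
def C6 (c : ℝ) : Prop :=
  ∃ CA M σ0 : ℝ, 0 ≤ CA ∧ 0 < σ0 ∧ ∀ σ : ℝ, 0 < σ → σ ≤ σ0 →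
    ∀ (B : ℕ → JBox) (δ : ℕ → ℝ) (h : ℕ → ℕ → ℕ), (∀ k, (B k).Ok (δ k) σ) → (∀ k, 0 < δ k) →
    Tendsto δ atTop (𝓝 0) → (∀ k, StrictMono (h k)) →
    ∀ (w : Bool) (L g t1 t2 t3 t4 : ℕ), 0 < L → 0 < g → t1 + 2 ≤ t2 → t2 + 2 ≤ t3 → t3 + 2 ≤ t4 →
      t4 < 4 * L * g → ∀ b3 b4 : Bool × ℝ, WinC L g t3 b3 → WinC L g t4 b4 →
      ∃ κ : ℂ, ‖κ‖ = 1 ∧ ∃ J : JData σ (CA * σ ^ c) M κ b3 b4,
        ∀ b1 b2 : Bool × ℝ, WinC L g t1 b1 → WinC L g t2 b2 → ∀ᶠ k in atTop, ∀ᶠ n in atTop,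
          (B k).PJ (h k n) ((B k).AllPiv (h k n) L g w t1 t2 t3 t4) ≤ J.p k n b1 b2

/-- a point (centre) and an interval inside each window -/
lemma exists_win {L g t : ℕ} (hg : 0 < g) (ht : t < 4 * L * g) :
    ∃ (s : Bool) (x : ℝ), -(L : ℝ) ≤ x ∧ x + 1 / (2 * g) ≤ L ∧
      ∀ y ∈ Icc x (x + 1 / (2 * g)), WinC L g t (s, y) := by
  have hg' : (0 : ℝ) < g := by exact_mod_cast hg
  have key : ∀ j : ℝ, -((L : ℝ) * g) ≤ j → j + 1 ≤ L * g →
      -(L : ℝ) ≤ (j + 1 / 4) / g ∧ (j + 1 / 4) / g + 1 / (2 * g) ≤ L ∧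
        ∀ y ∈ Icc ((j + 1 / 4) / (g : ℝ)) ((j + 1 / 4) / g + 1 / (2 * g)), j < g * y ∧ g * y < j + 1 := by
    intro j h1 h2
    refine ⟨?_, ?_, ?_⟩
    · rw [le_div_iff₀ hg']; linarith
    · rw [div_add_div _ _ hg'.ne' (by positivity), div_le_iff₀ (by positivity)]
      nlinarith
    · intro y hy
      have e1 := hy.1
      have e2 := hy.2
      rw [div_le_iff₀ hg'] at e1
      have e3 : (j + 1 / 4) / g + 1 / (2 * g) = (j + 3 / 4) / g := by
        field_simp; ring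
      rw [e3, le_div_iff₀ hg'] at e2
      constructor <;> nlinarith
  by_cases h : t < 2 * L * g
  · have h1 : ((t : ℝ) + 1) ≤ 2 * L * g := by exact_mod_cast h
    have h0 : (0 : ℝ) ≤ t := Nat.cast_nonneg t
    obtain ⟨k1, k2, k3⟩ := key ((t : ℝ) - L * g) (by linarith) (by linarith)
    exact ⟨true, _, k1, k2, fun y hy => Or.inl ⟨rfl, h, (k3 y hy).1, (k3 y hy).2⟩⟩
  · have h' : 2 * L * g ≤ t := not_lt.1 h
    have h1 : (2 * L * g : ℝ) ≤ t := by exact_mod_cast h'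
    have h2 : ((t : ℝ) + 1) ≤ 4 * L * g := by exact_mod_cast ht
    obtain ⟨k1, k2, k3⟩ := key (3 * L * g - 1 - (t : ℝ)) (by linarith) (by linarith)
    refine ⟨false, _, k1, k2, fun y hy => Or.inr ⟨rfl, h', ht, (k3 y hy).1, ?_⟩⟩
    have := (k3 y hy).2
    simp only
    linarith

lemma WinC_ne {L g t t' : ℕ} {b b' : Bool × ℝ} (h : WinC L g t b) (h' : WinC L g t' b')
    (htt : t < t') : b ≠ b' := by
  rintro rfl
  have htt' : (t : ℝ) + 1 ≤ t' := by exact_mod_cast htt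
  rcases h with ⟨a1, a2, a3, a4⟩ | ⟨a1, a2, a3, a4, a5⟩ <;>
    rcases h' with ⟨c1, c2, c3, c4⟩ | ⟨c1, c2, c3, c4, c5⟩
  · linarith
  · rw [a1] at c1; cases c1
  · rw [a1] at c1; cases c1
  · linarith

lemma WinC_abs {L g t : ℕ} (hg : 0 < g) {b : Bool × ℝ} (h : WinC L g t b) : |b.2| ≤ L := by
  have hg' : (0 : ℝ) < g := by exact_mod_cast hg
  rw [abs_le]
  rcases h with ⟨a1, a2, a3, a4⟩ | ⟨a1, a2, a3, a4, a5⟩
  · have h1 : ((t : ℝ) + 1) ≤ 2 * L * g := by exact_mod_cast a2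
    have h0 : (0 : ℝ) ≤ t := Nat.cast_nonneg t
    constructor
    · by_contra hc; have hc := not_le.1 hc; nlinarith
    · by_contra hc; have hc := not_le.1 hc; nlinarith
  · have h1 : (2 * L * g : ℝ) ≤ t := by exact_mod_cast a2
    have h2 : ((t : ℝ) + 1) ≤ 4 * L * g := by exact_mod_cast a3
    constructor
    · by_contra hc; have hc := not_le.1 hc; nlinarith
    · by_contra hc; have hc := not_le.1 hc; nlinarith

lemma PJ_le_one (b : JBox) (h : ℕ) (A : Finset (ℤ × ℤ) → Prop) : b.PJ h A ≤ 1 :=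
  Pool.Agent.H58.W.PB_le_one _ _ _

/-- a property that fails for arbitrarily large numbers fails along a strictly monotone sequence -/
lemma exists_seq {P : ℕ → Prop} (h : ¬ ∃ h0, ∀ n, h0 ≤ n → P n) :
    ∃ φ : ℕ → ℕ, StrictMono φ ∧ ∀ n, ¬ P (φ n) := by
  have : ∃ᶠ n in atTop, ¬ P n := by
    rw [Filter.frequently_atTop]
    intro a
    by_contra hc
    apply h
    refine ⟨a, fun n hn => ?_⟩
    by_contra hP
    exact hc ⟨n, hn, hP⟩
  obtain ⟨φ, h1, h2⟩ := Filter.extraction_of_frequently_atTop this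
  exact ⟨φ, h1, h2⟩

/-- **W-C => W-E.** -/
theorem jb_of (hJ : JunctionThm) {c : ℝ} (hc : 0 ≤ c) (hC6 : C6 c) : JB c := by
  classical
  intro L g hL hg
  have hg' : (0 : ℝ) < g := by exact_mod_cast hg
  obtain ⟨CA, M, σ0, hCA, hσ0, hC6⟩ := hC6
  obtain ⟨C, δ0, hδ0, hC⟩ := hJ L (1 / (2 * g)) (by positivity)
  set σ1 : ℝ := min σ0 δ0 with hσ1
  have hσ1p : 0 < σ1 := lt_min hσ0 hδ0
  refine ⟨max (|C| * CA) (σ1 ^ (-(1 + c))), ?_⟩
  intro σ hσ hσle ε hε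
  set Ct : ℝ := max (|C| * CA) (σ1 ^ (-(1 + c))) with hCt
  have hσp : 0 < σ ^ (1 + c) := Real.rpow_pos_of_pos hσ _
  rcases lt_or_ge σ1 σ with hbig | hsmall
  · -- large `σ`: the trivial bound
    refine ⟨1, one_pos, fun b _ w t1 t2 t3 t4 _ _ _ _ => ⟨0, fun h _ => ?_⟩⟩
    have h1 := PJ_le_one b h (b.AllPiv h L g w t1 t2 t3 t4)
    have h2 : 1 ≤ σ1 ^ (-(1 + c)) * σ ^ (1 + c) := by
      rw [Real.rpow_neg hσ1p.le, inv_mul_eq_div, le_div_iff₀ (Real.rpow_pos_of_pos hσ1p _), one_mul]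
      exact Real.rpow_le_rpow hσ1p.le hbig.le (by linarith)
    have h3 : σ1 ^ (-(1 + c)) * σ ^ (1 + c) ≤ Ct * σ ^ (1 + c) :=
      mul_le_mul_of_nonneg_right (le_max_right _ _) hσp.le
    linarith
  · by_contra hcon
    -- a bad sequence of boxes
    have hbad : ∀ k : ℕ, ∃ b : JBox, b.Ok (1 / ((k : ℝ) + 1)) σ ∧ ∃ (w : Bool) (t1 t2 t3 t4 : ℕ),
        (t1 + 2 ≤ t2 ∧ t2 + 2 ≤ t3 ∧ t3 + 2 ≤ t4 ∧ t4 < 4 * L * g) ∧
        ∃ φ : ℕ → ℕ, StrictMono φ ∧ ∀ n,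
          ¬ b.PJ (φ n) (b.AllPiv (φ n) L g w t1 t2 t3 t4) ≤ Ct * σ ^ (1 + c) + ε := by
      intro k
      by_contra hk
      apply hcon
      refine ⟨1 / ((k : ℝ) + 1), by positivity, fun b hb w t1 t2 t3 t4 a1 a2 a3 a4 => ?_⟩
      by_contra hk2
      exact hk ⟨b, hb, w, t1, t2, t3, t4, ⟨a1, a2, a3, a4⟩, exists_seq hk2⟩
    choose B hB w t1 t2 t3 t4 ht φ hφ hφ2 using hbad
    -- pigeonhole for the windows
    have hfin : ∃ q : Bool × (ℕ × ℕ × ℕ × ℕ),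
        ∃ᶠ k in atTop, (w k, t1 k, t2 k, t3 k, t4 k) = q := by
      set N := 4 * L * g with hN
      set S : Finset (Bool × (ℕ × ℕ × ℕ × ℕ)) :=
        Finset.univ ×ˢ (Finset.range N ×ˢ Finset.range N ×ˢ Finset.range N ×ˢ Finset.range N) with hS
      have hmem : ∀ k, (w k, t1 k, t2 k, t3 k, t4 k) ∈ S := by
        intro k
        obtain ⟨a1, a2, a3, a4⟩ := ht k
        simp only [hS, Finset.mem_product, Finset.mem_univ, Finset.mem_range, true_and]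
        refine ⟨?_, ?_, ?_, ?_⟩ <;> omega
      by_contra hno
      push Not at hno
      have : ∀ q ∈ S, ∀ᶠ k in atTop, (w k, t1 k, t2 k, t3 k, t4 k) ≠ q := fun q _ => by
        have := hno q
        simpa [Filter.not_frequently] using this
      have hall := (Finset.eventually_all S).2 this
      obtain ⟨k, hk⟩ := hall.exists
      exact hk _ (hmem k) rfl
    obtain ⟨⟨w0, s1, s2, s3, s4⟩, hq⟩ := hfin
    obtain ⟨ψ, hψ, hψ2⟩ := Filter.extraction_of_frequently_atTop hq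
    have hw : ∀ k, w (ψ k) = w0 ∧ t1 (ψ k) = s1 ∧ t2 (ψ k) = s2 ∧ t3 (ψ k) = s3 ∧ t4 (ψ k) = s4 := by
      intro k
      have := hψ2 k
      simp only [Prod.mk.injEq] at this
      exact this
    obtain ⟨a1, a2, a3, a4⟩ : s1 + 2 ≤ s2 ∧ s2 + 2 ≤ s3 ∧ s3 + 2 ≤ s4 ∧ s4 < 4 * L * g := by
      obtain ⟨_, e1, e2, e3, e4⟩ := hw 0
      have := ht (ψ 0)
      rwa [e1, e2, e3, e4] at this
    obtain ⟨c1, x1, y1, z1, w1⟩ := exists_win (L := L) (t := s1) hg (by omega)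
    obtain ⟨c2, x2, y2, z2, w2⟩ := exists_win (L := L) (t := s2) hg (by omega)
    obtain ⟨c3, x3, y3, z3, w3⟩ := exists_win (L := L) (t := s3) hg (by omega)
    obtain ⟨c4, x4, y4, z4, w4⟩ := exists_win (L := L) (t := s4) hg (by omega)
    have hpos : (0 : ℝ) ≤ 1 / (2 * g) := by positivity
    have hb3 : WinC L g s3 (c3, x3) := w3 x3 ⟨le_rfl, by linarith⟩
    have hb4 : WinC L g s4 (c4, x4) := w4 x4 ⟨le_rfl, by linarith⟩
    obtain ⟨κ, hκ, J, hJq⟩ := hC6 σ hσ (hsmall.trans (min_le_left _ _)) (fun k => B (ψ k))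
      (fun k => 1 / ((ψ k : ℝ) + 1)) (fun k => φ (ψ k)) (fun k => hB (ψ k)) (fun k => by positivity)
      (tendsto_one_div_add_atTop_nhds_zero_nat.comp hψ.tendsto_atTop) (fun k => hφ (ψ k))
      w0 L g s1 s2 s3 s4 hL hg a1 a2 a3 a4 (c3, x3) (c4, x4) hb3 hb4
    have hres := hC σ (CA * σ ^ c) M κ (c3, x3) (c4, x4) hσ (hsmall.trans (min_le_right _ _))
      (by positivity) hκ (WinC_abs hg hb3) (WinC_abs hg hb4) (WinC_ne hb3 hb4 (by omega)) J c1 c2 x1 x2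
      y1 z1 y2 z2 (fun k n => (B (ψ k)).PJ (φ (ψ k) n) ((B (ψ k)).AllPiv (φ (ψ k) n) L g w0 s1 s2 s3 s4))
      (fun u hu v hv => hJq (c1, u) (c2, v) (w1 u hu) (w2 v hv)) ε hε
    obtain ⟨k, hk⟩ := hres.exists
    obtain ⟨n, hn⟩ := hk.exists
    have hbad := hφ2 (ψ k) n
    obtain ⟨e0, e1, e2, e3, e4⟩ := hw k
    rw [e0, e1, e2, e3, e4] at hbad
    apply hbad
    refine hn.trans ?_
    have h1 : C * σ * (CA * σ ^ c) ≤ Ct * σ ^ (1 + c) := by
      have e : σ ^ (1 + c) = σ * σ ^ c := by rw [Real.rpow_add hσ, Real.rpow_one]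
      rw [e]
      have h2 : C * CA ≤ Ct := (mul_le_mul_of_nonneg_right (le_abs_self C) hCA).trans (le_max_left _ _)
      have h3 : 0 ≤ σ * σ ^ c := by positivity
      calc C * σ * (CA * σ ^ c) = (C * CA) * (σ * σ ^ c) := by ring
        _ ≤ Ct * (σ * σ ^ c) := mul_le_mul_of_nonneg_right h2 h3
    linarith

end Pool.Agent.H61.W
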