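import Mathlib
import Pool.Agent.H61.W.JWorld
import Pool.Agent.H61.W.JB

set_option autoImplicit false

/-! # C6: the fields of `JData` for the worlds of `JWorld.lean`, and the assembly

`Setup σ` = sequence of boxes of order `δ k → 0`, scales `h k n`, wiring `w`, fixed marks `b3`, `b4`.
The Props `XHol, YHol, XBd, XOdd, XP, YBd, YOdd, YNear, PAll, ULim` are what is to be proved; `c6_of` assembles them to
`C6 c`. -/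

namespace Pool.Agent.H61.W

open Filter Topology Set
open Pool.Agent.Q1.M4 (lat)
open Pool.Agent.H44.W (WLim)
open Pool.Agent.H6.W Pool.Agent.H58.W
open Pool.Agent.H73.W (ph ph_norm ph_inv_norm ph_ne)

structure Setup (σ : ℝ) where
  B : ℕ → JBox
  δ : ℕ → ℝ
  h : ℕ → ℕ → ℕ
  w : Bool
  b3 : Bool × ℝ
  b4 : Bool × ℝ
  ok : ∀ k, (B k).Ok (δ k) σ
  pos : ∀ k, 0 < δ k
  lim : Tendsto δ atTop (𝓝 0)
  mono : ∀ k, StrictMono (h k)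
  ne : b3 ≠ b4

namespace Setup

variable {σ : ℝ} (S : Setup σ)

/-- scale: lattice position `v` (tile) = point `lat v / R` -/
noncomputable def R (k n : ℕ) : ℝ := 2 * S.h k n * (S.B k).H

noncomputable def U (k : ℕ) : Set ℂ := Ur (S.B k)

noncomputable def X (k n : ℕ) (c : Bool × ℝ) (v : ℤ × ℤ) : ℂ :=
  Xf (S.B k) (S.h k n) S.w (cor (S.B k) c) (cor (S.B k) S.b3) (cor (S.B k) S.b4) v

noncomputable def Y (k n : ℕ) (b : Bool × ℝ) (v : ℤ × ℤ) : ℂ :=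
  Yf (S.B k) (S.h k n) S.w b.1 (gp (S.B k) (2 * S.h k n) b.2) (cor (S.B k) S.b3) (cor (S.B k) S.b4) v

noncomputable def G (k n : ℕ) (b c : Bool × ℝ) : ℂ :=
  Gf (S.B k) (S.h k n) S.w b.1 (gp (S.B k) (2 * S.h k n) b.2) (cor (S.B k) c) (cor (S.B k) S.b3)
    (cor (S.B k) S.b4)

noncomputable def p (k n : ℕ) (b c : Bool × ℝ) : ℝ :=
  pf (S.B k) (S.h k n) S.w (cor (S.B k) b) (cor (S.B k) c) (cor (S.B k) S.b3) (cor (S.B k) S.b4)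

/-- the normalisation (found by brute force; 25's `phase_table`) -/
noncomputable def kap (w : Bool) : ℂ := if w then -(ph ^ 2) else ph ^ 2

/-! ### The Props -/

/-- (S), over -/
def XHol : Prop := ∀ c : Bool × ℝ, c ≠ S.b3 → c ≠ S.b4 → ∀ᶠ k in atTop, ∀ 𝒰 : Ultrafilter ℕ,
  (𝒰 : Filter ℕ) ≤ atTop → ∃ g : ℂ → ℂ, DifferentiableOn ℂ g (S.U k) ∧ (∀ z ∈ S.U k, ‖g z‖ ≤ 4) ∧
    WLim (S.R k) 𝒰 (S.U k) (fun n => S.X k n c) g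

/-- (S), under -/
def YHol : Prop := ∀ b : Bool × ℝ, b.2 ∈ Ioo (-σ) 0 → ∀ᶠ k in atTop, ∀ 𝒰 : Ultrafilter ℕ,
  (𝒰 : Filter ℕ) ≤ atTop → ∃ g : ℂ → ℂ, DifferentiableOn ℂ (fun z => (starRingEnd ℂ) (g z)) (S.U k) ∧
    (∀ z ∈ S.U k, ‖g z‖ ≤ 4) ∧ WLim (S.R k) 𝒰 (S.U k) (fun n => S.Y k n b) g

/-- (a) floor and ceiling, `z1` moving -/
def XBd : Prop := ∀ b c : Bool × ℝ, b ≠ c → b ≠ S.b3 → b ≠ S.b4 → c ≠ S.b3 → c ≠ S.b4 → ∀ ε > 0, ∃ r > 0,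
  EvIn S.R S.U (Metric.closedBall (bdp b) r) fun k n v =>
    ‖S.X k n c v - kap S.w * phs (ang b) (ang c) (ang S.b3) (ang S.b4) * S.p k n b c‖ ≤ ε

/-- (b) across the fine plates, `z1` moving -/
def XOdd : Prop := ∀ c : Bool × ℝ, c ≠ S.b3 → c ≠ S.b4 → ∀ x : ℝ, x < -σ → ∀ ε > 0, ∃ r > 0,
  ∀ᶠ k in atTop, ∀ K ⊆ S.U k, IsCompact K → ∀ᶠ n in atTop, ∀ v v' : ℤ × ℤ,
    lat v / (S.R k n : ℂ) ∈ K ∩ Metric.closedBall (x : ℂ) r ∩ {z | 0 < z.im} →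
    lat v' / (S.R k n : ℂ) ∈ K ∩ Metric.closedBall (x : ℂ) r ∩ {z | z.im < 0} →
    ‖S.X k n c v + S.X k n c v'‖ ≤ ε

/-- (c) banks of `P`, `z1` moving -/
def XP : Prop := ∀ b c : Bool × ℝ, b.2 ∈ Ioo (-σ) 0 → c ≠ S.b3 → c ≠ S.b4 → ∀ ε > 0, ∃ r > 0,
  EvIn S.R S.U (Metric.closedBall (b.2 : ℂ) r ∩ {z | 0 < sgn b.1 * z.im}) fun k n v =>
    ‖S.X k n c v - S.G k n b c‖ ≤ ε

/-- (d) floor and ceiling, `z2` moving -/
def YBd : Prop := ∀ b c : Bool × ℝ, b.2 ∈ Ioo (-σ) 0 → c ≠ S.b3 → c ≠ S.b4 → ∀ ε > 0, ∃ r > 0,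
  EvIn S.R S.U (Metric.closedBall (bdp c) r) fun k n v => ‖S.Y k n b v - S.G k n b c‖ ≤ ε

/-- (b) across the fine plates, `z2` moving -/
def YOdd : Prop := ∀ b : Bool × ℝ, b.2 ∈ Ioo (-σ) 0 → ∀ x : ℝ, x < -σ → ∀ ε > 0, ∃ r > 0,
  ∀ᶠ k in atTop, ∀ K ⊆ S.U k, IsCompact K → ∀ᶠ n in atTop, ∀ v v' : ℤ × ℤ,
    lat v / (S.R k n : ℂ) ∈ K ∩ Metric.closedBall (x : ℂ) r ∩ {z | 0 < z.im} →
    lat v' / (S.R k n : ℂ) ∈ K ∩ Metric.closedBall (x : ℂ) r ∩ {z | z.im < 0} →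
    ‖S.Y k n b v + S.Y k n b v'‖ ≤ ε

/-- (e) both moving marks near `P` -/
def YNear (A : ℝ) : Prop := ∀ b : Bool × ℝ, b.2 ∈ Ioo (-σ) 0 →
  EvIn S.R S.U {z | σ ≤ ‖z‖ ∧ ‖z‖ ≤ 4 * σ} fun k n v => ‖S.Y k n b v‖ ≤ A

/-- every compact part of the slit strip lies in the rooms -/
def ULim : Prop := ∀ K ⊆ SStrip, IsCompact K → ∀ᶠ k in atTop, K ⊆ S.U k

/-- `P` pivotal for all marks in the windows -/
def PAll : Prop := ∀ (L g t1 t2 t3 t4 : ℕ), 0 < L → 0 < g → t1 + 2 ≤ t2 → t2 + 2 ≤ t3 → t3 + 2 ≤ t4 →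
  t4 < 4 * L * g → WinC L g t3 S.b3 → WinC L g t4 S.b4 → ∀ b1 b2 : Bool × ℝ, WinC L g t1 b1 →
  WinC L g t2 b2 → ∀ᶠ k in atTop, ∀ᶠ n in atTop,
    (S.B k).PJ (S.h k n) ((S.B k).AllPiv (S.h k n) L g S.w t1 t2 t3 t4) ≤ S.p k n b1 b2

/-- **All fields.** -/
structure All (A : ℝ) : Prop where
  xHol : S.XHol
  yHol : S.YHol
  xBd : S.XBd
  xOdd : S.XOdd
  xP : S.XP
  yBd : S.YBd
  yOdd : S.YOdd
  yNear : S.YNear A
  uLim : S.ULim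
  pAll : S.PAll

end Setup

/-! ### Assembly -/

lemma PJ_nonneg (b : JBox) (h : ℕ) (A : Finset (ℤ × ℤ) → Prop) : 0 ≤ b.PJ h A :=
  PB_nonneg _ _ _

lemma norm_PJ_le (b : JBox) (h : ℕ) (A : Finset (ℤ × ℤ) → Prop) : ‖(b.PJ h A : ℂ)‖ ≤ 1 := by
  rw [Complex.norm_real, Real.norm_of_nonneg (PJ_nonneg b h A)]
  exact PJ_le_one b h A

lemma norm_K2 (b : JBox) (c2 c3 c4 : Bool × ℕ) : ‖K2 b c2 c3 c4‖ = 1 := by
  unfold K2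
  split_ifs
  · exact ph_inv_norm
  · exact ph_norm

lemma norm_V0_le (b : JBox) (h : ℕ) (c2 c3 c4 : Bool × ℕ)
    (G : Finset (ℤ × ℤ) → SimpleGraph (ℤ × ℤ)) (c : ℤ × ℤ) : ‖V0 b h c2 c3 c4 G c‖ ≤ 2 := by
  unfold V0
  refine (norm_add_le _ _).trans ?_
  rw [norm_mul, norm_K2, one_mul]
  have h1 := norm_PJ_le b h (fun ω => RF b (2 * h) (G ω) c (snd2 b c3 c4))
  have h2 := norm_PJ_le b h (fun ω => RF b (2 * h) (G ω) c c2)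
  linarith

lemma norm_Gf_le (b : JBox) (h : ℕ) (w s : Bool) (x1 : ℤ) (c2 c3 c4 : Bool × ℕ) :
    ‖Gf b h w s x1 c2 c3 c4‖ ≤ 4 := by
  unfold Gf
  refine (norm_sub_le _ _).trans ?_
  have h1 := norm_V0_le b h c2 c3 c4 (GP b h w s x1 c2 c3 c4 true) (mc s x1)
  have h2 := norm_V0_le b h c2 c3 c4 (GP b h w s x1 c2 c3 c4 false) (mc s x1)
  linarith

lemma norm_kap (w : Bool) : ‖Setup.kap w‖ = 1 := by
  unfold Setup.kap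
  split_ifs
  · rw [norm_neg, norm_pow, ph_norm, one_pow]
  · rw [norm_pow, ph_norm, one_pow]

/-- the data of a setup -/
noncomputable def Setup.jdata {σ A : ℝ} (S : Setup σ) (H : S.All A) :
    JData σ A 4 (Setup.kap S.w) S.b3 S.b4 where
  R := S.R
  U := S.U
  X := S.X
  Y := S.Y
  G := S.G
  p := S.p
  R_lim k := by
    have h1 : Tendsto (fun n => (S.h k n : ℝ)) atTop atTop :=
      tendsto_natCast_atTop_atTop.comp (S.mono k).tendsto_atTop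
    have h2 : (0 : ℝ) < (S.B k).H := by exact_mod_cast (S.ok k).H0
    have h3 := (h1.const_mul_atTop (by norm_num : (0:ℝ) < 2)).atTop_mul_const h2
    exact h3
  U_open k := isOpen_interior
  U_lim := H.uLim
  p_nonneg k n b c := PJ_nonneg _ _ _
  p_le k n b c := PJ_le_one _ _ _
  G_bdd k n b c := norm_Gf_le _ _ _ _ _ _ _ _
  X_hol := H.xHol
  Y_hol := H.yHol
  X_bd := H.xBd
  X_odd := H.xOdd
  X_P := H.xP
  Y_bd := H.yBd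
  Y_odd := H.yOdd
  Y_near := H.yNear

/-- **Assembly of C6.** -/
theorem c6_of {c : ℝ} (h : ∃ CA σ0 : ℝ, 0 ≤ CA ∧ 0 < σ0 ∧ ∀ σ : ℝ, 0 < σ → σ ≤ σ0 →
    ∀ S : Setup σ, S.All (CA * σ ^ c)) : C6 c := by
  obtain ⟨CA, σ0, hCA, hσ0, hS⟩ := h
  refine ⟨CA, 4, σ0, hCA, hσ0, ?_⟩
  intro σ hσ hσ1 B δ h hok hpos hlim hmono w L g t1 t2 t3 t4 hL hg a1 a2 a3 a4 b3 b4 hb3 hb4
  set S : Setup σ :=
    { B := B, δ := δ, h := h, w := w, b3 := b3, b4 := b4, ok := hok, pos := hpos, lim := hlim,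
      mono := hmono, ne := WinC_ne hb3 hb4 (by omega) } with hSdef
  have H := hS σ hσ hσ1 S
  refine ⟨Setup.kap w, norm_kap w, S.jdata H, ?_⟩
  intro b1 b2 hb1 hb2
  exact H.pAll L g t1 t2 t3 t4 hL hg a1 a2 a3 a4 hb3 hb4 b1 b2 hb1 hb2

end Pool.Agent.H61.W
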