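import Mathlib
import Pool.Agent.H61.W.JFields
import Pool.Agent.H71.W.JGeo
import Pool.Agent.H29.W.RoomLim

set_option autoImplicit false
open Finset

/-! # J4: the coins of the junction box

`E1` labels of the room, `E2` labels of the plates, `plt c` labels of the plates with the colour `true`,
`c : Fin (nP b) → Bool`. `PJ_avg` : `PJ` = average over the colours of the plates of the natural room. -/

namespace Pool.Agent.H61.W

open Pool.Agent.H75.Perc hiding WL CT hh PB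
open Pool.Agent.H33.Q1 Pool.Agent.H6.W Pool.Agent.H50.W Pool.Agent.H58.W Pool.Agent.H13.W
open Pool.Agent.H21.FM
open Pool.Agent.H21.W (nP nP_pos X_eq chn_some mem_Q dst Ht Ar)

variable {b : JBox} {δ σ : ℝ} {h : ℕ}

variable (b h) in
/-- labels of the room -/
noncomputable def E1 : Finset (ℤ × ℤ) := (b.B h).filter fun e => chn 0 b.M b.τ (ct (2 * (h : ℤ)) (tt e)) = none

variable (b h) in
/-- labels of the plates -/
noncomputable def E2 : Finset (ℤ × ℤ) := (b.B h).filter fun e => chn 0 b.M b.τ (ct (2 * (h : ℤ)) (tt e)) ≠ none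

variable (b h) in
/-- labels of the plates with the colour `true` -/
noncomputable def plt (c : Fin (nP b) → Bool) : Finset (ℤ × ℤ) := by
  classical
  exact (b.B h).filter fun e => ∃ i : Fin (nP b), chn 0 b.M b.τ (ct (2 * (h : ℤ)) (tt e)) = some (i : ℕ) ∧ c i = true

lemma E12 : E1 b h ∪ E2 b h = b.B h := by
  unfold E1 E2
  exact Finset.filter_union_filter_not_eq _ _

lemma sep12 : Sep (bk (2 * (h : ℤ)) (chn 0 b.M b.τ)) (E1 b h) (E2 b h) := by
  intro l hl l' hl' e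
  unfold E1 at hl
  unfold E2 at hl'
  rw [mem_filter] at hl hl'
  rw [bk_eq_iff] at e
  rcases e with rfl | ⟨h1, -⟩
  · exact hl'.2 hl.2
  · exact h1 hl.2

lemma inj1 : ∀ l ∈ E1 b h, ∀ l' ∈ E1 b h,
    bk (2 * (h : ℤ)) (chn 0 b.M b.τ) l = bk (2 * (h : ℤ)) (chn 0 b.M b.τ) l' → l = l' := by
  intro l hl l' _ e
  unfold E1 at hl
  rw [mem_filter] at hl
  rw [bk_eq_iff] at e
  rcases e with rfl | ⟨h1, -⟩
  · rfl
  · exact absurd hl.2 h1

/-- the index of a plate of the box -/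
lemma lt_nP (hb : b.Ok δ σ) {c : ℤ × ℤ} (hc : c ∈ b.Q) {i : ℕ} (hi : chn 0 b.M b.τ c = some i) :
    i < nP b := by
  have hM : (0 : ℤ) < b.M := by exact_mod_cast hb.M0
  rw [chn_some hb.M0] at hi
  have hX := X_eq hb
  obtain ⟨c1, c2⟩ := c
  obtain ⟨h1, h2, h3⟩ := (mem_Q hb).1 hc
  have h4 : -(b.X : ℤ) ≤ c1 := by
    split_ifs at h3 with h4
    · exact h3
    · have := (hb.st_lo (dst c2 - b.H).toNat (by unfold Ht at h1; omega)).1
      linarith
  have h5 : c1 < 0 - i * b.M := hi.1.2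
  by_contra hc
  have h6 : (nP b : ℤ) ≤ i := by exact_mod_cast not_lt.1 hc
  have h7 : (nP b : ℤ) * b.M ≤ i * b.M := mul_le_mul_of_nonneg_right h6 hM.le
  rw [hX] at h4
  linarith

lemma mem_B {e : ℤ × ℤ} (hh : 0 < h) : e ∈ b.B h ↔ (e.1 + e.2) % 2 = 1 ∧ ct (2 * (h : ℤ)) (tt e) ∈ b.Q := by
  unfold JBox.B
  exact mem_TL (by positivity)

/-- the block of a plate -/
lemma exists_plate (hb : b.Ok δ σ) (hh : 0 < h) {e : ℤ × ℤ} (he : e ∈ E2 b h) : ∃ i : Fin (nP b),
    chn 0 b.M b.τ (ct (2 * (h : ℤ)) (tt e)) = some (i : ℕ) := by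
  unfold E2 at he
  rw [mem_filter, Option.ne_none_iff_exists'] at he
  obtain ⟨h1, i, hi⟩ := he
  exact ⟨⟨i, lt_nP hb ((mem_B hh).1 h1).2 hi⟩, hi⟩

open Classical in
/-- the colours of the plates in the state `T` of the blocks -/
noncomputable def ccl (b : JBox) (T : Finset ((ℤ × ℤ) ⊕ ℕ)) : Fin (nP b) → Bool :=
  fun i => decide (Sum.inr (i : ℕ) ∈ T)

lemma up_plt (hb : b.Ok δ σ) (hh : 0 < h) (T : Finset ((ℤ × ℤ) ⊕ ℕ)) :
    Pool.Agent.H58.W.up (E2 b h) (bk (2 * (h : ℤ)) (chn 0 b.M b.τ)) T = plt b h (ccl b T) := by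
  classical
  ext e
  rw [mem_up]
  unfold plt
  rw [mem_filter]
  constructor
  · rintro ⟨h1, h2⟩
    obtain ⟨i, hi⟩ := exists_plate hb hh h1
    rw [bk_some hi] at h2
    unfold E2 at h1
    rw [mem_filter] at h1
    exact ⟨h1.1, i, hi, by unfold ccl; exact decide_eq_true h2⟩
  · rintro ⟨h1, i, hi, hc⟩
    refine ⟨?_, ?_⟩
    · unfold E2
      rw [mem_filter]
      exact ⟨h1, by rw [hi]; simp⟩
    · rw [bk_some hi]
      unfold ccl at hc
      exact of_decide_eq_true hc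

/-- the weight of a colouring -/
noncomputable def wc (b : JBox) (h : ℕ) (c : Fin (nP b) → Bool) : ℝ :=
  Pool.Agent.H29.W.wt ((E2 b h).image (bk (2 * (h : ℤ)) (chn 0 b.M b.τ))) (ccl b) c

/-- **The value in the junction world is the average over the colours of the plates.** -/
theorem PJ_avg (hb : b.Ok δ σ) (hh : 0 < h) {ι : Type*} (s : Finset ι) (v : ι → ℂ)
    (A : ι → Finset (ℤ × ℤ) → Prop) : ∑ j ∈ s, v j * (b.PJ h (A j) : ℂ) =
      ∑ c : Fin (nP b) → Bool, (wc b h c : ℂ) *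
        ∑ j ∈ s, v j * (Pr (E1 b h) (fun ω => A j (ω ∪ plt b h c)) : ℂ) := by
  have := Pool.Agent.H29.W.hval_room_group (Θ := Fin (nP b) → Bool) s v (sep12 (b := b) (h := h)) inj1 A
    (ccl b) (fun c => Pool.Agent.H29.W.hval s v fun j => Pr (E1 b h) (fun ω => A j (ω ∪ plt b h c)))
    (fun T _ => by rw [up_plt hb hh])
  rw [E12] at this
  exact this

end Pool.Agent.H61.W
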