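import Mathlib
import Pool.Agent.H61.W.JHol0

set_option autoImplicit false
open Finset

/-! # J4: reduction of `XHol`, `YHol` to fixed colours of the plates

`Xc`, `Yc` : the values for the colours `c` of the plates (the labels of the room are natural).
`xHol_of`, `yHol_of` : it is enough that the box averages of `Xc`, `Yc` converge for every colouring. -/

namespace Pool.Agent.H61.W

open Filter Topology
open Pool.Agent.H75.Perc (Pr)
open Pool.Agent.Q1.M4 (lat)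
open Pool.Agent.H44.W (WLim av)
open Pool.Agent.H6.W Pool.Agent.H58.W
open Pool.Agent.H21.W (nP)
open Pool.Agent.H73.W (ph ph_norm ph_inv_norm ph_ne)

/-! ### Bound of the limit -/

lemma norm_av_le {m : ℕ} {f : ℤ × ℤ → ℂ} {v : ℤ × ℤ} {M : ℝ} (hM : 0 ≤ M) (h : ∀ u, ‖f u‖ ≤ M) :
    ‖av m f v‖ ≤ M := by
  rcases Nat.eq_zero_or_pos m with rfl | hm
  · simp [av, hM]
  unfold av
  rw [norm_mul]
  have h1 : ‖∑ k ∈ Finset.range m, ∑ l ∈ Finset.range m, f (v + ((k : ℤ), (l : ℤ)))‖ ≤ m * (m * M) := by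
    refine (norm_sum_le _ _).trans ?_
    calc ∑ k ∈ Finset.range m, ‖∑ l ∈ Finset.range m, f (v + ((k : ℤ), (l : ℤ)))‖
        ≤ ∑ k ∈ Finset.range m, (m * M : ℝ) := by
          apply Finset.sum_le_sum
          intro k _
          refine (norm_sum_le _ _).trans ?_
          calc ∑ l ∈ Finset.range m, ‖f (v + ((k : ℤ), (l : ℤ)))‖ ≤ ∑ l ∈ Finset.range m, M :=
                Finset.sum_le_sum fun l _ => h _
            _ = m * M := by rw [Finset.sum_const, Finset.card_range, nsmul_eq_mul]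
      _ = m * (m * M) := by rw [Finset.sum_const, Finset.card_range, nsmul_eq_mul]
  have h2 : ‖(1 / ((m : ℂ) * m))‖ = 1 / ((m : ℝ) * m) := by
    rw [norm_div, norm_mul, norm_one, Complex.norm_natCast]
  rw [h2]
  have hm' : (0 : ℝ) < m := by exact_mod_cast hm
  calc 1 / ((m : ℝ) * m) * ‖∑ k ∈ Finset.range m, ∑ l ∈ Finset.range m, f (v + ((k : ℤ), (l : ℤ)))‖
      ≤ 1 / ((m : ℝ) * m) * (m * (m * M)) := by
        apply mul_le_mul_of_nonneg_left h1; positivity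
    _ = M := by field_simp

/-- lattice points near `z` -/
lemma exists_lat_near {R : ℝ} (hR : 0 < R) (z : ℂ) : ∃ v : ℤ × ℤ, dist (lat v / (R : ℂ)) z ≤ 2 / R := by
  refine ⟨(⌊z.re * R⌋, ⌊z.im * R⌋), ?_⟩
  rw [Complex.dist_eq]
  refine (Complex.norm_le_abs_re_add_abs_im _).trans ?_
  rw [Complex.sub_re, Complex.sub_im, lat_div_re, lat_div_im]
  have key : ∀ x : ℝ, |(⌊x * R⌋ : ℝ) / R - x| ≤ 1 / R := by
    intro x
    have h1 := Int.floor_le (x * R)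
    have h2 := Int.lt_floor_add_one (x * R)
    rw [div_sub' hR.ne', abs_div, abs_of_pos hR, div_le_div_iff_of_pos_right hR, abs_le]
    constructor <;> linarith
  have h1 := key z.re
  have h2 := key z.im
  have h3 : 2 / R = 1 / R + 1 / R := by ring
  simp only
  linarith

/-- **The limit is bounded by the bound of the functions.** -/
theorem WLim.norm_le {R : ℕ → ℝ} {F : Filter ℕ} [F.NeBot] (hR : Tendsto R F atTop) {Ω : Set ℂ}
    (hΩ : IsOpen Ω) {f : ℕ → ℤ × ℤ → ℂ} {g : ℂ → ℂ} (hg : ContinuousOn g Ω) (h : WLim R F Ω f g) {M : ℝ}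
    (hM : 0 ≤ M) (hf : ∀ n v, ‖f n v‖ ≤ M) : ∀ z ∈ Ω, ‖g z‖ ≤ M := by
  intro z hz
  apply le_of_forall_pos_le_add
  intro ε hε
  obtain ⟨r, hr, hrΩ⟩ := Metric.isOpen_iff.1 hΩ z hz
  have hgz := (hg.continuousAt (hΩ.mem_nhds hz))
  obtain ⟨s, hs, hs'⟩ := Metric.continuousAt_iff.1 hgz (ε / 2) (by linarith)
  set q : ℝ := min (r / 2) (s / 2) with hq
  have hq0 : 0 < q := by positivity
  have hK : Metric.closedBall z q ⊆ Ω := by
    refine (Metric.closedBall_subset_ball ?_).trans hrΩ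
    have := min_le_left (r / 2) (s / 2)
    linarith
  obtain ⟨δ0, hδ0, h1⟩ := h _ hK (isCompact_closedBall z q) (ε / 2) (by linarith)
  have h2 := h1 (δ0 / 2) (by linarith) (by linarith)
  have h3 : ∀ᶠ j in F, 2 / R j ≤ q ∧ 0 < R j := by
    filter_upwards [hR.eventually_gt_atTop 0, hR.eventually_ge_atTop (2 / q)] with n e1 e2
    refine ⟨?_, e1⟩
    rw [div_le_iff₀ hq0] at e2
    rw [div_le_iff₀ e1]
    linarith
  obtain ⟨j, hj, hj2, hj3⟩ := (h2.and h3).exists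
  obtain ⟨v, hv⟩ := exists_lat_near hj3 z
  have hvK : lat v / (R j : ℂ) ∈ Metric.closedBall z q := hv.trans hj2
  have h4 := hj v hvK
  have h5 : dist (lat v / (R j : ℂ)) z < s := by
    have := Metric.mem_closedBall.1 hvK
    have := min_le_right (r / 2) (s / 2)
    linarith
  have h6 := hs' h5
  rw [Complex.dist_eq] at h6
  have h7 : ‖av ⌊δ0 / 2 * R j⌋₊ (f j) v‖ ≤ M := norm_av_le hM (hf j)
  have e : g z = (av ⌊δ0 / 2 * R j⌋₊ (f j) v - (av ⌊δ0 / 2 * R j⌋₊ (f j) v - g (lat v / (R j : ℂ)))) -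
      (g (lat v / (R j : ℂ)) - g z) := by ring
  rw [e]
  have h8 := norm_sub_le (av ⌊δ0 / 2 * R j⌋₊ (f j) v - (av ⌊δ0 / 2 * R j⌋₊ (f j) v - g (lat v / (R j : ℂ))))
    (g (lat v / (R j : ℂ)) - g z)
  have h9 := norm_sub_le (av ⌊δ0 / 2 * R j⌋₊ (f j) v) (av ⌊δ0 / 2 * R j⌋₊ (f j) v - g (lat v / (R j : ℂ)))
  linarith

/-! ### Fixed colours -/

open Classical in
/-- `V0` for the colours `c` of the plates -/
noncomputable def V0c (b : JBox) (h : ℕ) (c : Fin (nP b) → Bool) (c2 c3 c4 : Bool × ℕ)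
    (G : Finset (ℤ × ℤ) → SimpleGraph (ℤ × ℤ)) (z : ℤ × ℤ) : ℂ :=
  (Pr (E1 b h) (fun ω => RF b (2 * h) (G (ω ∪ plt b h c)) z (snd2 b c3 c4)) : ℂ) +
    K2 b c2 c3 c4 * (Pr (E1 b h) (fun ω => RF b (2 * h) (G (ω ∪ plt b h c)) z c2) : ℂ)

open Classical in
/-- `V1` for the colours `c` of the plates -/
noncomputable def V1c (b : JBox) (h : ℕ) (c : Fin (nP b) → Bool) (s : Bool) (x1 : ℤ) (c3 c4 : Bool × ℕ)
    (G : Finset (ℤ × ℤ) → SimpleGraph (ℤ × ℤ)) (z : ℤ × ℤ) : ℂ :=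
  (Pr (E1 b h) (fun ω => RF b (2 * h) (G (ω ∪ plt b h c)) z (fst2 b c3 c4)) : ℂ) +
    ph * (Pr (E1 b h) (fun ω => (G (ω ∪ plt b h c)).Reachable z (mc s x1) ∧
      Even (cntY b h s x1 c3 c4 (G (ω ∪ plt b h c)))) : ℂ) +
    ph⁻¹ * (Pr (E1 b h) (fun ω => (G (ω ∪ plt b h c)).Reachable z (mc s x1) ∧
      ¬ Even (cntY b h s x1 c3 c4 (G (ω ∪ plt b h c)))) : ℂ)

variable {b : JBox} {δ σ : ℝ} {h : ℕ}

theorem V0_avg (hb : b.Ok δ σ) (hh : 0 < h) (c2 c3 c4 : Bool × ℕ)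
    (G : Finset (ℤ × ℤ) → SimpleGraph (ℤ × ℤ)) (z : ℤ × ℤ) : V0 b h c2 c3 c4 G z =
      ∑ c : Fin (nP b) → Bool, (wc b h c : ℂ) * V0c b h c c2 c3 c4 G z := by
  have := PJ_avg hb hh (Finset.univ : Finset (Fin 2)) ![1, K2 b c2 c3 c4]
    (fun j ω => (![fun ω => RF b (2 * h) (G ω) z (snd2 b c3 c4), fun ω => RF b (2 * h) (G ω) z c2] :
      Fin 2 → Finset (ℤ × ℤ) → Prop) j ω)
  simp only [Fin.sum_univ_two, Matrix.cons_val_zero, Matrix.cons_val_one, one_mul] at this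
  unfold V0 V0c
  exact this

theorem V1_avg (hb : b.Ok δ σ) (hh : 0 < h) (s : Bool) (x1 : ℤ) (c3 c4 : Bool × ℕ)
    (G : Finset (ℤ × ℤ) → SimpleGraph (ℤ × ℤ)) (z : ℤ × ℤ) : V1 b h s x1 c3 c4 G z =
      ∑ c : Fin (nP b) → Bool, (wc b h c : ℂ) * V1c b h c s x1 c3 c4 G z := by
  have := PJ_avg hb hh (Finset.univ : Finset (Fin 3)) ![1, ph, ph⁻¹]
    (fun j ω => (![fun ω => RF b (2 * h) (G ω) z (fst2 b c3 c4),
      fun ω => (G ω).Reachable z (mc s x1) ∧ Even (cntY b h s x1 c3 c4 (G ω)),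
      fun ω => (G ω).Reachable z (mc s x1) ∧ ¬ Even (cntY b h s x1 c3 c4 (G ω))] :
      Fin 3 → Finset (ℤ × ℤ) → Prop) j ω)
  simp only [Fin.sum_univ_three, Matrix.cons_val_zero, Matrix.cons_val_one, Matrix.cons_val_two,
    Matrix.head_cons, Matrix.tail_cons, one_mul] at this
  unfold V1 V1c
  exact this

lemma norm_Pr_le (E : Finset (ℤ × ℤ)) (A : Finset (ℤ × ℤ) → Prop) : ‖(Pr E A : ℂ)‖ ≤ 1 := by
  rw [Complex.norm_real, Real.norm_of_nonneg (Pool.Agent.H75.Perc.Pr_nonneg _ _)]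
  exact Pool.Agent.H75.Perc.Pr_le_one _ _

lemma norm_V0c_le (c : Fin (nP b) → Bool) (c2 c3 c4 : Bool × ℕ)
    (G : Finset (ℤ × ℤ) → SimpleGraph (ℤ × ℤ)) (z : ℤ × ℤ) : ‖V0c b h c c2 c3 c4 G z‖ ≤ 2 := by
  unfold V0c
  refine (norm_add_le _ _).trans ?_
  rw [norm_mul, norm_K2, one_mul]
  have h1 := norm_Pr_le (E1 b h) (fun ω => RF b (2 * h) (G (ω ∪ plt b h c)) z (snd2 b c3 c4))
  have h2 := norm_Pr_le (E1 b h) (fun ω => RF b (2 * h) (G (ω ∪ plt b h c)) z c2)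
  linarith

lemma norm_V1c_le (c : Fin (nP b) → Bool) (s : Bool) (x1 : ℤ) (c3 c4 : Bool × ℕ)
    (G : Finset (ℤ × ℤ) → SimpleGraph (ℤ × ℤ)) (z : ℤ × ℤ) : ‖V1c b h c s x1 c3 c4 G z‖ ≤ 3 := by
  unfold V1c
  refine (norm_add₃_le).trans ?_
  rw [norm_mul, norm_mul, ph_norm, ph_inv_norm, one_mul, one_mul]
  have h1 := norm_Pr_le (E1 b h) (fun ω => RF b (2 * h) (G (ω ∪ plt b h c)) z (fst2 b c3 c4))
  have h2 := norm_Pr_le (E1 b h) (fun ω => (G (ω ∪ plt b h c)).Reachable z (mc s x1) ∧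
      Even (cntY b h s x1 c3 c4 (G (ω ∪ plt b h c))))
  have h3 := norm_Pr_le (E1 b h) (fun ω => (G (ω ∪ plt b h c)).Reachable z (mc s x1) ∧
      ¬ Even (cntY b h s x1 c3 c4 (G (ω ∪ plt b h c))))
  linarith

open Classical in
/-- `V1` is at most two (the last two events are disjoint) -/
lemma norm_V1_le (b : JBox) (h : ℕ) (s : Bool) (x1 : ℤ) (c3 c4 : Bool × ℕ)
    (G : Finset (ℤ × ℤ) → SimpleGraph (ℤ × ℤ)) (z : ℤ × ℤ) : ‖V1 b h s x1 c3 c4 G z‖ ≤ 2 := by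
  unfold V1
  refine (norm_add₃_le).trans ?_
  rw [norm_mul, norm_mul, ph_norm, ph_inv_norm, one_mul, one_mul]
  have h1 := norm_PJ_le b h (fun ω => RF b (2 * h) (G ω) z (fst2 b c3 c4))
  set A : Finset (ℤ × ℤ) → Prop := fun ω => (G ω).Reachable z (mc s x1)
  set B : Finset (ℤ × ℤ) → Prop := fun ω => Even (cntY b h s x1 c3 c4 (G ω))
  have h2 : b.PJ h (fun ω => A ω ∧ B ω) + b.PJ h (fun ω => A ω ∧ ¬ B ω) = b.PJ h A :=
    PB_and_add _ _ A B
  have h3 : b.PJ h A ≤ 1 := PJ_le_one _ _ _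
  have h4 : ‖(b.PJ h (fun ω => A ω ∧ B ω) : ℂ)‖ = b.PJ h (fun ω => A ω ∧ B ω) := by
    rw [Complex.norm_real, Real.norm_of_nonneg (PJ_nonneg _ _ _)]
  have h5 : ‖(b.PJ h (fun ω => A ω ∧ ¬ B ω) : ℂ)‖ = b.PJ h (fun ω => A ω ∧ ¬ B ω) := by
    rw [Complex.norm_real, Real.norm_of_nonneg (PJ_nonneg _ _ _)]
  calc _ ≤ 1 + ‖(b.PJ h (fun ω => A ω ∧ B ω) : ℂ)‖ + ‖(b.PJ h (fun ω => A ω ∧ ¬ B ω) : ℂ)‖ := by
        gcongr
    _ ≤ 2 := by rw [h4, h5]; linarith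

lemma wc_nonneg (c : Fin (nP b) → Bool) : 0 ≤ wc b h c := Pool.Agent.H29.W.wt_nonneg _ _ _
lemma wc_le_one (c : Fin (nP b) → Bool) : wc b h c ≤ 1 := Pool.Agent.H29.W.wt_le_one _ _ _

namespace Setup

variable {σ : ℝ} (S : Setup σ)

lemma R_lim (k : ℕ) : Tendsto (S.R k) atTop atTop := by
  have h1 : Tendsto (fun n => (S.h k n : ℝ)) atTop atTop :=
    tendsto_natCast_atTop_atTop.comp (S.mono k).tendsto_atTop
  have h2 : (0 : ℝ) < (S.B k).H := by exact_mod_cast (S.ok k).H0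
  exact (h1.const_mul_atTop (by norm_num : (0:ℝ) < 2)).atTop_mul_const h2

/-- `X` for fixed colours and a fixed state of `P` -/
noncomputable def Xc (k n : ℕ) (o : Bool) (cl : Fin (nP (S.B k)) → Bool) (c : Bool × ℝ) (v : ℤ × ℤ) : ℂ :=
  V0c (S.B k) (S.h k n) cl (cor (S.B k) c) (cor (S.B k) S.b3) (cor (S.B k) S.b4)
    (GX (S.B k) (S.h k n) S.w (cor (S.B k) c) (cor (S.B k) S.b3) (cor (S.B k) S.b4) v o) (zc v)

/-- `Y` for fixed colours and a fixed state of `P` -/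
noncomputable def Yc (k n : ℕ) (o : Bool) (cl : Fin (nP (S.B k)) → Bool) (b : Bool × ℝ) (v : ℤ × ℤ) : ℂ :=
  V1c (S.B k) (S.h k n) cl b.1 (gp (S.B k) (2 * S.h k n) b.2) (cor (S.B k) S.b3) (cor (S.B k) S.b4)
    (GY (S.B k) (S.h k n) S.w b.1 (gp (S.B k) (2 * S.h k n) b.2) (cor (S.B k) S.b3) (cor (S.B k) S.b4) v o)
    (zc v)

/-- **(S) over, for fixed colours of the plates** -/
def XHolC : Prop := ∀ c : Bool × ℝ, c ≠ S.b3 → c ≠ S.b4 → ∀ᶠ k in atTop, ∀ 𝒰 : Ultrafilter ℕ,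
  (𝒰 : Filter ℕ) ≤ atTop → ∀ (o : Bool) (cl : Fin (nP (S.B k)) → Bool), ∃ g : ℂ → ℂ,
    DifferentiableOn ℂ g (S.U k) ∧ WLim (S.R k) 𝒰 (S.U k) (fun n => S.Xc k n o cl c) g

/-- **(S) under, for fixed colours of the plates** -/
def YHolC : Prop := ∀ b : Bool × ℝ, b.2 ∈ Set.Ioo (-σ) 0 → ∀ᶠ k in atTop, ∀ 𝒰 : Ultrafilter ℕ,
  (𝒰 : Filter ℕ) ≤ atTop → ∀ (o : Bool) (cl : Fin (nP (S.B k)) → Bool), ∃ g : ℂ → ℂ,
    DifferentiableOn ℂ g (S.U k) ∧
      WLim (S.R k) 𝒰 (S.U k) (fun n v => (starRingEnd ℂ) (S.Yc k n o cl b v)) g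

/-- two states of `P`, all colourings: the common form -/
lemma lim_of {k : ℕ} {𝒰 : Ultrafilter ℕ} (hU : (𝒰 : Filter ℕ) ≤ atTop) {T : Type} [Fintype T]
    {μ : ℕ → T → ℝ} (h0 : ∀ n θ, 0 ≤ μ n θ) (h1 : ∀ n θ, μ n θ ≤ 1) {H : Bool → T → ℕ → ℤ × ℤ → ℂ} {M : ℝ}
    (hM : ∀ o θ n v, ‖H o θ n v‖ ≤ M) {F : ℕ → ℤ × ℤ → ℂ} (hF4 : ∀ n v, ‖F n v‖ ≤ 4)
    (hF : ∀ᶠ n in atTop, ∀ v, F n v = (∑ θ, (μ n θ : ℂ) * H true θ n v) - ∑ θ, (μ n θ : ℂ) * H false θ n v)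
    (hS : ∀ o θ, ∃ g : ℂ → ℂ, DifferentiableOn ℂ g (S.U k) ∧ WLim (S.R k) 𝒰 (S.U k) (H o θ) g) :
    ∃ g : ℂ → ℂ, DifferentiableOn ℂ g (S.U k) ∧ (∀ z ∈ S.U k, ‖g z‖ ≤ 4) ∧
      WLim (S.R k) 𝒰 (S.U k) F g := by
  have hR : Tendsto (S.R k) 𝒰 atTop := (S.R_lim k).mono_left hU
  have hO : IsOpen (S.U k) := isOpen_interior
  have key : ∀ o : Bool, ∃ g : ℂ → ℂ, DifferentiableOn ℂ g (S.U k) ∧
      WLim (S.R k) 𝒰 (S.U k) (fun n v => ∑ θ, (μ n θ : ℂ) * H o θ n v) g := fun o =>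
    Pool.Agent.H29.W.room_lim hR hO h0 h1 (hM o) (fun K _ _ => Filter.Eventually.of_forall fun n v _ => rfl)
      (hS o)
  obtain ⟨g1, hg1, hW1⟩ := key true
  obtain ⟨g0, hg0, hW0⟩ := key false
  have hW := WLim.sum (Finset.univ : Finset Bool) (fun o => if o then (1 : ℂ) else -1)
    (f := fun o n v => ∑ θ, (μ n θ : ℂ) * H o θ n v) (g := fun o => if o then g1 else g0)
    (R := S.R k) (F := 𝒰) (Ω := S.U k) (fun o _ => by cases o <;> simp [hW1, hW0])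
  have hd : DifferentiableOn ℂ (fun z => ∑ o : Bool, (if o then (1 : ℂ) else -1) *
      (if o then g1 else g0) z) (S.U k) := by
    simp only [Fintype.sum_bool, if_true, Bool.false_eq_true, if_false]
    exact (hg1.const_mul _).add (hg0.const_mul _)
  have hW' : WLim (S.R k) 𝒰 (S.U k) F (fun z => ∑ o : Bool, (if o then (1 : ℂ) else -1) *
      (if o then g1 else g0) z) := by
    refine WLim.congr_small hR hO hW ?_
    intro K _ _ ε hε
    filter_upwards [hU hF] with n hn v _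
    rw [hn v]
    simp only [Fintype.sum_bool, if_true, Bool.false_eq_true, if_false]
    rw [show ∀ a b : ℂ, 1 * a + -1 * b - (a - b) = 0 by intro a b; ring, norm_zero]
    exact hε.le
  refine ⟨_, hd, WLim.norm_le hR hO hd.continuousOn hW' (by norm_num) hF4, hW'⟩

lemma ev_h0 (k : ℕ) : ∀ᶠ n in atTop, 0 < S.h k n :=
  (S.mono k).tendsto_atTop.eventually_gt_atTop 0

/-- **`XHol` from fixed colours.** -/
theorem xHol_of (H : S.XHolC) : S.XHol := by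
  intro c hc3 hc4
  filter_upwards [H c hc3 hc4] with k hk 𝒰 hU
  refine S.lim_of hU (μ := fun n => wc (S.B k) (S.h k n)) (fun n θ => wc_nonneg θ)
    (fun n θ => wc_le_one θ) (H := fun o cl n v => S.Xc k n o cl c v) (M := 2)
    (fun o θ n v => norm_V0c_le _ _ _ _ _ _) ?_ ?_ (fun o θ => hk 𝒰 hU o θ)
  · intro n v
    unfold Setup.X Xf
    refine (norm_sub_le _ _).trans ?_
    have h1 := norm_V0_le (S.B k) (S.h k n) (cor (S.B k) c) (cor (S.B k) S.b3) (cor (S.B k) S.b4)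
      (GX (S.B k) (S.h k n) S.w (cor (S.B k) c) (cor (S.B k) S.b3) (cor (S.B k) S.b4) v true) (zc v)
    have h2 := norm_V0_le (S.B k) (S.h k n) (cor (S.B k) c) (cor (S.B k) S.b3) (cor (S.B k) S.b4)
      (GX (S.B k) (S.h k n) S.w (cor (S.B k) c) (cor (S.B k) S.b3) (cor (S.B k) S.b4) v false) (zc v)
    linarith
  · filter_upwards [S.ev_h0 k] with n hn v
    unfold Setup.X Xf Xc
    rw [V0_avg (S.ok k) hn, V0_avg (S.ok k) hn]

/-- **`YHol` from fixed colours.** -/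
theorem yHol_of (H : S.YHolC) : S.YHol := by
  intro c hc
  filter_upwards [H c hc] with k hk 𝒰 hU
  have key : ∃ g : ℂ → ℂ, DifferentiableOn ℂ g (S.U k) ∧ (∀ z ∈ S.U k, ‖g z‖ ≤ 4) ∧
      WLim (S.R k) 𝒰 (S.U k) (fun n v => (starRingEnd ℂ) (S.Y k n c v)) g := by
    refine S.lim_of hU (μ := fun n => wc (S.B k) (S.h k n)) (fun n θ => wc_nonneg θ)
      (fun n θ => wc_le_one θ) (H := fun o cl n v => (starRingEnd ℂ) (S.Yc k n o cl c v)) (M := 3)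
      (fun o θ n v => by rw [Complex.norm_conj]; exact norm_V1c_le _ _ _ _ _ _ _) ?_ ?_
      (fun o θ => hk 𝒰 hU o θ)
    · intro n v
      rw [Complex.norm_conj]
      unfold Setup.Y Yf
      refine (norm_sub_le _ _).trans ?_
      have h1 := norm_V1_le (S.B k) (S.h k n) c.1 (gp (S.B k) (2 * S.h k n) c.2) (cor (S.B k) S.b3)
        (cor (S.B k) S.b4) (GY (S.B k) (S.h k n) S.w c.1 (gp (S.B k) (2 * S.h k n) c.2) (cor (S.B k) S.b3)
          (cor (S.B k) S.b4) v true) (zc v)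
      have h2 := norm_V1_le (S.B k) (S.h k n) c.1 (gp (S.B k) (2 * S.h k n) c.2) (cor (S.B k) S.b3)
        (cor (S.B k) S.b4) (GY (S.B k) (S.h k n) S.w c.1 (gp (S.B k) (2 * S.h k n) c.2) (cor (S.B k) S.b3)
          (cor (S.B k) S.b4) v false) (zc v)
      linarith
    · filter_upwards [S.ev_h0 k] with n hn v
      unfold Setup.Y Yf Yc
      rw [V1_avg (S.ok k) hn, V1_avg (S.ok k) hn]
      simp only [map_sub, map_sum, map_mul, Complex.conj_ofReal]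
  obtain ⟨g, hg, hg4, hW⟩ := key
  refine ⟨fun z => (starRingEnd ℂ) (g z), ?_, ?_, ?_⟩
  · have : (fun z => (starRingEnd ℂ) ((starRingEnd ℂ) (g z))) = g := by
      funext z; exact Complex.conj_conj _
    simpa only [Complex.conj_conj] using hg
  · intro z hz
    rw [Complex.norm_conj]
    exact hg4 z hz
  · have := WLim.conj hW
    simpa only [Complex.conj_conj] using this

end Setup

end Pool.Agent.H61.W
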