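import Mathlib
import Pool.Agent.H61.W.WSum

set_option autoImplicit false

/-! # `WLim` under a change of the unit of length and a translation -/

namespace Pool.Agent.H61.W

open Filter Topology Set Complex
open Pool.Agent.Q1.M4 (lat)
open Pool.Agent.H44.W (WLim av)

lemma av_shift (m : ℕ) (f : ℤ × ℤ → ℂ) (t v : ℤ × ℤ) :
    av m (fun u => f (u + t)) v = av m f (v + t) := by
  unfold av
  congr 1
  apply Finset.sum_congr rfl
  intro k _
  apply Finset.sum_congr rfl
  intro l _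
  rw [add_right_comm]

lemma lat_add (u v : ℤ × ℤ) : lat (u + v) = lat u + lat v := by
  apply Complex.ext
  · have h := lat_div_re (u + v) 1
    have h1 := lat_div_re u 1
    have h2 := lat_div_re v 1
    simp only [Complex.ofReal_one, div_one, Prod.fst_add] at h h1 h2
    rw [Complex.add_re, h, h1, h2]
    push_cast; ring
  · have h := lat_div_im (u + v) 1
    have h1 := lat_div_im u 1
    have h2 := lat_div_im v 1
    simp only [Complex.ofReal_one, div_one, Prod.snd_add] at h h1 h2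
    rw [Complex.add_im, h, h1, h2]
    push_cast; ring

/-- **Change of the unit and translation.** -/
theorem WLim.affine {R : ℕ → ℝ} {F : Filter ℕ} {Ω : Set ℂ} {f : ℕ → ℤ × ℤ → ℂ} {g : ℂ → ℂ}
    (h : WLim R F Ω f g) {a : ℝ} (ha : 0 < a) (hR : ∀ᶠ n in F, 0 < R n) (t : ℕ → ℤ × ℤ) (τ : ℂ)
    (ht : ∀ n, lat (t n) = τ * R n) :
    WLim (fun n => a * R n) F {z | a * z + τ ∈ Ω} (fun n v => f n (v + t n)) (fun z => g (a * z + τ)) := by
  intro K hK hKc ε hε
  have hc : Continuous fun z : ℂ => (a : ℂ) * z + τ := by fun_prop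
  obtain ⟨δ0, hδ0, h1⟩ := h ((fun z : ℂ => (a : ℂ) * z + τ) '' K) (by
    rintro _ ⟨z, hz, rfl⟩; exact hK hz) (hKc.image hc) ε hε
  refine ⟨δ0 / a, by positivity, fun δ hδ hδ' => ?_⟩
  have h2 := h1 (δ * a) (by positivity) (by rwa [lt_div_iff₀ ha] at hδ')
  filter_upwards [h2, hR] with n hn hn0 v hv
  have ha' : (a : ℂ) ≠ 0 := by exact_mod_cast ha.ne'
  have hn' : (R n : ℂ) ≠ 0 := by exact_mod_cast hn0.ne'
  have e : lat (v + t n) / (R n : ℂ) = a * (lat v / ((a * R n : ℝ) : ℂ)) + τ := by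
    rw [lat_add, ht]
    push_cast
    field_simp
  have h3 := hn (v + t n) (by rw [e]; exact mem_image_of_mem _ hv)
  rw [e] at h3
  rw [av_shift, show δ * (a * R n) = δ * a * R n by ring]
  exact h3

/-- the interior of an affine preimage -/
lemma interior_affine {a : ℝ} (ha : 0 < a) (τ : ℂ) (S : Set ℂ) :
    interior {z : ℂ | a * z + τ ∈ S} = {z | a * z + τ ∈ interior S} := by
  have ha' : (a : ℂ) ≠ 0 := by exact_mod_cast ha.ne'
  let e : ℂ ≃ₜ ℂ := (Homeomorph.mulLeft₀ (a : ℂ) ha').trans (Homeomorph.addRight τ)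
  have he : ∀ z, e z = a * z + τ := fun z => rfl
  have h1 : {z : ℂ | a * z + τ ∈ S} = e ⁻¹' S := rfl
  rw [h1, ← e.preimage_interior]
  rfl

lemma differentiableOn_affine {a : ℝ} {τ : ℂ} {Ω : Set ℂ} {g : ℂ → ℂ} (hg : DifferentiableOn ℂ g Ω) :
    DifferentiableOn ℂ (fun z => g (a * z + τ)) {z | a * z + τ ∈ Ω} := by
  have h : DifferentiableOn ℂ (fun z : ℂ => (a : ℂ) * z + τ) {z | a * z + τ ∈ Ω} :=
    ((differentiable_id.const_mul (a : ℂ)).add_const τ).differentiableOn
  exact hg.comp h fun z hz => hz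

end Pool.Agent.H61.W
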