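import Mathlib
import Pool.Agent.H61.W.JHol1
import Pool.Agent.H61.W.WAff
import Pool.Agent.H21.W.JIn

set_option autoImplicit false
open Finset

/-! # J4: names of the colour changes on the left arc of the room of the junction box

Position `k`, `0 ≤ k ≤ HJ b` : between the rows `k - 1` and `k` of `cdJ`. `colE C Y` : colour of the row `Y`, of the
floor for `Y < 0`, of the ceiling for `H ≤ Y`. `gapU b i = Ht + τ + i` : upper corner of the gap between the plates
`i` and `i + 1` (the foot for `i = nP - 1`), `gapL b i = Ht - τ - i` : lower corner. `kn b q` : the corner `q` of the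
ceiling or the floor. `colE_change` : where the colour changes. -/

namespace Pool.Agent.H61.W

open Pool.Agent.H6.W Pool.Agent.H21.W
open Pool.Agent.H54.W (CD)

variable {b : JBox} {δ σ : ℝ}

/-- colour of the row `Y` (floor below, ceiling above) -/
def colE (C : CD) (Y : ℤ) : Bool := if Y < 0 then C.CB else if C.H ≤ Y then C.CT else C.CL Y

variable (b) in
/-- colour at distance `d` on one side -/
def cD (cc v : ℕ → Bool) (d : ℤ) : Bool := if d < Ht b then clD b cc v d else v b.K

variable (b) in
/-- colours of the plates and of the wall at the foot -/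
def cf (cc v : ℕ → Bool) (i : ℕ) : Bool := if i < nP b then cc i else v 0

variable (b) in
def gapU (i : ℕ) : ℤ := Ht b + b.τ + i

variable (b) in
def gapL (i : ℕ) : ℤ := Ht b - b.τ - i

variable (b) in
/-- position of the corner `q` -/
def kn (q : Bool × ℕ) : ℤ := if q.1 then Ht b + b.H + q.2 + 1 else Ht b - b.H - q.2 - 1

lemma cD_change (hb : b.Ok δ σ) (hd : δ ≤ 1) (cc v : ℕ → Bool) {y : ℤ} (h1 : 1 ≤ y) (h2 : y ≤ Ht b) :
    cD b cc v (y - 1) ≠ cD b cc v y ↔ (∃ i < nP b, y = b.τ + i ∧ cf b cc v i ≠ cf b cc v (i + 1)) ∨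
      (∃ i < b.K, y = b.H + i + 1 ∧ v i ≠ v (i + 1)) := by
  have ht := thick hb hd
  have hP := nP_pos hb
  have hτ : (0 : ℤ) < b.τ := by exact_mod_cast hb.τ0
  unfold cD
  rcases lt_or_eq_of_le h2 with h3 | h3
  · rw [if_pos (by omega), if_pos h3]
    have hrc := row_cases hb hd (d := y - 1) (by omega) (by omega)
    rw [sub_add_cancel] at hrc
    rcases hrc with ⟨k1, -, k3⟩ | ⟨k, k1, k2, k3, -, -, k6, k7⟩ | ⟨k1, -, -, -, k5, k6⟩ |
      ⟨i, k1, k2, -, -, k5, k6⟩
    · rw [k3 cc v]
      simp only [ne_eq, not_true_eq_false, false_iff, not_or, not_exists, not_and, not_not]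
      refine ⟨fun i hi hy => ?_, fun i hi hy => by omega⟩
      -- a corner of a gap: the colours agree
      have e1 : clD b cc v (y - 1) = cc i := by
        have : y - 1 < b.H := by omega
        rw [clD_slit this (by omega)]
        congr 1; omega
      have e2 : clD b cc v y = cf b cc v (i + 1) := by
        unfold cf
        split_ifs with h
        · rw [clD_slit k1 (by omega)]
          congr 1; omega
        · rw [clD_wall k1 (by omega)]
      rw [← e2, k3 cc v, e1]
      unfold cf
      rw [if_pos hi]
    · rw [k6 cc v, k7 cc v]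
      have ec : cf b cc v k = cc k := by unfold cf; rw [if_pos k1]
      have ec' : cf b cc v (k + 1) = if k + 1 < nP b then cc (k + 1) else v 0 := rfl
      constructor
      · intro h
        left
        refine ⟨k, k1, k2, ?_⟩
        rw [ec, ec']; exact h
      · rintro (⟨i, hi, hy, h⟩ | ⟨i, hi, hy, h⟩)
        · have : i = k := by omega
          subst this
          rw [ec, ec'] at h; exact h
        · omega
    · rw [k5 cc v, k6 cc v]
      simp only [ne_eq, not_true_eq_false, false_iff, not_or, not_exists, not_and, not_not]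
      exact ⟨fun i hi hy => by omega, fun i hi hy => by omega⟩
    · rw [k5 cc v, k6 cc v]
      constructor
      · intro h
        right
        exact ⟨i, by omega, by omega, h⟩
      · rintro (⟨j, hj, hy, h⟩ | ⟨j, hj, hy, h⟩)
        · omega
        · have : j = i := by omega
          subst this; exact h
  · have hHt : Ht b = b.H + b.K := rfl
    rw [if_pos (by omega), if_neg (by omega)]
    rcases Nat.eq_zero_or_pos b.K with hK | hK
    · -- no steps
      have hy : y = b.H := by rw [hK] at hHt; simpa using h3.trans hHt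
      have e1 : clD b cc v (y - 1) = v 0 := by
        rw [clD_wall (by omega) (by omega)]
      rw [e1, hK]
      simp only [ne_eq, not_true_eq_false, false_iff, not_or, not_exists, not_and, not_not]
      exact ⟨fun i hi hy' => by omega, fun i hi => by omega⟩
    · have e1 : clD b cc v (y - 1) = v (b.K - 1) := by
        rw [clD_step (by omega)]
        congr 1; omega
      rw [e1]
      have e2 : b.K = b.K - 1 + 1 := by omega
      constructor
      · intro h
        right
        refine ⟨b.K - 1, by omega, by omega, ?_⟩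
        rw [← e2]; exact h
      · rintro (⟨j, hj, hy, h⟩ | ⟨j, hj, hy, h⟩)
        · omega
        · have : j = b.K - 1 := by omega
          subst this
          rw [← e2] at h; exact h

variable {c : Bool → ℕ → Bool} {u l : ℕ → Bool}

/-- colour of the row with true index `y` -/
lemma colE_pos (hb : b.Ok δ σ) (hd : δ ≤ 1) (hc : c true 0 = c false 0) {y : ℤ} (h : 0 ≤ y) :
    colE (cdJ b c u l hb hd hc) (Ht b + y) = cD b (c true) u y := by
  have hHt := Ht_pos hb
  unfold colE cD cdJ
  simp only
  rw [if_neg (by omega)]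
  unfold HJ
  by_cases h1 : y < Ht b
  · rw [if_neg (by omega), if_pos h1]
    unfold CLJ clJ
    rw [show Ht b + y - Ht b = y by ring, if_pos h, decide_eq_true h, dst_pos h]
  · rw [if_pos (by omega), if_neg h1]

lemma colE_neg (hb : b.Ok δ σ) (hd : δ ≤ 1) (hc : c true 0 = c false 0) {y : ℤ} (h : 0 ≤ y) :
    colE (cdJ b c u l hb hd hc) (Ht b - 1 - y) = cD b (c false) l y := by
  have hHt := Ht_pos hb
  unfold colE cD cdJ
  simp only
  unfold HJ
  by_cases h1 : y < Ht b
  · rw [if_neg (by omega), if_neg (by omega), if_pos h1]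
    unfold CLJ clJ
    rw [show Ht b - 1 - y - Ht b = -1 - y by ring, if_neg (by omega), decide_eq_false (by omega), dst_neg,
      dst_pos h]
  · rw [if_pos (by omega), if_neg h1]

/-- **The places where the colour changes.** -/
theorem colE_change (hb : b.Ok δ σ) (hd : δ ≤ 1) (hc : c true 0 = c false 0) {k : ℤ} (h0 : 0 ≤ k)
    (h1 : k ≤ HJ b) : colE (cdJ b c u l hb hd hc) (k - 1) ≠ colE (cdJ b c u l hb hd hc) k ↔
      (∃ i < nP b, k = gapU b i ∧ cf b (c true) u i ≠ cf b (c true) u (i + 1)) ∨
      (∃ i < nP b, k = gapL b i ∧ cf b (c false) l i ≠ cf b (c false) l (i + 1)) ∨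
      (∃ i < b.K, k = kn b (true, i) ∧ u i ≠ u (i + 1)) ∨
      (∃ i < b.K, k = kn b (false, i) ∧ l i ≠ l (i + 1)) := by
  have hHt := Ht_pos hb
  have hτ : (0 : ℤ) < b.τ := by exact_mod_cast hb.τ0
  have hH : (0 : ℤ) < b.H := by exact_mod_cast hb.H0
  unfold HJ at h1
  unfold gapU gapL kn
  simp only [if_true, Bool.false_eq_true, if_false]
  rcases lt_trichotomy k (Ht b) with h2 | h2 | h2
  · have e1 := colE_neg (u := u) (l := l) hb hd hc (y := Ht b - k) (by omega)
    have e2 := colE_neg (u := u) (l := l) hb hd hc (y := Ht b - k - 1) (by omega)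
    rw [show Ht b - 1 - (Ht b - k) = k - 1 by ring] at e1
    rw [show Ht b - 1 - (Ht b - k - 1) = k by ring] at e2
    rw [e1, e2, ne_comm, show Ht b - k - 1 = (Ht b - k) - 1 by ring,
      cD_change hb hd _ _ (by omega) (by omega)]
    constructor
    · rintro (⟨i, hi, hy, h⟩ | ⟨i, hi, hy, h⟩)
      · exact Or.inr (Or.inl ⟨i, hi, by omega, h⟩)
      · exact Or.inr (Or.inr (Or.inr ⟨i, hi, by omega, h⟩))
    · rintro (⟨i, hi, hy, h⟩ | ⟨i, hi, hy, h⟩ | ⟨i, hi, hy, h⟩ | ⟨i, hi, hy, h⟩)
      · omega
      · exact Or.inl ⟨i, hi, by omega, h⟩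
      · omega
      · exact Or.inr ⟨i, hi, by omega, h⟩
  · subst h2
    have e1 := colE_neg (u := u) (l := l) hb hd hc (y := 0) le_rfl
    have e2 := colE_pos (u := u) (l := l) hb hd hc (y := 0) le_rfl
    rw [sub_zero] at e1
    rw [add_zero] at e2
    have e3 : cD b (c false) l 0 = cD b (c true) u 0 := by
      have hP := nP_pos hb
      unfold cD
      rw [if_pos hHt, if_pos hHt, clD_slit hH (by omega), clD_slit hH (by omega)]
      have : ((0 : ℤ) - b.τ + 1).toNat = 0 := by omega
      rw [this, hc]
    rw [e1, e2, e3]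
    simp only [ne_eq, not_true_eq_false, false_iff, not_or, not_exists, not_and]
    exact ⟨fun i hi hy => by omega, fun i hi hy => by omega, fun i hi hy => by omega,
      fun i hi hy => by omega⟩
  · have e1 := colE_pos (u := u) (l := l) hb hd hc (y := k - Ht b - 1) (by omega)
    have e2 := colE_pos (u := u) (l := l) hb hd hc (y := k - Ht b) (by omega)
    rw [show Ht b + (k - Ht b - 1) = k - 1 by ring] at e1
    rw [show Ht b + (k - Ht b) = k by ring] at e2
    rw [e1, e2, cD_change hb hd _ _ (by omega) (by omega)]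
    constructor
    · rintro (⟨i, hi, hy, h⟩ | ⟨i, hi, hy, h⟩)
      · exact Or.inl ⟨i, hi, by omega, h⟩
      · exact Or.inr (Or.inr (Or.inl ⟨i, hi, by omega, h⟩))
    · rintro (⟨i, hi, hy, h⟩ | ⟨i, hi, hy, h⟩ | ⟨i, hi, hy, h⟩ | ⟨i, hi, hy, h⟩)
      · exact Or.inl ⟨i, hi, by omega, h⟩
      · omega
      · exact Or.inr ⟨i, hi, by omega, h⟩
      · omega

/-! ### The colours of `colM` -/

variable {base : Bool} {M : Finset (Bool × ℕ)} {ex : Option ℤ}

lemma par_succ (k : ℕ) : par (k + 1) = !par k := by
  unfold par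
  rcases Nat.mod_two_eq_zero_or_one k with h | h
  · rw [Nat.add_mod, h]; rfl
  · rw [Nat.add_mod, h]; rfl

/-- the colour of the ceiling changes exactly at the marks -/
lemma colM_u (i : ℕ) : (colM base M ex).u i ≠ (colM base M ex).u (i + 1) ↔ (true, i) ∈ M := by
  classical
  have key : (M.filter fun c => c.1 = true ∧ c.2 < i + 1).card =
      (M.filter fun c => c.1 = true ∧ c.2 < i).card + (if (true, i) ∈ M then 1 else 0) := by
    have : (M.filter fun c => c.1 = true ∧ c.2 < i + 1) =
        (M.filter fun c => c.1 = true ∧ c.2 < i) ∪ (M.filter fun c => c = (true, i)) := by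
      ext ⟨s, j⟩
      simp only [mem_union, mem_filter, Prod.mk.injEq]
      constructor
      · rintro ⟨h1, h2, h3⟩
        rcases Nat.lt_succ_iff_lt_or_eq.1 h3 with h | h
        · exact Or.inl ⟨h1, h2, h⟩
        · exact Or.inr ⟨h1, h2, h⟩
      · rintro (⟨h1, h2, h3⟩ | ⟨h1, h2, h3⟩)
        · exact ⟨h1, h2, by omega⟩
        · exact ⟨h1, h2, by omega⟩
    rw [this, card_union_of_disjoint]
    · congr 1
      split_ifs with h
      · rw [card_eq_one]
        refine ⟨(true, i), ?_⟩
        ext x
        simp only [mem_filter, mem_singleton]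
        exact ⟨fun h => h.2, fun h' => ⟨h' ▸ h, h'⟩⟩
      · rw [card_eq_zero, filter_eq_empty_iff]
        rintro x hx rfl
        exact h hx
    · rw [disjoint_left]
      rintro ⟨s, j⟩ h1 h2
      simp only [mem_filter, Prod.mk.injEq] at h1 h2
      omega
  show (base ^^ par (M.filter fun c => c.1 = true ∧ c.2 < i).card) ≠
    (base ^^ par (M.filter fun c => c.1 = true ∧ c.2 < i + 1).card) ↔ _
  rw [key]
  split_ifs with h
  · rw [par_succ]
    simp only [h, iff_true]
    cases base <;> cases par (M.filter fun c => c.1 = true ∧ c.2 < i).card <;> decide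
  · simp [h]

/-- the colour of the floor changes exactly at the marks -/
lemma colM_l (i : ℕ) : (colM base M ex).l i ≠ (colM base M ex).l (i + 1) ↔ (false, i) ∈ M := by
  classical
  have key : (M.filter fun c => c.1 = false ∧ i ≤ c.2).card =
      (M.filter fun c => c.1 = false ∧ i + 1 ≤ c.2).card + (if (false, i) ∈ M then 1 else 0) := by
    have : (M.filter fun c => c.1 = false ∧ i ≤ c.2) =
        (M.filter fun c => c.1 = false ∧ i + 1 ≤ c.2) ∪ (M.filter fun c => c = (false, i)) := by
      ext ⟨s, j⟩
      simp only [mem_union, mem_filter, Prod.mk.injEq]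
      constructor
      · rintro ⟨h1, h2, h3⟩
        rcases h3.lt_or_eq with h | h
        · exact Or.inl ⟨h1, h2, h⟩
        · exact Or.inr ⟨h1, h2, h.symm⟩
      · rintro (⟨h1, h2, h3⟩ | ⟨h1, h2, h3⟩)
        · exact ⟨h1, h2, by omega⟩
        · exact ⟨h1, h2, by omega⟩
    rw [this, card_union_of_disjoint]
    · congr 1
      split_ifs with h
      · rw [card_eq_one]
        refine ⟨(false, i), ?_⟩
        ext x
        simp only [mem_filter, mem_singleton]
        exact ⟨fun h => h.2, fun h' => ⟨h' ▸ h, h'⟩⟩
      · rw [card_eq_zero, filter_eq_empty_iff]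
        rintro x hx rfl
        exact h hx
    · rw [disjoint_left]
      rintro ⟨s, j⟩ h1 h2
      simp only [mem_filter, Prod.mk.injEq] at h1 h2
      omega
  show (base ^^ par (M.filter fun c => c.1 = true).card ^^ ex.isSome ^^
      par (M.filter fun c => c.1 = false ∧ i ≤ c.2).card) ≠
    (base ^^ par (M.filter fun c => c.1 = true).card ^^ ex.isSome ^^
      par (M.filter fun c => c.1 = false ∧ i + 1 ≤ c.2).card) ↔ _
  rw [key]
  split_ifs with h
  · rw [par_succ]
    simp only [h, iff_true]
    generalize par (M.filter fun c => c.1 = true).card = a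
    generalize par (M.filter fun c => c.1 = false ∧ i + 1 ≤ c.2).card = a'
    cases base <;> cases a <;> cases a' <;> cases ex.isSome <;> decide
  · rw [add_zero]
    simp [h]

/-- the two colours at the foot of the slit -/
lemma colM_foot : (colM base M ex).l 0 = ((colM base M ex).u 0 ^^ ex.isSome ^^ par M.card) := by
  classical
  have h1 : M.card = (M.filter fun c => c.1 = true).card + (M.filter fun c => c.1 = false ∧ 0 ≤ c.2).card := by
    rw [← card_union_of_disjoint]
    · congr 1
      ext ⟨s, j⟩
      cases s <;> simp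
    · rw [disjoint_left]
      rintro ⟨s, j⟩ h1 h2
      simp only [mem_filter] at h1 h2
      rw [h1.2] at h2
      simp at h2
  have par_add : ∀ a b : ℕ, par (a + b) = (par a ^^ par b) := by
    intro a b
    induction b with
    | zero => simp [par]
    | succ b ih => rw [← Nat.add_assoc, par_succ, par_succ, ih]; cases par a <;> cases par b <;> rfl
  show (base ^^ par (M.filter fun c => c.1 = true).card ^^ ex.isSome ^^
      par (M.filter fun c => c.1 = false ∧ 0 ≤ c.2).card) =
    ((base ^^ par (M.filter fun c => c.1 = true ∧ c.2 < 0).card) ^^ ex.isSome ^^ par M.card)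
  rw [h1, par_add]
  have h2 : (M.filter fun c => c.1 = true ∧ c.2 < 0).card = 0 := by
    rw [card_eq_zero, filter_eq_empty_iff]
    rintro x _ ⟨_, h⟩
    omega
  rw [h2]
  generalize par (M.filter fun c => c.1 = true).card = a
  generalize par (M.filter fun c => c.1 = false ∧ 0 ≤ c.2).card = a'
  cases base <;> cases a <;> cases a' <;> cases ex.isSome <;> rfl

end Pool.Agent.H61.W
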