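import Mathlib
import Pool.Agent.H61.W.JNam
import Pool.Agent.H20.W.SDef

set_option autoImplicit false
open Finset

/-! # J4: the matching of the `X` worlds, the order of the marks, the values

`CX` : coarse data of the room for the plate colours `cl` and the state `o` of `P`; `c0X` : colour of the right wall
below the exit; `thX` : the matching of the marks (upper and lower corner of every gap with two colours, also at the
foot), unmatched: the three marks. `exists_sorted` : the marks in counterclockwise order from the exit, their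
values form a triangle of positive orientation. -/

namespace Pool.Agent.H61.W

open Pool.Agent.H6.W Pool.Agent.H21.W Pool.Agent.H20.W
open Pool.Agent.H54.W (CD)
open Pool.Agent.H73.W (ph ph_sq ph_inv ph_ne ph_mul)
open Pool.Agent.H74.W (tau)

variable {b : JBox} {δ σ : ℝ}

/-! ### Marks -/

/-- `col` in terms of `colE` -/
lemma col_eq (C : CD) (c0 : Bool) {k : ℤ} (h0 : 0 ≤ k) (h1 : k ≤ C.H + 1) : col C c0 k = colE C (k - 1) := by
  have hH := C.H0
  unfold col colE
  rcases h0.eq_or_lt with rfl | h0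
  · rw [if_neg (by omega), if_pos rfl, if_pos (by omega)]
  · rw [if_neg (by omega), if_neg (by omega)]
    by_cases h2 : k ≤ C.H
    · rw [if_pos h2, if_neg (by omega), if_neg (by omega)]
    · rw [if_neg h2, if_pos (by omega), if_neg (by omega), if_pos (by omega)]

/-- colours of the plates -/
def pc (b : JBox) (o : Bool) (cl : Fin (nP b) → Bool) (i : ℕ) : Bool :=
  if i < b.m then o else if h : i < nP b then cl ⟨i, h⟩ else false

/-- coarse data of the room of the X worlds -/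
def CX (b : JBox) (w o : Bool) (cl : Fin (nP b) → Bool) (M : Finset (Bool × ℕ)) (hb : b.Ok δ σ)
    (hd : δ ≤ 1) : CD :=
  cdJ b (fun _ => pc b o cl) (colM (bs w) M (some 0)).u (colM (bs w) M (some 0)).l hb hd rfl

/-- colour of the right wall below the exit -/
def c0X (w : Bool) (M : Finset (Bool × ℕ)) : Bool := bs w ^^ par (M.filter fun c => c.1 = true).card ^^ true

/-- `k` is the place of a gap (or the foot) with two colours -/
def GapX (b : JBox) (w o : Bool) (cl : Fin (nP b) → Bool) (M : Finset (Bool × ℕ)) (k : ℤ) : Prop :=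
  ∃ i < nP b, (k = gapU b i ∨ k = gapL b i) ∧
    cf b (pc b o cl) (colM (bs w) M (some 0)).u i ≠ cf b (pc b o cl) (colM (bs w) M (some 0)).u (i + 1)

variable {w o : Bool} {cl : Fin (nP b) → Bool} {M : Finset (Bool × ℕ)}

lemma CX_H (hb : b.Ok δ σ) (hd : δ ≤ 1) : (CX b w o cl M hb hd).H = 2 * Ht b := rfl

theorem MkX_iff (hb : b.Ok δ σ) (hd : δ ≤ 1) (hM : M.card = 3) (hi : ∀ q ∈ M, q.2 < b.K) (k : ℤ) :
    Mk (CX b w o cl M hb hd) (c0X w M) k ↔ GapX b w o cl M k ∨ ∃ q ∈ M, k = kn b q := by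
  classical
  have hHt := Ht_pos hb
  have hHt' : Ht b = b.H + b.K := rfl
  have hth := thick hb hd
  have hτ : (0 : ℤ) < b.τ := by exact_mod_cast hb.τ0
  have hH : (0 : ℤ) < b.H := by exact_mod_cast hb.H0
  have eH := CX_H (w := w) (o := o) (cl := cl) (M := M) hb hd
  have efoot : (colM (bs w) M (some 0)).l 0 = (colM (bs w) M (some 0)).u 0 := by
    rw [colM_foot, hM]
    cases (colM (bs w) M (some 0)).u 0 <;> rfl
  have ecf : ∀ i, cf b (pc b o cl) (colM (bs w) M (some 0)).l i = cf b (pc b o cl) (colM (bs w) M (some 0)).u i := by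
    intro i
    unfold cf
    split_ifs
    · rfl
    · exact efoot
  have rng : (GapX b w o cl M k ∨ ∃ q ∈ M, k = kn b q) → 0 ≤ k ∧ k ≤ 2 * Ht b := by
    rintro (⟨i, h1, h2, -⟩ | ⟨q, h1, rfl⟩)
    · unfold gapU gapL at h2
      omega
    · have := hi q h1
      unfold kn
      split_ifs <;> omega
  by_cases hk : 0 ≤ k ∧ k ≤ 2 * Ht b
  · have h1 := col_eq (CX b w o cl M hb hd) (c0X w M) hk.1 (by rw [eH]; omega)
    have h2 := col_eq (CX b w o cl M hb hd) (c0X w M) (k := k + 1) (by omega) (by rw [eH]; omega)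
    rw [add_sub_cancel_right] at h2
    have h3 := colE_change (c := fun _ => pc b o cl) (u := (colM (bs w) M (some 0)).u)
      (l := (colM (bs w) M (some 0)).l) hb hd rfl hk.1 (by unfold HJ; exact hk.2)
    unfold Mk
    rw [h1, h2]
    constructor
    · rintro ⟨-, -, h⟩
      rcases h3.1 h with ⟨i, g1, g2, g3⟩ | ⟨i, g1, g2, g3⟩ | ⟨i, g1, g2, g3⟩ | ⟨i, g1, g2, g3⟩
      · exact Or.inl ⟨i, g1, Or.inl g2, g3⟩
      · refine Or.inl ⟨i, g1, Or.inr g2, ?_⟩
        rw [ecf, ecf] at g3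
        exact g3
      · exact Or.inr ⟨_, (colM_u i).1 g3, g2⟩
      · exact Or.inr ⟨_, (colM_l i).1 g3, g2⟩
    · intro h
      refine ⟨by omega, by rw [eH]; omega, h3.2 ?_⟩
      rcases h with ⟨i, g1, g2 | g2, g3⟩ | ⟨⟨s, i⟩, g1, g2⟩
      · exact Or.inl ⟨i, g1, g2, g3⟩
      · refine Or.inr (Or.inl ⟨i, g1, g2, ?_⟩)
        rw [ecf, ecf]
        exact g3
      · cases s
        · exact Or.inr (Or.inr (Or.inr ⟨i, hi _ g1, g2, (colM_l i).2 g1⟩))
        · exact Or.inr (Or.inr (Or.inl ⟨i, hi _ g1, g2, (colM_u i).2 g1⟩))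
  · constructor
    · rintro ⟨h1, h2, h3⟩
      exfalso
      rw [eH] at h2
      have : k = -1 ∨ k = 2 * Ht b + 1 := by omega
      rcases this with rfl | rfl
      · apply h3
        have e1 : col (CX b w o cl M hb hd) (c0X w M) (-1) = c0X w M := by
          unfold col; rw [if_pos (by omega)]
        have e2 : col (CX b w o cl M hb hd) (c0X w M) (-1 + 1) = (colM (bs w) M (some 0)).l b.K := by
          unfold col; rw [if_neg (by omega), if_pos (by omega)]; rfl
        rw [e1, e2]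
        have e3 : (M.filter fun c => c.1 = false ∧ b.K ≤ c.2) = ∅ := by
          rw [filter_eq_empty_iff]
          rintro q hq ⟨-, h⟩
          exact absurd (hi q hq) (not_lt.2 h)
        show _ = (bs w ^^ par (M.filter fun c => c.1 = true).card ^^ true ^^
          par (M.filter fun c => c.1 = false ∧ b.K ≤ c.2).card)
        rw [e3]
        unfold c0X
        cases bs w <;> cases par (M.filter fun c => c.1 = true).card <;> rfl
      · apply h3
        have e1 : col (CX b w o cl M hb hd) (c0X w M) (2 * Ht b + 1) = (colM (bs w) M (some 0)).u b.K := by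
          unfold col
          rw [if_neg (by omega), if_neg (by omega), if_neg (by rw [eH]; omega), if_pos (by rw [eH])]
          rfl
        have e2 : col (CX b w o cl M hb hd) (c0X w M) (2 * Ht b + 1 + 1) = !c0X w M := by
          unfold col
          rw [if_neg (by omega), if_neg (by omega), if_neg (by rw [eH]; omega), if_neg (by rw [eH]; omega)]
        rw [e1, e2]
        have e3 : (M.filter fun c => c.1 = true ∧ c.2 < b.K) = M.filter fun c => c.1 = true := by
          apply filter_congr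
          intro q hq
          exact ⟨fun h => h.1, fun h => ⟨h, hi q hq⟩⟩
        show (bs w ^^ par (M.filter fun c => c.1 = true ∧ c.2 < b.K).card) = _
        rw [e3]
        unfold c0X
        cases bs w <;> cases par (M.filter fun c => c.1 = true).card <;> rfl
    · intro h
      exact absurd (rng h) hk

lemma GapX.range (hb : b.Ok δ σ) (hd : δ ≤ 1) {k : ℤ} (h : GapX b w o cl M k) :
    (Ht b - b.H < k ∧ k < Ht b + b.H) ∧ k ≠ Ht b := by
  obtain ⟨i, h1, h2, -⟩ := h
  have hth := thick hb hd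
  have hτ : (0 : ℤ) < b.τ := by exact_mod_cast hb.τ0
  unfold gapU gapL at h2
  omega

lemma GapX.refl {k : ℤ} (h : GapX b w o cl M k) : GapX b w o cl M (2 * Ht b - k) := by
  obtain ⟨i, h1, h2, h3⟩ := h
  refine ⟨i, h1, ?_, h3⟩
  unfold gapU gapL at h2 ⊢
  omega

lemma kn_range (hb : b.Ok δ σ) (q : Bool × ℕ) : ¬ (Ht b - b.H < kn b q ∧ kn b q < Ht b + b.H) ∧
    kn b q ≠ Ht b - b.H ∧ kn b q ≠ Ht b + b.H ∧ kn b q ≠ Ht b := by
  have hH : (0 : ℤ) < b.H := by exact_mod_cast hb.H0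
  unfold kn
  split_ifs <;> omega

lemma kn_inj (hb : b.Ok δ σ) {q q' : Bool × ℕ} (h : kn b q = kn b q') : q = q' := by
  have hH : (0 : ℤ) < b.H := by exact_mod_cast hb.H0
  obtain ⟨s, i⟩ := q
  obtain ⟨s', i'⟩ := q'
  unfold kn at h
  cases s <;> cases s' <;> simp only [if_true, Bool.false_eq_true, if_false] at h
  · rw [show i = i' by omega]
  · omega
  · omega
  · rw [show i = i' by omega]

/-- **The matching of the X worlds.** -/
def thX (hb : b.Ok δ σ) (hd : δ ≤ 1) (hM : M.card = 3) (hi : ∀ q ∈ M, q.2 < b.K) (q : Fin 3 → Bool × ℕ)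
    (hq : M = {q 0, q 1, q 2}) (hs : kn b (q 2) < kn b (q 1) ∧ kn b (q 1) < kn b (q 0)) :
    Th (CX b w o cl M hb hd) (c0X w M) where
  m k := if Ht b - b.H < k ∧ k < Ht b + b.H then 2 * Ht b - k else k
  x j := kn b (q j)
  mm k hk := by
    rw [MkX_iff hb hd hM hi] at hk ⊢
    rcases hk with hk | ⟨p, hp, rfl⟩
    · rw [if_pos (hk.range hb hd).1]
      exact Or.inl hk.refl
    · rw [if_neg (kn_range hb p).1]
      exact Or.inr ⟨p, hp, rfl⟩
  inv k _ := by split_ifs <;> omega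
  xm j := by
    rw [MkX_iff hb hd hM hi]
    refine Or.inr ⟨q j, ?_, rfl⟩
    rw [hq]
    fin_cases j <;> simp
  fx k hk := by
    rw [MkX_iff hb hd hM hi] at hk
    rcases hk with hk | ⟨p, hp, rfl⟩
    · have h1 := hk.range hb hd
      rw [if_pos h1.1]
      constructor
      · intro h; omega
      · rintro ⟨j, rfl⟩
        exact absurd h1.1 (kn_range hb _).1
    · rw [if_neg (kn_range hb p).1]
      refine ⟨fun _ => ?_, fun _ => rfl⟩
      rw [hq] at hp
      simp only [mem_insert, mem_singleton] at hp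
      rcases hp with rfl | rfl | rfl
      · exact ⟨0, rfl⟩
      · exact ⟨1, rfl⟩
      · exact ⟨2, rfl⟩
  ord := hs
  nc a c ha hc h1 h2 := by
    rw [MkX_iff hb hd hM hi] at ha
    rcases ha with ha | ⟨p, hp, rfl⟩
    · have h3 := ha.range hb hd
      rw [if_pos h3.1] at h2 ⊢
      rw [if_pos (by omega)]
      omega
    · rw [if_neg (kn_range hb p).1] at h2
      omega
  un a j ha := by
    rw [MkX_iff hb hd hM hi] at ha
    rcases ha with ha | ⟨p, hp, rfl⟩
    · have h3 := ha.range hb hd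
      rw [if_pos h3.1]
      have := kn_range hb (q j)
      omega
    · rw [if_neg (kn_range hb p).1]
      omega

/-! ### Values -/

/-- triangle of positive orientation -/
def Eq3 (k0 k1 k2 : ℂ) : Prop := k2 - k1 = tau * (k1 - k0)

lemma tau_ph : tau = ph - 1 := by
  have h : tau = ph * ph := by
    unfold tau ph
    rw [← Complex.exp_add]
    congr 1
    ring
  rw [h, ph_sq]

lemma tau_sq' : tau * tau + tau + 1 = 0 := by
  rw [tau_ph]
  linear_combination ph_sq

lemma tau_sub_ne : tau - 1 ≠ 0 := by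
  intro h
  have h1 : tau = 1 := by linear_combination h
  have := tau_sq'
  rw [h1] at this
  norm_num at this

lemma Eq3.rot {k0 k1 k2 : ℂ} (h : Eq3 k0 k1 k2) : Eq3 k1 k2 k0 := by
  unfold Eq3 at h ⊢
  linear_combination (-1 - tau) * h + (k1 - k0) * (-tau_sq')

/-- the values are affine in `1, τ, τ²` -/
lemma Eq3.aff {k0 k1 k2 : ℂ} (h : Eq3 k0 k1 k2) : ∃ A B : ℂ, k0 = A + B ∧ k1 = A + B * tau ∧
    k2 = A + B * tau ^ 2 := by
  refine ⟨k0 - (k1 - k0) / (tau - 1), (k1 - k0) / (tau - 1), by ring, ?_, ?_⟩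
  · have := tau_sub_ne
    field_simp
    ring
  · have h1 := tau_sub_ne
    unfold Eq3 at h
    have : k2 = k1 + tau * (k1 - k0) := by linear_combination h
    rw [this]
    field_simp
    ring

open Classical in
/-- value of the far end `q` -/
noncomputable def Kv (b : JBox) (c2 c3 c4 q : Bool × ℕ) : ℂ :=
  if q = c2 then K2 b c2 c3 c4 else if q = snd2 b c3 c4 then 1 else 0

lemma ky_inj {q q' : Bool × ℕ} (h1 : q.2 < b.K) (h2 : q'.2 < b.K) (h : ky b q = ky b q') : q = q' := by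
  obtain ⟨s, i⟩ := q
  obtain ⟨s', i'⟩ := q'
  unfold ky at h
  cases s <;> cases s' <;> simp only [if_true, Bool.false_eq_true, if_false] at h h1 h2
  · rw [show i = i' by omega]
  · omega
  · omega
  · rw [show i = i' by omega]

lemma fst2_comm {c3 c4 : Bool × ℕ} (h : ky b c3 ≠ ky b c4) : fst2 b c3 c4 = fst2 b c4 c3 := by
  unfold fst2; split_ifs <;> first | rfl | omega

lemma snd2_comm {c3 c4 : Bool × ℕ} (h : ky b c3 ≠ ky b c4) : snd2 b c3 c4 = snd2 b c4 c3 := by
  unfold snd2; split_ifs <;> first | rfl | omega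

lemma Kv_comm {c2 c3 c4 : Bool × ℕ} (h : ky b c3 ≠ ky b c4) (q : Bool × ℕ) :
    Kv b c2 c3 c4 q = Kv b c2 c4 c3 q := by
  unfold Kv K2
  rw [fst2_comm h, snd2_comm h]

/-- cyclic order `c2, c3, c4` -/
lemma eq3_cyc {c2 c3 c4 : Bool × ℕ} (h23 : c2 ≠ c3) (h24 : c2 ≠ c4) (h34 : c3 ≠ c4)
    (h : (ky b c2 < ky b c3 ∧ ky b c3 < ky b c4) ∨ (ky b c3 < ky b c4 ∧ ky b c4 < ky b c2) ∨
      (ky b c4 < ky b c2 ∧ ky b c2 < ky b c3)) :
    Eq3 (Kv b c2 c3 c4 c2) (Kv b c2 c3 c4 c3) (Kv b c2 c3 c4 c4) := by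
  classical
  unfold Kv
  rw [if_pos rfl, if_neg h23.symm, if_neg h24.symm]
  by_cases h1 : ky b c3 < ky b c4
  · have e1 : snd2 b c3 c4 = c4 := by unfold snd2; rw [if_pos h1]
    have e2 : fst2 b c3 c4 = c3 := by unfold fst2; rw [if_pos h1]
    have e3 : K2 b c2 c3 c4 = ph := by
      unfold K2
      rw [e1, e2, if_neg (by omega)]
    rw [e1, e3, if_neg h34, if_pos rfl]
    unfold Eq3
    rw [tau_ph]
    linear_combination ph_sq
  · have e1 : snd2 b c3 c4 = c3 := by unfold snd2; rw [if_neg h1]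
    have e2 : fst2 b c3 c4 = c4 := by unfold fst2; rw [if_neg h1]
    have e3 : K2 b c2 c3 c4 = ph⁻¹ := by
      unfold K2
      rw [e1, e2, if_pos (by omega)]
    rw [e1, e3, if_pos rfl, if_neg h34.symm, ph_inv]
    unfold Eq3
    rw [tau_ph]
    linear_combination -ph_sq

/-- decreasing positions = counterclockwise order from the exit -/
lemma cyc_of_kn (hb : b.Ok δ σ) {x y z : Bool × ℕ} (hx : x.2 < b.K) (hy : y.2 < b.K) (hz : z.2 < b.K)
    (h1 : kn b z < kn b y) (h2 : kn b y < kn b x) :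
    (ky b x < ky b y ∧ ky b y < ky b z) ∨ (ky b y < ky b z ∧ ky b z < ky b x) ∨
      (ky b z < ky b x ∧ ky b x < ky b y) := by
  have hH : (0 : ℤ) < b.H := by exact_mod_cast hb.H0
  obtain ⟨s, i⟩ := x
  obtain ⟨s', i'⟩ := y
  obtain ⟨s'', i''⟩ := z
  unfold kn at h1 h2
  unfold ky
  cases s <;> cases s' <;> cases s'' <;>
    simp only [if_true, Bool.false_eq_true, if_false] at h1 h2 hx hy hz ⊢ <;> omega

section perm
variable {α : Type*} [DecidableEq α] (x y z : α)
lemma pm1 : ({x, y, z} : Finset α) = {z, y, x} := by ext t; simp only [mem_insert, mem_singleton]; tauto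
lemma pm2 : ({x, y, z} : Finset α) = {y, z, x} := by ext t; simp only [mem_insert, mem_singleton]; tauto
lemma pm3 : ({x, y, z} : Finset α) = {y, x, z} := by ext t; simp only [mem_insert, mem_singleton]; tauto
lemma pm4 : ({x, y, z} : Finset α) = {z, x, y} := by ext t; simp only [mem_insert, mem_singleton]; tauto
lemma pm5 : ({x, y, z} : Finset α) = {x, z, y} := by ext t; simp only [mem_insert, mem_singleton]; tauto
end perm

/-- **The marks in counterclockwise order from the exit.** -/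
theorem exists_sorted (hb : b.Ok δ σ) {c2 c3 c4 : Bool × ℕ} (h2 : c2.2 < b.K) (h3 : c3.2 < b.K)
    (h4 : c4.2 < b.K) (h23 : c2 ≠ c3) (h24 : c2 ≠ c4) (h34 : c3 ≠ c4) : ∃ q : Fin 3 → Bool × ℕ,
    ({c2, c3, c4} : Finset (Bool × ℕ)) = {q 0, q 1, q 2} ∧
    (kn b (q 2) < kn b (q 1) ∧ kn b (q 1) < kn b (q 0)) ∧
    Eq3 (Kv b c2 c3 c4 (q 0)) (Kv b c2 c3 c4 (q 1)) (Kv b c2 c3 c4 (q 2)) := by
  have hne34 : ky b c3 ≠ ky b c4 := fun h => h34 (ky_inj h3 h4 h)
  have k23 : kn b c2 ≠ kn b c3 := fun h => h23 (kn_inj hb h)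
  have k24 : kn b c2 ≠ kn b c4 := fun h => h24 (kn_inj hb h)
  have k34 : kn b c3 ≠ kn b c4 := fun h => h34 (kn_inj hb h)
  -- the two cyclic orders
  have A : ((ky b c2 < ky b c3 ∧ ky b c3 < ky b c4) ∨ (ky b c3 < ky b c4 ∧ ky b c4 < ky b c2) ∨
      (ky b c4 < ky b c2 ∧ ky b c2 < ky b c3)) →
    Eq3 (Kv b c2 c3 c4 c2) (Kv b c2 c3 c4 c3) (Kv b c2 c3 c4 c4) := eq3_cyc h23 h24 h34
  have B : ((ky b c2 < ky b c4 ∧ ky b c4 < ky b c3) ∨ (ky b c4 < ky b c3 ∧ ky b c3 < ky b c2) ∨
      (ky b c3 < ky b c2 ∧ ky b c2 < ky b c4)) →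
    Eq3 (Kv b c2 c3 c4 c2) (Kv b c2 c3 c4 c4) (Kv b c2 c3 c4 c3) := fun h => by
    rw [Kv_comm hne34, Kv_comm hne34 c4, Kv_comm hne34 c3]
    exact eq3_cyc h24 h23 h34.symm h
  rcases lt_or_gt_of_ne k23 with a | a <;> rcases lt_or_gt_of_ne k24 with d | d <;>
    rcases lt_or_gt_of_ne k34 with e | e
  · exact ⟨![c4, c3, c2], pm1 _ _ _, ⟨a, e⟩, (B (by have := cyc_of_kn hb h4 h3 h2 a e; omega)).rot⟩
  · exact ⟨![c3, c4, c2], pm2 _ _ _, ⟨d, e⟩, (A (by have := cyc_of_kn hb h3 h4 h2 d e; omega)).rot⟩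
  · omega
  · exact ⟨![c3, c2, c4], pm3 _ _ _, ⟨d, a⟩, (B (by have := cyc_of_kn hb h3 h2 h4 d a; omega)).rot.rot⟩
  · exact ⟨![c4, c2, c3], pm4 _ _ _, ⟨a, d⟩, (A (by have := cyc_of_kn hb h4 h2 h3 a d; omega)).rot.rot⟩
  · omega
  · exact ⟨![c2, c4, c3], pm5 _ _ _, ⟨e, d⟩, B (by have := cyc_of_kn hb h2 h4 h3 e d; omega)⟩
  · exact ⟨![c2, c3, c4], rfl, ⟨e, a⟩, A (by have := cyc_of_kn hb h2 h3 h4 e a; omega)⟩

end Pool.Agent.H61.W
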