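import Mathlib
import Pool.Agent.H61.W.JThX
import Pool.Agent.H21.W.JInst

set_option autoImplicit false
open Finset

/-! # J4: `XHolC` from the S-property

`shR b h ω` : labels of the room graph (coordinates of `cdJ`) moved to the box. `KeyX` : pointwise, the far end in
the X world for fixed colours of the plates = far end in the room graph with the arcs. `ExX` : exactly one far end.
`xHolC_of : StS → KeyX σ → ExX σ → XHolC`. -/

namespace Pool.Agent.H61.W

open Filter Topology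
open Pool.Agent.Q1.M4 (lat)
open Pool.Agent.H75.Perc (Pr Pr_map Pr_congr)
open Pool.Agent.H6.W Pool.Agent.H21.W Pool.Agent.H20.W Pool.Agent.H33.Q1 Pool.Agent.H21.FM
open Pool.Agent.H54.W (CD)
open Pool.Agent.H44.W (WLim)
open Pool.Agent.H45.W (trF trE tr)
open Pool.Agent.H13.W
open Pool.Agent.H74.W (tau)

variable {b : JBox} {δ σ : ℝ} {h : ℕ}

/-- the labels of the room, moved to the box -/
def shR (b : JBox) (h : ℕ) (ω : Finset (ℤ × ℤ)) : Finset (ℤ × ℤ) :=
  trF (2 * h * Ht b) (-(2 * h * Ht b)) ω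

lemma E1_eq (hb : b.Ok δ σ) (hd : δ ≤ 1) (hh : 0 < h) (w o : Bool) (cl : Fin (nP b) → Bool)
    (M : Finset (Bool × ℕ)) : E1 b h = shR b h (ER (CX b w o cl M hb hd) (2 * h)) := by
  have hn : (0 : ℤ) < 2 * h := by positivity
  ext e
  unfold shR
  rw [Pool.Agent.H45.W.mem_trF]
  unfold E1
  rw [mem_filter, mem_B hh]
  constructor
  · rintro ⟨⟨h1, h2⟩, h3⟩
    have h4 := lt_tt h1
    set x := (tt e).1 with hx
    set y := (tt e).2 with hy
    have h5 : e = lt (x, y) := h4.symm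
    have h6 : InR b (2 * h) x y := by
      refine ⟨?_, ?_⟩
      · exact h2
      · exact h3
    have h7 := (rp_iff (c := fun _ => pc b o cl) (u := (colM (bs w) M (some 0)).u)
      (l := (colM (bs w) M (some 0)).l) hb hd hn rfl).2 h6
    have h8 : tr (-(2 * h * Ht b)) (- -(2 * h * Ht b)) e = lt (x, y + 2 * h * Ht b) := by
      rw [h5, neg_neg, tr_lt]
    rw [h8]
    exact (mem_ER hn).2 h7
  · intro h1
    have h2 := odd_ER h1
    have h3 : (e.1 + e.2) % 2 = 1 := by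
      unfold tr at h2
      simp only at h2
      omega
    have h5 : e = lt (tt e) := (lt_tt h3).symm
    have h8 : tr (-(2 * h * Ht b)) (- -(2 * h * Ht b)) e = lt ((tt e).1, (tt e).2 + 2 * h * Ht b) := by
      conv_lhs => rw [h5]
      rw [neg_neg, tr_lt]
    rw [h8] at h1
    have h7 := (rp_iff (c := fun _ => pc b o cl) (u := (colM (bs w) M (some 0)).u)
      (l := (colM (bs w) M (some 0)).l) hb hd hn rfl).1 ((mem_ER hn).1 h1)
    exact ⟨⟨h3, h7.1⟩, h7.2⟩

lemma Pr_shR (E : Finset (ℤ × ℤ)) (A : Finset (ℤ × ℤ) → Prop) :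
    Pr (shR b h E) A = Pr E (fun ω => A (shR b h ω)) := Pr_map _ _ _

/-- the moving end in the coordinates of `cdJ` -/
def upv (b : JBox) (h : ℕ) (v : ℤ × ℤ) : ℤ × ℤ := (v.1, v.2 + 2 * h * Ht b)

/-- **Pointwise key of the X worlds.** (`b.m ≤ nP b` : the chunk `P` does not reach through the left wall.) -/
def KeyX (σ : ℝ) : Prop := ∀ (b : JBox) (δ : ℝ) (hb : b.Ok δ σ) (hd : δ ≤ 1), b.m ≤ nP b → ∀ (w o : Bool)
  (cl : Fin (nP b) → Bool) (M : Finset (Bool × ℕ)) (hM : M.card = 3) (hi : ∀ q ∈ M, q.2 < b.K)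
  (q : Fin 3 → Bool × ℕ) (hq : M = {q 0, q 1, q 2})
  (hs : kn b (q 2) < kn b (q 1) ∧ kn b (q 1) < kn b (q 0)) (K : Set ℂ), K ⊆ Ur b → IsCompact K →
  ∃ h0 : ℕ, ∀ h : ℕ, h0 ≤ h → ∀ v : ℤ × ℤ, lat v / ((2 * h * b.H : ℝ) : ℂ) ∈ K → ∀ (j : Fin 3),
    ∀ ω ⊆ ER (CX b w o cl M hb hd) (2 * h),
      (RF b (2 * h) (GG b (2 * h) M (colM (bs w) M (some v.2)) (strD v)
          (cfg b h o (shR b h ω ∪ plt b h cl))) (zc v) (q j) ↔
        (GT (thX (w := w) (o := o) (cl := cl) hb hd hM hi q hq hs) (2 * h) (upv b h v) ω).Reachable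
          (eW (lt (upv b h v))) (nm (CX b w o cl M hb hd) (c0X w M) (2 * h) (kn b (q j))))

/-- **Exactly one far end in the X worlds.** -/
def ExX (σ : ℝ) : Prop := ∀ (b : JBox) (δ : ℝ), b.Ok δ σ → δ ≤ 1 → ∀ (w o : Bool)
  (M : Finset (Bool × ℕ)), M.card = 3 → (∀ q ∈ M, q.2 < b.K) →
  ∀ (K : Set ℂ), K ⊆ Ur b → IsCompact K →
  ∃ h0 : ℕ, ∀ h : ℕ, h0 ≤ h → ∀ v : ℤ × ℤ, lat v / ((2 * h * b.H : ℝ) : ℂ) ∈ K →
    ∀ ω ⊆ b.B h, ∃! q : Bool × ℕ, q ∈ M ∧
      RF b (2 * h) (GG b (2 * h) M (colM (bs w) M (some v.2)) (strD v) (cfg b h o ω)) (zc v) q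

open Classical in
/-- probabilities of exclusive exhaustive events -/
lemma Pr_sum3 {E : Finset (ℤ × ℤ)} (A : Fin 3 → Finset (ℤ × ℤ) → Prop)
    (hA : ∀ ω ⊆ E, ∃! j, A j ω) : Pr E (A 0) + Pr E (A 1) + Pr E (A 2) = 1 := by
  have e : ∀ j, Pr E (A j) = ((E.powerset.filter (A j)).card : ℝ) / 2 ^ E.card := fun j =>
    Pool.Agent.H75.Perc.Pr_eq _ _
  rw [e, e, e, ← add_div, ← add_div, div_eq_one_iff_eq (by positivity)]
  have h1 : E.powerset = (E.powerset.filter (A 0) ∪ E.powerset.filter (A 1)) ∪ E.powerset.filter (A 2) := by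
    ext ω
    simp only [mem_union, mem_filter, mem_powerset]
    constructor
    · intro hω
      obtain ⟨j, hj, -⟩ := hA ω hω
      fin_cases j
      · exact Or.inl (Or.inl ⟨hω, hj⟩)
      · exact Or.inl (Or.inr ⟨hω, hj⟩)
      · exact Or.inr ⟨hω, hj⟩
    · rintro ((h | h) | h) <;> exact h.1
  have uq : ∀ ω ⊆ E, ∀ i j, A i ω → A j ω → i = j := fun ω hω i j hi hj => (hA ω hω).unique hi hj
  have h2 : Disjoint (E.powerset.filter (A 0)) (E.powerset.filter (A 1)) := by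
    rw [disjoint_left]
    intro ω h3 h4
    rw [mem_filter, mem_powerset] at h3 h4
    exact absurd (uq ω h3.1 0 1 h3.2 h4.2) (by decide)
  have h3 : Disjoint (E.powerset.filter (A 0) ∪ E.powerset.filter (A 1)) (E.powerset.filter (A 2)) := by
    rw [disjoint_left]
    intro ω h3 h4
    rw [mem_union, mem_filter, mem_filter, mem_powerset] at h3
    rw [mem_filter, mem_powerset] at h4
    rcases h3 with h3 | h3
    · exact absurd (uq ω h3.1 0 2 h3.2 h4.2) (by decide)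
    · exact absurd (uq ω h3.1 1 2 h3.2 h4.2) (by decide)
  have h4 : E.powerset.card = (E.powerset.filter (A 0)).card + (E.powerset.filter (A 1)).card +
      (E.powerset.filter (A 2)).card := by
    conv_lhs => rw [h1]
    rw [card_union_of_disjoint h3, card_union_of_disjoint h2]
  rw [card_powerset] at h4
  exact_mod_cast h4.symm

/-- the macroscopic room in the coordinates of `cdJ` -/
lemma Ur_sub (hb : b.Ok δ σ) (hd : δ ≤ 1) (w o : Bool) (cl : Fin (nP b) → Bool)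
    (M : Finset (Bool × ℕ)) :
    Ur b ⊆ {z : ℂ | ((b.H : ℝ) : ℂ) * z + (Ht b : ℂ) * Complex.I ∈ OmC (CX b w o cl M hb hd)} := by
  have hH : (0 : ℝ) < b.H := by exact_mod_cast hb.H0
  unfold OmC
  rw [← interior_affine hH]
  unfold Ur
  apply interior_mono
  rintro z ⟨h1, h2⟩
  have h3 := (mem_roomJ hb hd).1 ⟨h1, h2⟩
  have f1 := Int.floor_le (z.im * b.H)
  have f2 := (Int.lt_floor_add_one (z.im * b.H)).le
  have f3 := Int.floor_le (z.re * b.H)
  have f4 := (Int.lt_floor_add_one (z.re * b.H)).le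
  have ere : (((b.H : ℝ) : ℂ) * z + (Ht b : ℂ) * Complex.I).re = z.re * b.H := by
    simp; ring
  have eim : (((b.H : ℝ) : ℂ) * z + (Ht b : ℂ) * Complex.I).im = z.im * b.H + Ht b := by
    simp; ring
  refine ⟨⌊z.im * b.H⌋ + Ht b, h3.1.1, h3.1.2, ?_, ?_, ?_, ?_⟩
  · rw [eim]; push_cast; linarith
  · rw [eim]; push_cast; linarith
  · rw [ere]
    have : (AJ b (⌊z.im * b.H⌋ + Ht b) : ℝ) ≤ ⌊z.re * b.H⌋ := by exact_mod_cast h3.2.1
    exact this.trans f3
  · rw [ere]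
    have : (⌊z.re * b.H⌋ : ℝ) + 1 ≤ b.X := by
      have := h3.2.2
      have h4 : ⌊z.re * b.H⌋ + 1 ≤ (b.X : ℤ) := by omega
      exact_mod_cast h4
    show z.re * b.H ≤ ((b.X : ℤ) : ℝ)
    push_cast
    linarith

namespace Setup

/-- **`XHolC`.** -/
theorem xHolC_of {σ : ℝ} (hS : StS) (key : KeyX σ) (ex : ExX σ) (S : Setup σ) : S.XHolC := by
  classical
  intro c hc3 hc4
  have hσ : ∀ᶠ k in atTop, σ * S.δ k ≤ 1 := by
    have h1 : Tendsto (fun k => σ * S.δ k) atTop (𝓝 (σ * 0)) := S.lim.const_mul σ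
    rw [mul_zero] at h1
    filter_upwards [h1.eventually (gt_mem_nhds one_pos)] with k hk using le_of_lt hk
  filter_upwards [hσ, Pool.Agent.H71.W.Setup.ev_d S one_pos, Pool.Agent.H71.W.Setup.cor_spec S c,
    Pool.Agent.H71.W.Setup.cor_spec S S.b3, Pool.Agent.H71.W.Setup.cor_spec S S.b4,
    Pool.Agent.H71.W.Setup.cor_ne S hc3, Pool.Agent.H71.W.Setup.cor_ne S hc4,
    Pool.Agent.H71.W.Setup.cor_ne S S.ne] with k hσk hd' ⟨g2, _⟩ ⟨g3, _⟩ ⟨g4, _⟩ n23 n24 n34 𝒰 hU o cl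
  have hb := S.ok k
  have hd := hd'.le
  set c2 := cor (S.B k) c with hc2
  set c3 := cor (S.B k) S.b3 with hc3'
  set c4 := cor (S.B k) S.b4 with hc4'
  obtain ⟨q, hq, hs, hE⟩ := exists_sorted hb g2 g3 g4 n23 n24 n34
  have hM : ({c2, c3, c4} : Finset (Bool × ℕ)).card = 3 := by
    rw [card_eq_three]
    exact ⟨c2, c3, c4, n23, n24, n34, rfl⟩
  have hi : ∀ p ∈ ({c2, c3, c4} : Finset (Bool × ℕ)), p.2 < (S.B k).K := by
    intro p hp
    simp only [mem_insert, mem_singleton] at hp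
    rcases hp with rfl | rfl | rfl <;> assumption
  obtain ⟨A, B, eA0, eA1, eA2⟩ := hE.aff
  have qne : q 0 ≠ q 1 ∧ q 0 ≠ q 2 ∧ q 1 ≠ q 2 := by
    refine ⟨?_, ?_, ?_⟩ <;> intro e <;> rw [e] at hs <;> omega
  set θ := thX (w := S.w) (o := o) (cl := cl) hb hd hM hi q hq hs with hθ
  have hH : (0 : ℝ) < (S.B k).H := by exact_mod_cast hb.H0
  obtain ⟨g, hg, -, hW⟩ := hS (CX (S.B k) S.w o cl {c2, c3, c4} hb hd) (c0X S.w {c2, c3, c4}) θ
    (fun n => 2 * (S.h k n : ℤ)) (fun n => by simp)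
    (by
      have h1 : Tendsto (fun n => (S.h k n : ℤ)) atTop atTop :=
        tendsto_natCast_atTop_atTop.comp (S.mono k).tendsto_atTop
      exact h1.const_mul_atTop' (by norm_num)) 𝒰 hU
  have hpos : ∀ᶠ n in (𝒰 : Filter ℕ), 0 < (((2 * (S.h k n : ℤ) : ℤ)) : ℝ) := by
    filter_upwards [hU (S.ev_h0 k)] with n hn
    push_cast
    positivity
  have hW1 := WLim.affine hW hH hpos (fun n => (0, 2 * (S.h k n : ℤ) * Ht (S.B k)))
    ((Ht (S.B k) : ℂ) * Complex.I) (by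
      intro n
      apply Complex.ext
      · have := Pool.Agent.H71.W.lat_re (0, 2 * (S.h k n : ℤ) * Ht (S.B k)) 1
        simp only [Complex.ofReal_one, div_one, Int.cast_zero] at this
        rw [this]
        simp
      · have := Pool.Agent.H71.W.lat_im (0, 2 * (S.h k n : ℤ) * Ht (S.B k)) 1
        simp only [Complex.ofReal_one, div_one] at this
        rw [this]
        simp
        ring)
  have eR : (fun n => ((S.B k).H : ℝ) * (((2 * (S.h k n : ℤ) : ℤ)) : ℝ)) = S.R k := by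
    funext n
    unfold Setup.R
    push_cast
    ring
  rw [eR] at hW1
  have hR : Tendsto (S.R k) 𝒰 atTop := (S.R_lim k).mono_left hU
  have hW2 := WLim.mono le_rfl (Ur_sub hb hd S.w o cl {c2, c3, c4}) hW1
  have hconst : WLim (S.R k) 𝒰 (S.U k) (fun _ _ => (1 : ℂ)) (fun _ => 1) :=
    wlim_const hR tendsto_const_nhds
  have hW3 := WLim.sum (Finset.univ : Finset (Fin 2)) ![A, B] (R := S.R k) (F := 𝒰) (Ω := S.U k)
    (f := ![fun _ _ => (1 : ℂ), fun n v => FT θ (2 * (S.h k n : ℤ)) (v + (0, 2 * (S.h k n : ℤ) * Ht (S.B k)))])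
    (g := ![fun _ => 1, fun z => g (((S.B k).H : ℝ) * z + (Ht (S.B k) : ℂ) * Complex.I)])
    (by
      intro i _
      fin_cases i
      · exact hconst
      · exact hW2)
  simp only [Fin.sum_univ_two, Matrix.cons_val_zero, Matrix.cons_val_one, mul_one] at hW3
  refine ⟨_, ?_, WLim.congr_small hR isOpen_interior hW3 ?_⟩
  · refine (differentiableOn_const A).add (DifferentiableOn.const_mul ?_ B)
    exact (differentiableOn_affine (a := ((S.B k).H : ℝ)) (τ := (Ht (S.B k) : ℂ) * Complex.I) hg).mono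
      (Ur_sub hb hd S.w o cl {c2, c3, c4})
  · intro K hK hKc ε hε
    obtain ⟨h1, H1⟩ := key (S.B k) (S.δ k) hb hd (m_le_nP hb hσk) S.w o cl {c2, c3, c4} hM hi q hq hs K hK hKc
    obtain ⟨h2, H2⟩ := ex (S.B k) (S.δ k) hb hd S.w o {c2, c3, c4} hM hi K hK hKc
    have hev : ∀ᶠ n in atTop, max h1 h2 ≤ S.h k n := (S.mono k).tendsto_atTop.eventually_ge_atTop _
    filter_upwards [hU hev, hU (S.ev_h0 k)] with n hn hn0 v hv
    have hn1 : h1 ≤ S.h k n := (le_max_left _ _).trans hn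
    have hn2 : h2 ≤ S.h k n := (le_max_right _ _).trans hn
    have hvK : lat v / ((2 * (S.h k n) * (S.B k).H : ℝ) : ℂ) ∈ K := hv
    have K1 := H1 _ hn1 v hvK
    have K2' := H2 _ hn2 v hvK
    set h := S.h k n with hh
    -- the probabilities
    set P : Bool × ℕ → ℝ := fun p => Pr (E1 (S.B k) h) (fun ω =>
      RF (S.B k) (2 * h) (GG (S.B k) (2 * h) {c2, c3, c4} (colM (bs S.w) {c2, c3, c4} (some v.2)) (strD v)
        (cfg (S.B k) h o (ω ∪ plt (S.B k) h cl))) (zc v) p) with hP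
    have e1 : ∀ j : Fin 3, P (q j) = Pr (ER (CX (S.B k) S.w o cl {c2, c3, c4} hb hd) (2 * h)) (fun ω =>
        (GT θ (2 * h) (upv (S.B k) h v) ω).Reachable (eW (lt (upv (S.B k) h v)))
          (nm (CX (S.B k) S.w o cl {c2, c3, c4} hb hd) (c0X S.w {c2, c3, c4}) (2 * h) (kn (S.B k) (q j)))) := by
      intro j
      rw [hP]
      simp only
      rw [E1_eq hb hd hn0 S.w o cl {c2, c3, c4}, Pr_shR]
      exact Pr_congr fun ω hω => K1 j ω hω
    have e2 : FT θ (2 * (h : ℤ)) (v + (0, 2 * (h : ℤ) * Ht (S.B k))) =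
        (P (q 0) : ℂ) + tau * (P (q 1) : ℂ) + tau ^ 2 * (P (q 2) : ℂ) := by
      have e3 : v + (0, 2 * (h : ℤ) * Ht (S.B k)) = upv (S.B k) h v := by
        unfold upv
        ext <;> simp
      rw [e3]
      unfold FT
      rw [Fin.sum_univ_three, e1 0, e1 1, e1 2]
      simp only [Fin.val_zero, pow_zero, one_mul, Fin.val_one, pow_one, Fin.val_two]
      rfl
    have e3 : P (q 0) + P (q 1) + P (q 2) = 1 := by
      refine Pr_sum3 (fun j ω => RF (S.B k) (2 * h) (GG (S.B k) (2 * h) {c2, c3, c4}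
        (colM (bs S.w) {c2, c3, c4} (some v.2)) (strD v)
        (cfg (S.B k) h o (ω ∪ plt (S.B k) h cl))) (zc v) (q j)) ?_
      intro ω hω
      have h4 : ω ∪ plt (S.B k) h cl ⊆ (S.B k).B h := by
        refine union_subset (hω.trans ?_) ?_
        · unfold E1; exact filter_subset _ _
        · unfold plt; exact filter_subset _ _
      obtain ⟨p, ⟨hp1, hp2⟩, hp3⟩ := K2' _ h4
      have hp4 : ∃ j, p = q j := by
        rw [hq] at hp1
        simp only [mem_insert, mem_singleton] at hp1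
        rcases hp1 with rfl | rfl | rfl
        · exact ⟨0, rfl⟩
        · exact ⟨1, rfl⟩
        · exact ⟨2, rfl⟩
      obtain ⟨j, rfl⟩ := hp4
      refine ⟨j, hp2, fun i hi' => ?_⟩
      have h5 : q i ∈ ({c2, c3, c4} : Finset (Bool × ℕ)) := by
        rw [hq]; fin_cases i <;> simp
      have h6 := hp3 (q i) ⟨h5, hi'⟩
      obtain ⟨a1, a2, a3⟩ := qne
      fin_cases i <;> fin_cases j <;> first | rfl | (exfalso; simp at h6; tauto)
    have e4 : S.Xc k n o cl c v = Kv (S.B k) c2 c3 c4 (q 0) * P (q 0) + Kv (S.B k) c2 c3 c4 (q 1) * P (q 1) +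
        Kv (S.B k) c2 c3 c4 (q 2) * P (q 2) := by
      have h5 : ∑ p ∈ ({c2, c3, c4} : Finset (Bool × ℕ)), Kv (S.B k) c2 c3 c4 p * (P p : ℂ) =
          Kv (S.B k) c2 c3 c4 (q 0) * P (q 0) + Kv (S.B k) c2 c3 c4 (q 1) * P (q 1) +
          Kv (S.B k) c2 c3 c4 (q 2) * P (q 2) := by
        rw [hq, sum_insert (by simp [qne.1, qne.2.1]), sum_insert (by simp [qne.2.2]), sum_singleton]
        ring
      rw [← h5, sum_insert (by simp [n23, n24]), sum_insert (by simp [n34]), sum_singleton]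
      have h6 : S.Xc k n o cl c v = (P (snd2 (S.B k) c3 c4) : ℂ) + K2 (S.B k) c2 c3 c4 * (P c2 : ℂ) := rfl
      rw [h6]
      unfold Kv
      rw [if_pos rfl, if_neg n23.symm, if_neg n24.symm]
      unfold snd2
      by_cases h7 : ky (S.B k) c3 < ky (S.B k) c4
      · rw [if_pos h7, if_neg n34, if_pos rfl]; ring
      · rw [if_neg h7, if_pos rfl, if_neg n34.symm]; ring
    rw [e4, e2, eA0, eA1, eA2]
    have e5 : (P (q 0) : ℂ) + P (q 1) + P (q 2) = 1 := by exact_mod_cast e3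
    rw [show A + B * ((P (q 0) : ℂ) + tau * (P (q 1) : ℂ) + tau ^ 2 * (P (q 2) : ℂ)) -
      ((A + B) * (P (q 0) : ℂ) + (A + B * tau) * (P (q 1) : ℂ) + (A + B * tau ^ 2) * (P (q 2) : ℂ)) = 0 by
        linear_combination -A * e5, norm_zero]
    exact hε.le

end Setup

end Pool.Agent.H61.W
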