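import Mathlib
import Pool.Agent.H61.W.JX
import Pool.Agent.H45.W.EndsJ9
import Pool.Agent.H8.W.NTop

set_option autoImplicit false
open Finset

/-! # J2, use of 45's `GG_ex`, `GY_exR`: `ExX σ` and `FarY S` -/

namespace Pool.Agent.H61.W

open Filter Topology
open Pool.Agent.Q1.M4 (lat)
open Pool.Agent.H6.W Pool.Agent.H21.W Pool.Agent.H33.Q1

variable {σ : ℝ}

/-- **`ExX`.** -/
theorem exX_all (hσ : σ ≤ 1) : ExX σ := by
  intro b δ hb hd w o M hM hi K hK _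
  refine ⟨1, fun h hh v hv ω hω => ?_⟩
  have hh' : 0 < h := hh
  have hIn : InR b (2 * h) v.1 v.2 := Pool.Agent.H71.W.InR_of_mem hb hh' (hK hv)
  refine Pool.Agent.H45.W.GG_ex (Pool.Agent.H45.W.BG.of_ok hb) hh' hi ?_ hIn.1
    (Pool.Agent.H45.W.cfg_subB hb hd hσ hh' hω)
  rw [hM]
  rfl

/-- **`FarY`.** -/
theorem farY_all (hσ : σ ≤ 1) (S : Setup σ) : Pool.Agent.H8.W.FarY S := by
  intro b hb
  filter_upwards [Pool.Agent.H71.W.Setup.ev_d S one_pos, Pool.Agent.H71.W.Setup.gp_spec S hb,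
    Pool.Agent.H71.W.Setup.cor_spec S S.b3, Pool.Agent.H71.W.Setup.cor_spec S S.b4,
    Pool.Agent.H71.W.Setup.cor_ne S S.ne] with k hd hj g3 g4 n34
  obtain ⟨j, j0, jm, ej, -, -⟩ := hj
  filter_upwards [Pool.Agent.H71.W.Setup.ev_h S k] with n hn
  intro v hv ω hω o
  exact (Pool.Agent.H45.W.GY_exR (w := S.w) (o := o) (s := b.1) (S.ok k) hd.le hσ hn g3.1 g4.1 n34 hv
    j0 jm (ej (2 * S.h k n)) hω).1

end Pool.Agent.H61.W
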