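import Mathlib
import Pool.Agent.H28.W.JRowX
import Pool.Agent.H80.W.XPAll

set_option autoImplicit false

/-! # XP: 28's forced rows in 80's `xps_all` -/

namespace Pool.Agent.H61.W

open Pool.Agent.H6.W Pool.Agent.H87.Fld
open Pool.Agent.H7.W (RowAU RowBU)

variable {σ : ℝ}

theorem rowAU_all (hσ : σ ≤ 1) (b : JBox) (δ : ℝ) (hd : δ ≤ 1) (hb : b.Ok δ σ) : RowAU b := by
  intro κ hκ η hη
  obtain ⟨h0, H⟩ := Pool.Agent.H28.W.row_A hb hd hσ hκ hη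
  exact ⟨h0, fun h hh M w o a0 v q hq hM h1 h2 _ h3 => H h hh M _ o a0 v q hq hM h1 h2 h3⟩

theorem rowBU_all (hσ : σ ≤ 1) (b : JBox) (δ : ℝ) (hd : δ ≤ 1) (hb : b.Ok δ σ) : RowBU b := by
  intro η hη
  obtain ⟨h0, H⟩ := Pool.Agent.H28.W.row_B hb hd hσ hη
  exact ⟨h0, fun h hh M w o x1 q hq hM _ _ => H h hh M _ o x1 q hq hM⟩

/-- **The scale form of XP.** -/
theorem xps (hσ : σ ≤ 1) (w : Bool) (b c b3 b4 : Bool × ℝ) (hb : b.2 ∈ Set.Ioo (-σ) 0) (h3 : c ≠ b3)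
    (h4 : c ≠ b4) (h34 : b3 ≠ b4) : XPS σ w b c b3 b4 :=
  Pool.Agent.H80.W.xps_all (fun b δ _ hd hb => rowAU_all hσ b δ hd hb)
    (fun b δ _ hd hb => rowBU_all hσ b δ hd hb) w b c b3 b4 hb h3 h4 h34

end Pool.Agent.H61.W
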