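import Mathlib
import Pool.Agent.H8.W.JThm
import Pool.Agent.H61.W.JFields

set_option autoImplicit false

/-! # W-C: top. The fields of `JFields.lean` give the junction bound `JB c` of W-E. -/

namespace Pool.Agent.H61.W

/-- **W-C.** The junction bound from the fields of C6 (`JunctionThm` is proved: `H8/W/JThm`). -/
theorem jb_of_fields {c : ℝ} (hc : 0 ≤ c) (h : ∃ CA σ0 : ℝ, 0 ≤ CA ∧ 0 < σ0 ∧ ∀ σ : ℝ, 0 < σ → σ ≤ σ0 →
    ∀ S : Setup σ, S.All (CA * σ ^ c)) : Pool.Agent.H6.W.JB c :=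
  jb_of Pool.Agent.H8.W.junctionThm hc (c6_of h)

end Pool.Agent.H61.W
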