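import Mathlib
import Pool.Agent.H61.W.JEx
import Pool.Agent.H61.W.Top
import Pool.Agent.H8.W.JNear
import Pool.Agent.H25.W.JY8
import Pool.Agent.H87.W.Fields
import Pool.Agent.H71.W.J6O
import Pool.Agent.H94.W.JKeyX
import Pool.Agent.H94.W.JKeyY
import Pool.Agent.H1.W.RoomNC
import Pool.Agent.H61.W.JXP
import Pool.Agent.H50.W.JXFin
import Pool.Agent.H16.W.JYFin
import Pool.Agent.H80.W.YFin

set_option autoImplicit false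
open Finset

/-! # J9: the junction bound `JB` from the open leaves of C6

`StS` (W-B), `KeyX σ`, `KeyY σ` (94, 37), `RInAll` (helper1, 25), `Wal S` = closeness fields of J5, J6 of a setup.
Everything else is proved. `Sc σ` = the scale forms of 87's `Fields`, `wal_of` gives `Wal` from them. -/

namespace Pool.Agent.H61.W

open Filter Topology
open Pool.Agent.H6.W Pool.Agent.H20.W
open Pool.Agent.H87.Fld
open Pool.Agent.H25.W (KeyY RInAll)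

/-- the closeness fields of a setup (J5, J6) -/
structure Wal {σ : ℝ} (S : Setup σ) : Prop where
  xBd : S.XBd
  xOdd : S.XOdd
  xP : S.XP
  yBd : S.YBd
  yOdd : S.YOdd

/-- the scale forms of J5, J6 for the relative length `σ` -/
structure Sc (σ : ℝ) : Prop where
  xbd : ∀ (w : Bool) (b c b3 b4 : Bool × ℝ), b ≠ c → b ≠ b3 → b ≠ b4 → c ≠ b3 → c ≠ b4 → b3 ≠ b4 →
    XBdS σ w b c b3 b4
  xp : ∀ (w : Bool) (b c b3 b4 : Bool × ℝ), b.2 ∈ Set.Ioo (-σ) 0 → c ≠ b3 → c ≠ b4 → b3 ≠ b4 →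
    XPS σ w b c b3 b4
  ybd : ∀ (w : Bool) (b c b3 b4 : Bool × ℝ), b.2 ∈ Set.Ioo (-σ) 0 → c ≠ b3 → c ≠ b4 → b3 ≠ b4 →
    YBdS σ w b c b3 b4
  xodd : ∀ (w : Bool) (c b3 b4 : Bool × ℝ), c ≠ b3 → c ≠ b4 → b3 ≠ b4 → ∀ x : ℝ, x < -σ →
    XOddS σ w c b3 b4 x
  yodd : ∀ (w : Bool) (b b3 b4 : Bool × ℝ), b.2 ∈ Set.Ioo (-σ) 0 → b3 ≠ b4 → ∀ x : ℝ, x < -σ →
    YOddS σ w b b3 b4 x

/-- the fields from the scale forms -/
theorem wal_of {σ : ℝ} (hSc : Sc σ) (S : Setup σ) : Wal S where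
  xBd := xBd_of S fun b c h1 h2 h3 h4 h5 => hSc.xbd _ b c _ _ h1 h2 h3 h4 h5 S.ne
  xOdd := xOdd_of S fun c h1 h2 x hx => hSc.xodd _ c _ _ h1 h2 S.ne x hx
  xP := xP_of S fun b c h1 h2 h3 => hSc.xp _ b c _ _ h1 h2 h3 S.ne
  yBd := yBd_of S fun b c h1 h2 h3 => hSc.ybd _ b c _ _ h1 h2 h3 S.ne
  yOdd := yOdd_of S fun b h1 x hx => hSc.yodd _ b _ _ h1 S.ne x hx

/-- **All fields of a setup.** -/
theorem all_of {σ A : ℝ} (hσ1 : σ ≤ 1) (hS : StS) (hX : KeyX σ) (hY : KeyY σ)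
    (hR : RInAll) (S : Setup σ) (hW : Wal S) (hN : S.YNear A) : S.All A where
  xHol := S.xHol_of (S.xHolC_of hS hX (exX_all hσ1))
  yHol := S.yHol_of (S.yHolC_of hS hY hR)
  xBd := hW.xBd
  xOdd := hW.xOdd
  xP := hW.xP
  yBd := hW.yBd
  yOdd := hW.yOdd
  yNear := hN
  uLim := Pool.Agent.H71.W.Setup.uLim S
  pAll := Pool.Agent.H71.W.Setup.pAll S

/-- **J9.** -/
theorem jb_final {σ1 : ℝ} (hσ1 : 0 < σ1) (hS : StS) (hR : RInAll)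
    (H : ∀ σ : ℝ, 0 < σ → σ ≤ σ1 → KeyX σ ∧ KeyY σ ∧ ∀ S : Setup σ, Wal S) : ∃ c : ℝ, 0 < c ∧ JB c := by
  obtain ⟨CA, c, σ0, hCA, hc, hσ0, hN⟩ := Pool.Agent.H8.W.yNear
  refine ⟨c, hc, jb_of_fields hc.le ⟨CA, min (min σ0 σ1) 1, hCA, by positivity, fun σ hσ hσ' S => ?_⟩⟩
  have h1 : σ ≤ σ0 := hσ'.trans ((min_le_left _ _).trans (min_le_left _ _))
  have h2 : σ ≤ σ1 := hσ'.trans ((min_le_left _ _).trans (min_le_right _ _))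
  have h3 : σ ≤ 1 := hσ'.trans (min_le_right _ _)
  obtain ⟨hX, hY, hW⟩ := H σ hσ h2
  exact all_of h3 hS hX hY hR S (hW S) (hN σ hσ h1 S)

/-- **J9** with J4 (94, 37, 1, 45, 25) and `XOdd` (71, 55, 28, 82): what remains is `StS` (W-B) and the
closeness fields at floor, ceiling, `P`, and `YOdd` -/
theorem jb_wal {σ1 : ℝ} (hσ1 : 0 < σ1) (hS : StS)
    (H : ∀ σ : ℝ, 0 < σ → σ ≤ σ1 → ∀ S : Setup σ, S.XBd ∧ S.XP ∧ S.YBd ∧ S.YOdd) :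
    ∃ c : ℝ, 0 < c ∧ JB c := by
  refine jb_final (σ1 := min σ1 1) (by positivity) hS Pool.Agent.H1.W.rInAll fun σ hσ hσ' => ?_
  refine ⟨Pool.Agent.H94.W.keyX σ, Pool.Agent.H94.W.keyY σ, fun S => ?_⟩
  obtain ⟨h1, h2, h3, h4⟩ := H σ hσ (hσ'.trans (min_le_left _ _)) S
  exact ⟨h1, Pool.Agent.H71.W.xOdd hσ (hσ'.trans (min_le_right _ _)) S, h2, h3, h4⟩

/-- **J9**, one leaf left: `YBd` (73, 80, 87, 7). `XBd`: 87, 50, 28, 7; `XP`: 80, 7, 86, 28; `YOdd`: 16, 71, 94, 55 -/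
theorem jb_ybd {σ1 : ℝ} (hσ1 : 0 < σ1) (hS : StS)
    (H : ∀ σ : ℝ, 0 < σ → σ ≤ σ1 → ∀ S : Setup σ, S.YBd) : ∃ c : ℝ, 0 < c ∧ JB c := by
  refine jb_wal (σ1 := min σ1 1) (by positivity) hS fun σ hσ hσ' S => ?_
  have h1 : σ ≤ 1 := hσ'.trans (min_le_right _ _)
  refine ⟨xBd_of S fun b c h1' h2 h3 h4 h5 => ?_, xP_of S fun b c h1' h2 h3 => ?_, H σ hσ
    (hσ'.trans (min_le_left _ _)) S, Pool.Agent.H16.W.yOdd hσ h1 S⟩
  · exact Pool.Agent.H50.W.JF.xbds_all h1 S.w h1' h2 h3 h4 h5 S.ne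
  · exact xps h1 S.w b c _ _ h1' h2 h3 S.ne

/-- **W-C (C6 complete): the junction bound from the S-property.** `YBd`: 80, 73, 87, 7 -/
theorem jb (hS : StS) : ∃ c : ℝ, 0 < c ∧ JB c :=
  jb_ybd one_pos hS fun _ _ h1 S => yBd_of S fun b c h2 h3 h4 =>
    Pool.Agent.H80.W.ybds_all h1 S.w h2 h3 h4 S.ne

end Pool.Agent.H61.W
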