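import Mathlib

set_option autoImplicit false

/-! # Route W, group W-C: the continuum structure of the junction bound

Disc coordinate `w`: the box of the junction world is mapped to the unit disc, the chord to the real
diameter, the middle of the solid chunk `P` to `0`.  `P = [-σ, σ]`, the slit `S` (fine fair plates) is
`[σ, 1)`, the natural part of the chord is `(-1, -σ)`.  The two halves of the box are the two half
discs (`true` = upper).  `D = E[V | c_P = +] - E[V | c_P = -]`, the end `1` is an OVER-end, the end `2`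
is an UNDER-end, the other two ends are the fixed marks `w3 = e^{ia}`, `w4 = e^{ib}`, `0 < a < b < 2π`.

* `A t s w` : under-end fixed at the boundary point `e^{it}`, over-end at `w` in the closed half disc `s`
  (this is ONE interior end, three ends on the outer boundary);
* `B s x s' w` : over-end fixed on the bank `s` of `P` at `x`, under-end at `w` in the closed half disc
  `s'` (ONE interior end).  -/

namespace Pool.Agent.H61.W

open Complex MeasureTheory Set Filter Topology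
open scoped ComplexConjugate

/-- closed half disc (`true` = upper, `false` = lower) -/
def CH (s : Bool) : Set ℂ := {w | ‖w‖ ≤ 1 ∧ (if s then 0 ≤ w.im else w.im ≤ 0)}

/-- open half disc -/
def OH (s : Bool) : Set ℂ := {w | ‖w‖ < 1 ∧ (if s then 0 < w.im else w.im < 0)}

/-- the point of angle `t` of the unit circle -/
noncomputable def ci (t : ℝ) : ℂ := exp (t * I)

/-- the half to which the boundary point of angle `t ∈ (0, 2π)` belongs -/
noncomputable def sd (t : ℝ) : Bool := decide (t < Real.pi)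

/-- `w^{1/2}` with the cut along the positive axis (`arg ∈ [0, 2π]`), values on the two closed halves -/
noncomputable def sq (s : Bool) (w : ℂ) : ℂ :=
  if s then w ^ (1 / 2 : ℂ) else - conj ((conj w) ^ (1 / 2 : ℂ))

/-- `k(w) = w^{1/2} (1 - w/w3)^{-1/3} (1 - w/w4)^{-1/3}` -/
noncomputable def kk (a b : ℝ) (s : Bool) (w : ℂ) : ℂ :=
  sq s w * (1 - w / ci a) ^ (-(1 / 3) : ℂ) * (1 - w / ci b) ^ (-(1 / 3) : ℂ)

/-- the kernel `K(w1, w2) = k(w1) conj(k(w2)) (1 - w1 conj w2)^{-1/3}` -/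
noncomputable def KK (a b : ℝ) (s1 : Bool) (w1 : ℂ) (s2 : Bool) (w2 : ℂ) : ℂ :=
  kk a b s1 w1 * conj (kk a b s2 w2) * (1 - w1 * conj w2) ^ (-(1 / 3) : ℂ)

/-- `τ = e^{2πi/3}` -/
noncomputable def tau : ℂ := exp (2 * Real.pi / 3 * I)

/-- the data of the junction bound.  `M` is an a priori bound which does not enter the result, `N`
bounds `D` near `P`, `η` collects all errors (jumps across the fine plates, discretisation of marks). -/
structure DData (σ M N η a b : ℝ) where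
  /-- under-end on the outer circle at angle `t`, over-end at `w` -/
  A : ℝ → Bool → ℂ → ℂ
  /-- over-end on the bank `(s, x)` of `P`, under-end at `w` -/
  B : Bool → ℝ → Bool → ℂ → ℂ
  A_bdd : ∀ t s, ∀ w ∈ CH s, ‖A t s w‖ ≤ M
  A_diff : ∀ t ∈ Ioo 0 (2 * Real.pi), ∀ s, DifferentiableOn ℂ (A t s) (OH s)
  A_cont : ∀ t ∈ Ioo 0 (2 * Real.pi), ∃ F : Set ℂ, F.Countable ∧
    ∀ s, ∀ w ∈ CH s \ F, ContinuousWithinAt (A t s) (CH s) w
  /-- natural part of the chord -/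
  A_nat : ∀ t ∈ Ioo 0 (2 * Real.pi), ∀ x ∈ Ioo (-1) (-σ), A t true (x : ℝ) = A t false (x : ℝ)
  /-- fine plates: `D` changes sign -/
  A_slit : ∀ t ∈ Ioo 0 (2 * Real.pi),
    ∫ x in Ioo σ 1, ‖A t true (x : ℝ) + A t false (x : ℝ)‖ * (x - σ) ^ (-(1 / 2) : ℝ) ≤ η
  A_meas_out : Measurable fun p : ℝ × ℝ => A p.1 (sd p.2) (ci p.2)
  A_meas_in : ∀ s, Measurable fun p : ℝ × ℝ => A p.1 s (p.2 : ℝ)
  /-- phases and positivity on the outer boundary -/
  A_pos : ∀ᵐ p : ℝ × ℝ, p.1 ∈ Ioo 0 (2 * Real.pi) → p.2 ∈ Ioo 0 (2 * Real.pi) →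
    tau * A p.1 (sd p.2) (ci p.2) * KK a b (sd p.2) (ci p.2) (sd p.1) (ci p.1) =
      (‖A p.1 (sd p.2) (ci p.2)‖ * ‖KK a b (sd p.2) (ci p.2) (sd p.1) (ci p.1)‖ : ℝ)
  B_bdd : ∀ s x s', ∀ w ∈ CH s', ‖B s x s' w‖ ≤ M
  B_diff : ∀ s, ∀ x ∈ Ioo (-σ) σ, ∀ s', DifferentiableOn ℂ (fun w => conj (B s x s' w)) (OH s')
  B_cont : ∀ s, ∀ x ∈ Ioo (-σ) σ, ∃ F : Set ℂ, F.Countable ∧
    ∀ s', ∀ w ∈ CH s' \ F, ContinuousWithinAt (B s x s') (CH s') w
  B_nat : ∀ s, ∀ x ∈ Ioo (-σ) σ, ∀ y ∈ Ioo (-1) (-σ), B s x true (y : ℝ) = B s x false (y : ℝ)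
  B_slit : ∀ s, ∀ x ∈ Ioo (-σ) σ,
    ∫ y in Ioo (2 * σ) 1, ‖B s x true (y : ℝ) + B s x false (y : ℝ)‖ * y ^ (-(1 / 2) : ℝ) ≤ η
  B_meas : ∀ s, Measurable fun p : ℝ × ℝ => B s p.1 (sd p.2) (ci p.2)
  /-- the two families agree when both ends are boundary marks -/
  compat : ∀ s, ∀ᵐ p : ℝ × ℝ, p.1 ∈ Ioo 0 (2 * Real.pi) → p.2 ∈ Ioo (-σ) σ →
    ‖A p.1 s (p.2 : ℝ) - B s p.2 (sd p.1) (ci p.1)‖ ≤ η
  /-- bound near `P` -/
  near : ∀ s, ∀ x ∈ Ioo (-σ) σ, ∀ s', ∀ w ∈ CH s', ‖w‖ = 2 * σ → ‖B s x s' w‖ ≤ N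

/-- TARGET of the group W-C. -/
def JunctionBound : Prop :=
  ∃ C : ℝ, 0 < C ∧ ∀ (σ M N η a b : ℝ), 0 < σ → σ ≤ 1 / 8 → 0 < a → a < b → b < 2 * Real.pi →
    0 ≤ N → 0 ≤ η → ∀ D : DData σ M N η a b,
      ∫ p in Ioo 0 (2 * Real.pi) ×ˢ Ioo 0 (2 * Real.pi), ‖D.A p.1 (sd p.2) (ci p.2)‖ ≤
        C * (σ * N + η)

end Pool.Agent.H61.W
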