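import Mathlib
import Pool.Agent.H61.W.JData

set_option autoImplicit false

/-! # W-C: limit form of the junction data (slit strip, no lattice)

`F c` = limit of `X . . c` (`z1` moving over, mark `c` fixed), `B b` = limit of `Y . . b` (`z1 = b` on a bank of
`P` fixed, `z2` moving under), `G b c` = both fixed, `p b c` = limit of the probabilities. -/

namespace Pool.Agent.H61.W

open Filter Topology Set Complex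

/-- **Limit data.** -/
structure JLim (δ A M : ℝ) (κ : ℂ) (b3 b4 : Bool × ℝ) where
  F : Bool × ℝ → ℂ → ℂ
  B : Bool × ℝ → ℂ → ℂ
  G : Bool × ℝ → Bool × ℝ → ℂ
  p : Bool × ℝ → Bool × ℝ → ℝ
  p_nonneg : ∀ b c, 0 ≤ p b c
  p_le : ∀ b c, p b c ≤ 1
  G_bdd : ∀ b c, ‖G b c‖ ≤ M
  F_bdd : ∀ c z, ‖F c z‖ ≤ M
  B_bdd : ∀ b z, ‖B b z‖ ≤ M
  F_diff : ∀ c : Bool × ℝ, c ≠ b3 → c ≠ b4 → DifferentiableOn ℂ (F c) SStrip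
  B_diff : ∀ b : Bool × ℝ, b.2 ∈ Ioo (-δ) 0 → DifferentiableOn ℂ (fun z => (starRingEnd ℂ) (B b z)) SStrip
  /-- floor and ceiling, `z1` moving -/
  F_bd : ∀ b c : Bool × ℝ, b ≠ c → b ≠ b3 → b ≠ b4 → c ≠ b3 → c ≠ b4 →
    Tendsto (F c) (𝓝[SStrip] (bdp b)) (𝓝 (κ * phs (ang b) (ang c) (ang b3) (ang b4) * p b c))
  /-- odd across the slit outside `P` -/
  F_odd : ∀ c : Bool × ℝ, c ≠ b3 → c ≠ b4 → ∀ x : ℝ, x < -δ → ∃ y : ℂ,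
    Tendsto (F c) (𝓝[{z | 0 < z.im}] (x : ℂ)) (𝓝 y) ∧ Tendsto (F c) (𝓝[{z | z.im < 0}] (x : ℂ)) (𝓝 (-y))
  /-- banks of `P`, `z1` moving -/
  F_P : ∀ b c : Bool × ℝ, b.2 ∈ Ioo (-δ) 0 → c ≠ b3 → c ≠ b4 →
    Tendsto (F c) (𝓝[{z | 0 < sgn b.1 * z.im}] (b.2 : ℂ)) (𝓝 (G b c))
  /-- floor and ceiling, `z2` moving -/
  B_bd : ∀ b c : Bool × ℝ, b.2 ∈ Ioo (-δ) 0 → c ≠ b3 → c ≠ b4 →
    Tendsto (B b) (𝓝[SStrip] (bdp c)) (𝓝 (G b c))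
  /-- odd across the slit outside `P`, `z2` moving -/
  B_odd : ∀ b : Bool × ℝ, b.2 ∈ Ioo (-δ) 0 → ∀ x : ℝ, x < -δ → ∃ y : ℂ,
    Tendsto (B b) (𝓝[{z | 0 < z.im}] (x : ℂ)) (𝓝 y) ∧ Tendsto (B b) (𝓝[{z | z.im < 0}] (x : ℂ)) (𝓝 (-y))
  /-- both moving marks near `P` -/
  B_near : ∀ b : Bool × ℝ, b.2 ∈ Ioo (-δ) 0 → ∀ z ∈ SStrip, δ < ‖z‖ → ‖z‖ < 4 * δ → ‖B b z‖ ≤ A

/-- **Conclusion for the limit data** (helper8 + 87 + 80). -/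
def JLimThm : Prop :=
  ∀ L l : ℝ, 0 < l → ∃ C δ0 : ℝ, 0 < δ0 ∧ ∀ δ A M : ℝ, ∀ κ : ℂ, ∀ b3 b4 : Bool × ℝ,
    0 < δ → δ ≤ δ0 → 0 ≤ A → ‖κ‖ = 1 → |b3.2| ≤ L → |b4.2| ≤ L → b3 ≠ b4 →
    ∀ J : JLim δ A M κ b3 b4, ∀ s1 s2 : Bool, ∀ x1 x2 : ℝ, -L ≤ x1 → x1 + l ≤ L → -L ≤ x2 → x2 + l ≤ L →
    ∀ q : ℝ, (∀ y1 ∈ Icc x1 (x1 + l), ∀ y2 ∈ Icc x2 (x2 + l), q ≤ J.p (s1, y1) (s2, y2)) →
    q ≤ C * δ * A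

end Pool.Agent.H61.W
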