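import Mathlib
import Pool.Agent.H61.W.JLim
import Pool.Agent.H61.W.Avg
import Pool.Agent.H35.W.Fin

set_option autoImplicit false

/-! # W-C: from the lattice data to the limit data (two ultralimits) -/

namespace Pool.Agent.H61.W

open Filter Topology Set Complex
open Pool.Agent.Q1.M4 (lat)
open Pool.Agent.H44.W (WLim av)
open Pool.Agent.H35.W (AEqAt locUnif aeq_interior ultra_limit)

lemma isOpen_SStrip : IsOpen SStrip := by
  have h : SStrip = {z : ℂ | |z.im| < 1} ∩ {z : ℂ | z.im = 0 ∧ z.re ≤ 0}ᶜ := by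
    ext z; simp [SStrip]
  rw [h]
  apply IsOpen.inter
  · exact isOpen_lt (continuous_abs.comp Complex.continuous_im) continuous_const
  · rw [isOpen_compl_iff]
    have : {z : ℂ | z.im = 0 ∧ z.re ≤ 0} = {z : ℂ | z.im = 0} ∩ {z : ℂ | z.re ≤ 0} := rfl
    rw [this]
    exact (isClosed_eq Complex.continuous_im continuous_const).inter
      (isClosed_le Complex.continuous_re continuous_const)

section
variable {R : ℕ → ℕ → ℝ} {U : ℕ → Set ℂ} {𝒱 : Ultrafilter ℕ} {𝒰 : ℕ → Ultrafilter ℕ}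
  {f : ℕ → ℕ → ℤ × ℤ → ℂ} {g : ℕ → ℂ → ℂ}

/-- the functions `g k` are the limits of level `k` of `f k` -/
def Lev (R : ℕ → ℕ → ℝ) (U : ℕ → Set ℂ) (𝒱 : Ultrafilter ℕ) (𝒰 : ℕ → Ultrafilter ℕ)
    (f : ℕ → ℕ → ℤ × ℤ → ℂ) (g : ℕ → ℂ → ℂ) : Prop :=
  ∀ᶠ k in (𝒱 : Filter ℕ), ContinuousOn (g k) (U k) ∧ WLim (R k) (𝒰 k) (U k) (f k) (g k)

theorem lev_pair (hR : ∀ k, Tendsto (R k) atTop atTop) (hU : ∀ k, IsOpen (U k))
    (hUl : ∀ K ⊆ SStrip, IsCompact K → ∀ᶠ k in atTop, K ⊆ U k)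
    (hV : (𝒱 : Filter ℕ) ≤ atTop) (h𝒰 : ∀ k, (𝒰 k : Filter ℕ) ≤ atTop)
    (h : Lev R U 𝒱 𝒰 f g) {z z' G G' : ℂ} (hg : Tendsto (fun k => g k z) 𝒱 (𝓝 G))
    (hg' : Tendsto (fun k => g k z') 𝒱 (𝓝 G')) (hz : z ∈ SStrip) (hz' : z' ∈ SStrip) {Z Z' : Set ℂ}
    (hZ : Z ∈ 𝓝 z) (hZ' : Z' ∈ 𝓝 z') {ε : ℝ}
    (hE : ∀ᶠ k in atTop, ∀ K ⊆ U k, IsCompact K → ∀ᶠ n in atTop, ∀ v v' : ℤ × ℤ,
      lat v / (R k n : ℂ) ∈ K ∩ Z → lat v' / (R k n : ℂ) ∈ K ∩ Z' → ‖f k n v + f k n v'‖ ≤ ε) :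
    ‖G + G'‖ ≤ ε := by
  obtain ⟨r, hr, h1, h2⟩ : ∃ r > 0, Metric.closedBall z r ⊆ SStrip ∩ Z ∧
      Metric.closedBall z' r ⊆ SStrip ∩ Z' := by
    obtain ⟨a, ha, ha'⟩ := Metric.mem_nhds_iff.1 (inter_mem (isOpen_SStrip.mem_nhds hz) hZ)
    obtain ⟨b, hb, hb'⟩ := Metric.mem_nhds_iff.1 (inter_mem (isOpen_SStrip.mem_nhds hz') hZ')
    refine ⟨min (a / 2) (b / 2), by positivity, ?_, ?_⟩
    · refine (Metric.closedBall_subset_ball ?_).trans ha'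
      calc min (a / 2) (b / 2) ≤ a / 2 := min_le_left _ _
        _ < a := by linarith
    · refine (Metric.closedBall_subset_ball ?_).trans hb'
      calc min (a / 2) (b / 2) ≤ b / 2 := min_le_right _ _
        _ < b := by linarith
  have hK : IsCompact (Metric.closedBall z r ∪ Metric.closedBall z' r) :=
    (isCompact_closedBall z r).union (isCompact_closedBall z' r)
  have hKs : Metric.closedBall z r ∪ Metric.closedBall z' r ⊆ SStrip :=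
    union_subset (fun w hw => (h1 hw).1) (fun w hw => (h2 hw).1)
  have key : ∀ᶠ k in (𝒱 : Filter ℕ), ‖g k z + g k z'‖ ≤ ε := by
    filter_upwards [h, hV hE, hV (hUl _ hKs hK)] with k ⟨e1, e2⟩ e3 e4
    refine pair_close (F := (𝒰 k : Filter ℕ)) ((hR k).mono_left (h𝒰 k)) (hU k) e1 e1 e2 e2
      (e4 (Or.inl (Metric.mem_closedBall_self hr.le))) (e4 (Or.inr (Metric.mem_closedBall_self hr.le)))
      hr ?_
    filter_upwards [(h𝒰 k) (e3 _ e4 hK)] with n hn v v' hv hv'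
    exact hn v v' ⟨Or.inl hv, (h1 hv).2⟩ ⟨Or.inr hv', (h2 hv').2⟩
  exact le_of_tendsto (hg.add hg').norm key

theorem lev_close (hR : ∀ k, Tendsto (R k) atTop atTop) (hU : ∀ k, IsOpen (U k))
    (hUl : ∀ K ⊆ SStrip, IsCompact K → ∀ᶠ k in atTop, K ⊆ U k)
    (hV : (𝒱 : Filter ℕ) ≤ atTop) (h𝒰 : ∀ k, (𝒰 k : Filter ℕ) ≤ atTop)
    (h : Lev R U 𝒱 𝒰 f g) {z G : ℂ} (hg : Tendsto (fun k => g k z) 𝒱 (𝓝 G))
    (hz : z ∈ SStrip) {Z : Set ℂ} (hZ : Z ∈ 𝓝 z) {ε : ℝ} {y : ℕ → ℕ → ℂ} {y1 : ℕ → ℂ} {y0 : ℂ}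
    (hy : ∀ k, Tendsto (y k) (𝒰 k) (𝓝 (y1 k))) (hy1 : Tendsto y1 𝒱 (𝓝 y0))
    (hE : EvIn R U Z fun k n v => ‖f k n v - y k n‖ ≤ ε) :
    ‖G - y0‖ ≤ ε := by
  obtain ⟨r, hr, h1⟩ : ∃ r > 0, Metric.closedBall z r ⊆ SStrip ∩ Z := by
    obtain ⟨a, ha, ha'⟩ := Metric.mem_nhds_iff.1 (inter_mem (isOpen_SStrip.mem_nhds hz) hZ)
    exact ⟨a / 2, by positivity, (Metric.closedBall_subset_ball (by linarith)).trans ha'⟩
  have hK : IsCompact (Metric.closedBall z r) := isCompact_closedBall z r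
  have hKs : Metric.closedBall z r ⊆ SStrip := fun w hw => (h1 hw).1
  have key : ∀ᶠ k in (𝒱 : Filter ℕ), ‖g k z - y1 k‖ ≤ ε := by
    filter_upwards [h, hV hE, hV (hUl _ hKs hK)] with k ⟨e1, e2⟩ e3 e4
    refine one_close (F := (𝒰 k : Filter ℕ)) ((hR k).mono_left (h𝒰 k)) (hU k) e1 e2
      (e4 (Metric.mem_closedBall_self hr.le)) (hy k) hr ?_
    filter_upwards [(h𝒰 k) (e3 _ e4 hK)] with n hn v hv
    exact hn v hv (h1 hv).2
  exact le_of_tendsto (hg.sub hy1).norm key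

/-- the limit is holomorphic -/
theorem lev_diff (hUl : ∀ K ⊆ SStrip, IsCompact K → ∀ᶠ k in atTop, K ⊆ U k)
    (hV : (𝒱 : Filter ℕ) ≤ atTop) {M : ℝ} {G : ℂ → ℂ}
    (hd : ∀ᶠ k in (𝒱 : Filter ℕ), DifferentiableOn ℂ (g k) (U k))
    (hb : ∀ k z, ‖g k z‖ ≤ M) (hg : ∀ z, Tendsto (fun k => g k z) 𝒱 (𝓝 (G z))) :
    DifferentiableOn ℂ G SStrip := by
  intro z0 hz0
  obtain ⟨r, hr, h1⟩ : ∃ r > 0, Metric.closedBall z0 r ⊆ SStrip := by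
    obtain ⟨a, ha, ha'⟩ := Metric.mem_nhds_iff.1 (isOpen_SStrip.mem_nhds hz0)
    exact ⟨a / 2, by positivity, (Metric.closedBall_subset_ball (by linarith)).trans ha'⟩
  have e1 : ∀ᶠ k in (𝒱 : Filter ℕ), DifferentiableOn ℂ (g k) (Metric.ball z0 r) := by
    filter_upwards [hd, hV (hUl _ h1 (isCompact_closedBall z0 r))] with k k1 k2
    exact k1.mono (Metric.ball_subset_closedBall.trans k2)
  have e2 : ∀ z ∈ Metric.ball z0 r, AEqAt (𝒱 : Filter ℕ) (Metric.ball z0 r) g z := by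
    intro z hz
    obtain ⟨s, hs, hs'⟩ := Metric.isOpen_iff.1 Metric.isOpen_ball z hz
    refine aeq_interior (C := M) hs ?_ (Eventually.of_forall fun k z _ => hb k z)
    filter_upwards [e1] with k hk
    exact hk.mono hs'
  have e3 := (locUnif e2 (fun z _ => hg z)).2
  have e4 := e3.differentiableOn e1 Metric.isOpen_ball
  exact (e4.differentiableAt (Metric.ball_mem_nhds z0 hr)).differentiableWithinAt

end

lemma real_ultra {κ : Type*} (U : Ultrafilter κ) {f : κ → ℝ} (h0 : ∀ k, 0 ≤ f k) (h1 : ∀ k, f k ≤ 1) :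
    ∃ w : ℝ, Tendsto f (U : Filter κ) (𝓝 w) := by
  have hc : IsCompact (Icc (0:ℝ) 1) := isCompact_Icc
  have hm : ((U.map f : Ultrafilter ℝ) : Filter ℝ) ≤ 𝓟 (Icc (0:ℝ) 1) := by
    rw [le_principal_iff]
    show ∀ᶠ k in (U : Filter κ), f k ∈ Icc (0:ℝ) 1
    exact Eventually.of_forall fun k => ⟨h0 k, h1 k⟩
  obtain ⟨w, _, hw⟩ := hc.ultrafilter_le_nhds _ hm
  exact ⟨w, hw⟩

/-- choice of the limits of level `k`, cut off outside the room -/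
lemma exists_level {R : ℕ → ℕ → ℝ} {U : ℕ → Set ℂ} {M : ℝ} (hM : 0 ≤ M) (T : (ℂ → ℂ) → ℂ → ℂ)
    (hT : ∀ g g' : ℂ → ℂ, ∀ z, g z = g' z → T g z = T g' z)
    (𝒰 : ℕ → Ultrafilter ℕ) (h𝒰 : ∀ k, (𝒰 k : Filter ℕ) ≤ atTop) {β : Type*}
    (f : ℕ → ℕ → β → ℤ × ℤ → ℂ) (good : β → Prop)
    (h : ∀ c, good c → ∀ᶠ k in atTop, ∀ V : Ultrafilter ℕ, (V : Filter ℕ) ≤ atTop →
      ∃ g : ℂ → ℂ, DifferentiableOn ℂ (T g) (U k) ∧ (∀ z ∈ U k, ‖g z‖ ≤ M) ∧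
        WLim (R k) V (U k) (fun n => f k n c) g) :
    ∃ g : ℕ → β → ℂ → ℂ, (∀ k c z, ‖g k c z‖ ≤ M) ∧ ∀ c, good c → ∀ᶠ k in atTop,
      DifferentiableOn ℂ (T (g k c)) (U k) ∧ WLim (R k) (𝒰 k) (U k) (fun n => f k n c) (g k c) := by
  classical
  let P : ℕ → β → (ℂ → ℂ) → Prop := fun k c g =>
    DifferentiableOn ℂ (T g) (U k) ∧ (∀ z ∈ U k, ‖g z‖ ≤ M) ∧
        WLim (R k) (𝒰 k) (U k) (fun n => f k n c) g
  let g : ℕ → β → ℂ → ℂ := fun k c z =>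
    if h : (∃ g, P k c g) ∧ z ∈ U k then h.1.choose z else 0
  refine ⟨g, ?_, ?_⟩
  · intro k c z
    by_cases h1 : (∃ g, P k c g) ∧ z ∈ U k
    · have e : g k c z = h1.1.choose z := by simp only [g]; rw [dif_pos h1]
      rw [e]
      exact h1.1.choose_spec.2.1 z h1.2
    · have e : g k c z = 0 := by simp only [g]; rw [dif_neg h1]
      rw [e, norm_zero]; exact hM
  · intro c hc
    filter_upwards [h c hc] with k hk
    have h1 : ∃ g, P k c g := hk (𝒰 k) (h𝒰 k)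
    have e : ∀ z ∈ U k, g k c z = h1.choose z := by
      intro z hz
      simp only [g]
      rw [dif_pos ⟨h1, hz⟩]
    obtain ⟨k1, k2, k3⟩ := h1.choose_spec
    refine ⟨k1.congr fun z hz => hT _ _ z (e z hz), ?_⟩
    intro K hK hKc ε hε
    obtain ⟨δ0, hδ0, h2⟩ := k3 K hK hKc ε hε
    refine ⟨δ0, hδ0, fun δ hδ hδ1 => ?_⟩
    filter_upwards [h2 δ hδ hδ1] with n hn v hv
    rw [e _ (hK hv)]
    exact hn v hv

/-- a limit from closeness with a radius for every `ε` -/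
lemma tendsto_of_close {F : ℂ → ℂ} {ζ y : ℂ} {S : Set ℂ}
    (h : ∀ ε > 0, ∃ r > 0, ∀ z ∈ S, z ∈ Metric.ball ζ r → ‖F z - y‖ ≤ ε) :
    Tendsto F (𝓝[S] ζ) (𝓝 y) := by
  rw [Metric.tendsto_nhds]
  intro ε hε
  obtain ⟨r, hr, h1⟩ := h (ε / 2) (by linarith)
  filter_upwards [self_mem_nhdsWithin, mem_nhdsWithin_of_mem_nhds (Metric.ball_mem_nhds ζ hr)] with z hz hz'
  rw [dist_eq_norm]
  linarith [h1 z hz hz']

/-- two sided limits from oddness -/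
lemma odd_limits {F : ℂ → ℂ} {M : ℝ} (hF : ∀ z, ‖F z‖ ≤ M) {x : ℝ}
    (h : ∀ ε > 0, ∃ r > 0, ∀ z ∈ Metric.ball (x : ℂ) r, ∀ z' ∈ Metric.ball (x : ℂ) r, 0 < z.im →
      z'.im < 0 → ‖F z + F z'‖ ≤ ε) :
    ∃ y : ℂ, Tendsto F (𝓝[{z | 0 < z.im}] (x : ℂ)) (𝓝 y) ∧ Tendsto F (𝓝[{z | z.im < 0}] (x : ℂ)) (𝓝 (-y)) := by
  have hne : NeBot (𝓝[{z : ℂ | 0 < z.im}] (x : ℂ)) := by
    rw [← mem_closure_iff_nhdsWithin_neBot, Complex.closure_setOf_lt_im]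
    simp
  obtain ⟨y, hy⟩ := ultra_limit (Ultrafilter.of (𝓝[{z : ℂ | 0 < z.im}] (x : ℂ))) (f := F) (C := M)
    (Eventually.of_forall fun z => hF z)
  have hle := Ultrafilter.of_le (𝓝[{z : ℂ | 0 < z.im}] (x : ℂ))
  have key : ∀ ε > 0, ∃ r > 0, ∀ z ∈ {z : ℂ | z.im < 0}, z ∈ Metric.ball (x : ℂ) r →
      ‖F z - (-y)‖ ≤ ε := by
    intro ε hε
    obtain ⟨r, hr, h1⟩ := h ε hε
    refine ⟨r, hr, fun z hz hzr => ?_⟩
    have h2 : Tendsto (fun w => ‖F w + F z‖) (Ultrafilter.of (𝓝[{z : ℂ | 0 < z.im}] (x : ℂ)) : Filter ℂ)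
        (𝓝 ‖y + F z‖) := (hy.add_const (F z)).norm
    have h3 : ‖y + F z‖ ≤ ε := by
      apply le_of_tendsto h2
      apply hle
      filter_upwards [self_mem_nhdsWithin, mem_nhdsWithin_of_mem_nhds (Metric.ball_mem_nhds (x : ℂ) hr)]
        with w hw hw'
      exact h1 w hw' z hzr hw hz
    rwa [sub_neg_eq_add, add_comm]
  refine ⟨y, ?_, tendsto_of_close key⟩
  apply tendsto_of_close
  intro ε hε
  obtain ⟨r, hr, h1⟩ := h (ε / 2) (by linarith)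
  obtain ⟨r', hr', h2⟩ := key (ε / 2) (by linarith)
  refine ⟨r, hr, fun z hz hzr => ?_⟩
  set s : ℝ := min r r' / 2 with hs
  have hsp : 0 < s := by positivity
  have hw : ((x : ℂ) - s * I) ∈ Metric.ball (x : ℂ) (min r r') := by
    rw [Metric.mem_ball, dist_eq_norm]
    have : (x : ℂ) - s * I - x = -(s * I) := by ring
    rw [this, norm_neg, norm_mul, norm_I, mul_one, Complex.norm_real, Real.norm_of_nonneg hsp.le]
    rw [hs]
    have : 0 < min r r' := lt_min hr hr'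
    linarith
  have hwi : ((x : ℂ) - s * I).im < 0 := by simp; exact hsp
  have e1 := h1 z hzr _ (Metric.ball_subset_ball (min_le_left _ _) hw) hz hwi
  have e2 := h2 _ hwi (Metric.ball_subset_ball (min_le_right _ _) hw)
  have e : F z - y = (F z + F ((x : ℂ) - s * I)) - (F ((x : ℂ) - s * I) - -y) := by ring
  rw [e]
  calc _ ≤ ‖F z + F ((x : ℂ) - s * I)‖ + ‖F ((x : ℂ) - s * I) - -y‖ := norm_sub_le _ _
    _ ≤ ε := by linarith

end Pool.Agent.H61.W
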