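import Mathlib
import Pool.Agent.H61.W.Ultra

set_option autoImplicit false

/-! # W-C: `JData` gives `JLim`, and the limit theorem gives the junction theorem -/

namespace Pool.Agent.H61.W

open Filter Topology Set Complex
open Pool.Agent.Q1.M4 (lat)
open Pool.Agent.H44.W (WLim av)
open Pool.Agent.H35.W (AEqAt locUnif aeq_interior ultra_limit)

variable {δ A M : ℝ} {κ : ℂ} {b3 b4 : Bool × ℝ}

lemma EvIn.mono {R : ℕ → ℕ → ℝ} {U : ℕ → Set ℂ} {Z Z' : Set ℂ} {Q : ℕ → ℕ → ℤ × ℤ → Prop}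
    (h : EvIn R U Z Q) (hZ : Z' ⊆ Z) : EvIn R U Z' Q := by
  filter_upwards [h] with k hk K hK hKc
  filter_upwards [hk K hK hKc] with n hn v hv hv'
  exact hn v hv (hZ hv')

lemma upper_sub {x : ℝ} {z : ℂ} (h : z ∈ Metric.ball (x : ℂ) 1) (hz : z.im ≠ 0) : z ∈ SStrip := by
  refine ⟨?_, fun h1 => hz h1.1⟩
  have h2 : |(z - x).im| ≤ ‖z - x‖ := Complex.abs_im_le_norm _
  rw [Metric.mem_ball, dist_eq_norm] at h
  have h3 : (z - x).im = z.im := by simp
  rw [h3] at h2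
  linarith

/-- **The limit data.** -/
theorem exists_jlim (J : JData δ A M κ b3 b4) (𝒱 : Ultrafilter ℕ) (hV : (𝒱 : Filter ℕ) ≤ atTop)
    (𝒰 : ℕ → Ultrafilter ℕ) (h𝒰 : ∀ k, (𝒰 k : Filter ℕ) ≤ atTop) :
    ∃ J' : JLim δ A M κ b3 b4, ∀ b c, ∃ p1 : ℕ → ℝ,
      (∀ k, Tendsto (fun n => J.p k n b c) (𝒰 k) (𝓝 (p1 k))) ∧ Tendsto p1 𝒱 (𝓝 (J'.p b c)) := by
  classical
  have hM : 0 ≤ M := (norm_nonneg _).trans (J.G_bdd 0 0 b3 b4)
  -- probabilities
  have hp1 : ∀ b c k, ∃ w, Tendsto (fun n => J.p k n b c) (𝒰 k) (𝓝 w) := fun b c k =>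
    real_ultra (𝒰 k) (fun n => J.p_nonneg k n b c) (fun n => J.p_le k n b c)
  choose p1 hp1 using hp1
  have p1_0 : ∀ b c k, 0 ≤ p1 b c k := fun b c k =>
    ge_of_tendsto (hp1 b c k) (Eventually.of_forall fun n => J.p_nonneg k n b c)
  have p1_1 : ∀ b c k, p1 b c k ≤ 1 := fun b c k =>
    le_of_tendsto (hp1 b c k) (Eventually.of_forall fun n => J.p_le k n b c)
  have hp2 : ∀ b c, ∃ w, Tendsto (p1 b c) 𝒱 (𝓝 w) := fun b c => real_ultra 𝒱 (p1_0 b c) (p1_1 b c)
  choose p2 hp2 using hp2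
  -- common values
  have hG1 : ∀ b c k, ∃ w, Tendsto (fun n => J.G k n b c) (𝒰 k) (𝓝 w) := fun b c k =>
    ultra_limit (𝒰 k) (C := M) (Eventually.of_forall fun n => J.G_bdd k n b c)
  choose G1 hG1 using hG1
  have G1_b : ∀ b c k, ‖G1 b c k‖ ≤ M := fun b c k =>
    le_of_tendsto (hG1 b c k).norm (Eventually.of_forall fun n => J.G_bdd k n b c)
  have hG2 : ∀ b c, ∃ w, Tendsto (G1 b c) 𝒱 (𝓝 w) := fun b c =>
    ultra_limit 𝒱 (C := M) (Eventually.of_forall fun k => G1_b b c k)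
  choose G2 hG2 using hG2
  -- the functions
  obtain ⟨gX, gX_b, gX_h⟩ := exists_level (R := J.R) (U := J.U) hM (fun g => g) (fun g g' z h => h) 𝒰 h𝒰
    (fun k n (c : Bool × ℝ) => J.X k n c) (fun c => c ≠ b3 ∧ c ≠ b4) (fun c hc => J.X_hol c hc.1 hc.2)
  obtain ⟨gY, gY_b, gY_h⟩ := exists_level (R := J.R) (U := J.U) hM
    (fun g z => (starRingEnd ℂ) (g z)) (fun g g' z h => by simp only [h]) 𝒰 h𝒰
    (fun k n (b : Bool × ℝ) => J.Y k n b) (fun b => b.2 ∈ Ioo (-δ) 0) (fun b hb => J.Y_hol b hb)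
  have hF : ∀ c z, ∃ w, Tendsto (fun k => gX k c z) 𝒱 (𝓝 w) := fun c z =>
    ultra_limit 𝒱 (C := M) (Eventually.of_forall fun k => gX_b k c z)
  choose F hF using hF
  have hB : ∀ b z, ∃ w, Tendsto (fun k => gY k b z) 𝒱 (𝓝 w) := fun b z =>
    ultra_limit 𝒱 (C := M) (Eventually.of_forall fun k => gY_b k b z)
  choose B hB using hB
  have F_bdd : ∀ c z, ‖F c z‖ ≤ M := fun c z =>
    le_of_tendsto (hF c z).norm (Eventually.of_forall fun k => gX_b k c z)
  have B_bdd : ∀ b z, ‖B b z‖ ≤ M := fun b z =>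
    le_of_tendsto (hB b z).norm (Eventually.of_forall fun k => gY_b k b z)
  have LX : ∀ c, c ≠ b3 → c ≠ b4 → Lev J.R J.U 𝒱 𝒰 (fun k n => J.X k n c) (fun k => gX k c) := by
    intro c h3 h4
    filter_upwards [hV (gX_h c ⟨h3, h4⟩)] with k hk
    exact ⟨hk.1.continuousOn, hk.2⟩
  have LY : ∀ b : Bool × ℝ, b.2 ∈ Ioo (-δ) 0 → Lev J.R J.U 𝒱 𝒰 (fun k n => J.Y k n b)
      (fun k => gY k b) := by
    intro b hb
    filter_upwards [hV (gY_h b hb)] with k hk
    refine ⟨?_, hk.2⟩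
    have h1 := (Complex.continuous_conj.comp_continuousOn hk.1.continuousOn)
    refine h1.congr fun z _ => ?_
    simp
  have cT : ∀ (a : ℂ) {κ' : Type} {U : Filter κ'} {f : κ' → ℝ} {w : ℝ}, Tendsto f U (𝓝 w) →
      Tendsto (fun k => a * (f k : ℂ)) U (𝓝 (a * (w : ℂ))) := by
    intro a κ' U f w h
    exact ((Complex.continuous_ofReal.tendsto w).comp h).const_mul a
  refine ⟨{ F := F, B := B, G := G2, p := p2, p_nonneg := ?_, p_le := ?_, G_bdd := ?_, F_bdd := F_bdd,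
            B_bdd := B_bdd, F_diff := ?_, B_diff := ?_, F_bd := ?_, F_odd := ?_, F_P := ?_, B_bd := ?_,
            B_odd := ?_, B_near := ?_ }, fun b c => ⟨p1 b c, hp1 b c, hp2 b c⟩⟩
  · exact fun b c => ge_of_tendsto (hp2 b c) (Eventually.of_forall fun k => p1_0 b c k)
  · exact fun b c => le_of_tendsto (hp2 b c) (Eventually.of_forall fun k => p1_1 b c k)
  · exact fun b c => le_of_tendsto (hG2 b c).norm (Eventually.of_forall fun k => G1_b b c k)
  · intro c h3 h4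
    exact lev_diff (g := fun k => gX k c) J.U_lim hV
      (hV ((gX_h c ⟨h3, h4⟩).mono fun k hk => hk.1)) (fun k z => gX_b k c z) (hF c)
  · intro b hb
    refine lev_diff (g := fun k z => (starRingEnd ℂ) (gY k b z)) J.U_lim hV (M := M)
      (hV ((gY_h b hb).mono fun k hk => hk.1)) (fun k z => ?_) (fun z => ?_)
    · rw [Complex.norm_conj]; exact gY_b k b z
    · exact (Complex.continuous_conj.tendsto _).comp (hB b z)
  · -- F_bd
    intro b c h1 h2 h3 h4 h5
    apply tendsto_of_close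
    intro ε hε
    obtain ⟨r, hr, hr'⟩ := J.X_bd b c h1 h2 h3 h4 h5 ε hε
    refine ⟨r, hr, fun z hz hzr => ?_⟩
    exact lev_close J.R_lim J.U_open J.U_lim hV h𝒰 (LX c h4 h5) (hF c z) hz
      (Metric.closedBall_mem_nhds_of_mem hzr)
      (fun k => cT (κ * phs (ang b) (ang c) (ang b3) (ang b4)) (hp1 b c k))
      (cT (κ * phs (ang b) (ang c) (ang b3) (ang b4)) (hp2 b c)) hr'
  · -- F_odd
    intro c h3 h4 x hx
    apply odd_limits (F_bdd c)
    intro ε hε
    obtain ⟨r, hr, hr'⟩ := J.X_odd c h3 h4 x hx ε hε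
    refine ⟨min r 1, by positivity, fun z hz z' hz' hi hi' => ?_⟩
    have hz1 : z ∈ Metric.ball (x : ℂ) r := Metric.ball_subset_ball (min_le_left _ _) hz
    have hz2 : z' ∈ Metric.ball (x : ℂ) r := Metric.ball_subset_ball (min_le_left _ _) hz'
    refine lev_pair J.R_lim J.U_open J.U_lim hV h𝒰 (LX c h3 h4) (hF c z) (hF c z')
      (upper_sub (Metric.ball_subset_ball (min_le_right _ _) hz) hi.ne')
      (upper_sub (Metric.ball_subset_ball (min_le_right _ _) hz') hi'.ne)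
      (Z := Metric.closedBall (x : ℂ) r ∩ {z | 0 < z.im})
      (Z' := Metric.closedBall (x : ℂ) r ∩ {z | z.im < 0})
      (inter_mem (Metric.closedBall_mem_nhds_of_mem hz1)
        ((isOpen_lt continuous_const Complex.continuous_im).mem_nhds hi))
      (inter_mem (Metric.closedBall_mem_nhds_of_mem hz2)
        ((isOpen_lt Complex.continuous_im continuous_const).mem_nhds hi')) ?_
    filter_upwards [hr'] with k hk K hK hKc
    filter_upwards [hk K hK hKc] with n hn v v' hv hv'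
    exact hn v v' ⟨⟨hv.1, hv.2.1⟩, hv.2.2⟩ ⟨⟨hv'.1, hv'.2.1⟩, hv'.2.2⟩
  · -- F_P
    intro b c hb h3 h4
    apply tendsto_of_close
    intro ε hε
    obtain ⟨r, hr, hr'⟩ := J.X_P b c hb h3 h4 ε hε
    refine ⟨min r 1, by positivity, fun z hz hzr => ?_⟩
    have hz1 : z ∈ Metric.ball (b.2 : ℂ) r := Metric.ball_subset_ball (min_le_left _ _) hzr
    have hz' : 0 < sgn b.1 * z.im := hz
    refine lev_close J.R_lim J.U_open J.U_lim hV h𝒰 (LX c h3 h4) (hF c z)
      (upper_sub (Metric.ball_subset_ball (min_le_right _ _) hzr) (fun h0 => ?_))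
      (inter_mem (Metric.closedBall_mem_nhds_of_mem hz1)
        ((isOpen_lt continuous_const (continuous_const.mul Complex.continuous_im)).mem_nhds hz'))
      (hG1 b c) (hG2 b c) hr'
    rw [h0, mul_zero] at hz'
    exact lt_irrefl _ hz'
  · -- B_bd
    intro b c hb h3 h4
    apply tendsto_of_close
    intro ε hε
    obtain ⟨r, hr, hr'⟩ := J.Y_bd b c hb h3 h4 ε hε
    refine ⟨r, hr, fun z hz hzr => ?_⟩
    exact lev_close J.R_lim J.U_open J.U_lim hV h𝒰 (LY b hb) (hB b z) hz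
      (Metric.closedBall_mem_nhds_of_mem hzr) (hG1 b c) (hG2 b c) hr'
  · -- B_odd
    intro b hb x hx
    apply odd_limits (B_bdd b)
    intro ε hε
    obtain ⟨r, hr, hr'⟩ := J.Y_odd b hb x hx ε hε
    refine ⟨min r 1, by positivity, fun z hz z' hz' hi hi' => ?_⟩
    have hz1 : z ∈ Metric.ball (x : ℂ) r := Metric.ball_subset_ball (min_le_left _ _) hz
    have hz2 : z' ∈ Metric.ball (x : ℂ) r := Metric.ball_subset_ball (min_le_left _ _) hz'
    refine lev_pair J.R_lim J.U_open J.U_lim hV h𝒰 (LY b hb) (hB b z) (hB b z')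
      (upper_sub (Metric.ball_subset_ball (min_le_right _ _) hz) hi.ne')
      (upper_sub (Metric.ball_subset_ball (min_le_right _ _) hz') hi'.ne)
      (Z := Metric.closedBall (x : ℂ) r ∩ {z | 0 < z.im})
      (Z' := Metric.closedBall (x : ℂ) r ∩ {z | z.im < 0})
      (inter_mem (Metric.closedBall_mem_nhds_of_mem hz1)
        ((isOpen_lt continuous_const Complex.continuous_im).mem_nhds hi))
      (inter_mem (Metric.closedBall_mem_nhds_of_mem hz2)
        ((isOpen_lt Complex.continuous_im continuous_const).mem_nhds hi')) ?_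
    filter_upwards [hr'] with k hk K hK hKc
    filter_upwards [hk K hK hKc] with n hn v v' hv hv'
    exact hn v v' ⟨⟨hv.1, hv.2.1⟩, hv.2.2⟩ ⟨⟨hv'.1, hv'.2.1⟩, hv'.2.2⟩
  · -- B_near
    intro b hb z hz h1 h2
    have := lev_close J.R_lim J.U_open J.U_lim hV h𝒰 (LY b hb) (hB b z) hz
      (Z := {z | δ ≤ ‖z‖ ∧ ‖z‖ ≤ 4 * δ}) (y := fun _ _ => 0) (y1 := fun _ => 0) (y0 := 0) (ε := A)
      (by
        filter_upwards [(isOpen_lt continuous_const continuous_norm).mem_nhds h1,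
          (isOpen_lt continuous_norm continuous_const).mem_nhds h2] with w hw hw'
        exact ⟨le_of_lt hw, le_of_lt hw'⟩)
      (fun k => tendsto_const_nhds) tendsto_const_nhds
      (by
        filter_upwards [J.Y_near b hb] with k hk K hK hKc
        filter_upwards [hk K hK hKc] with n hn v hv hv'
        rw [sub_zero]; exact hn v hv hv')
    rwa [sub_zero] at this

/-- **The junction theorem from its limit form.** -/
theorem junctionThm_of (h : JLimThm) : JunctionThm := by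
  classical
  intro L l hl
  obtain ⟨C, δ0, hδ0, hC⟩ := h L l hl
  refine ⟨C, δ0, hδ0, ?_⟩
  intro δ A M κ b3 b4 hδ hδ1 hA hκ hb3 hb4 hb J s1 s2 x1 x2 k1 k2 k3 k4 q hq η hη
  by_contra hcon
  rw [Filter.not_eventually] at hcon
  set S : Set ℕ := {k | ∃ᶠ n in atTop, C * δ * A + η < q k n} with hS
  have hfr : ∃ᶠ k in (atTop : Filter ℕ), k ∈ S := by
    refine hcon.mono fun k hk => ?_
    rw [Filter.not_eventually] at hk
    exact hk.mono fun n hn => not_le.1 hn
  have hne : NeBot ((atTop : Filter ℕ) ⊓ 𝓟 S) := by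
    rwa [← Filter.frequently_mem_iff_neBot]
  set 𝒱 : Ultrafilter ℕ := Ultrafilter.of ((atTop : Filter ℕ) ⊓ 𝓟 S) with h𝒱
  have hV0 := Ultrafilter.of_le ((atTop : Filter ℕ) ⊓ 𝓟 S)
  have hV : (𝒱 : Filter ℕ) ≤ atTop := hV0.trans inf_le_left
  have hVS : ∀ᶠ k in (𝒱 : Filter ℕ), k ∈ S := (hV0.trans inf_le_right) (mem_principal_self S)
  have hex : ∀ k, ∃ U : Ultrafilter ℕ, (U : Filter ℕ) ≤ atTop ∧
      (k ∈ S → ∀ᶠ n in (U : Filter ℕ), C * δ * A + η < q k n) := by
    intro k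
    by_cases hk : k ∈ S
    · have hne' : NeBot ((atTop : Filter ℕ) ⊓ 𝓟 {n | C * δ * A + η < q k n}) := by
        rw [← Filter.frequently_mem_iff_neBot]; exact hk
      have h0 := Ultrafilter.of_le ((atTop : Filter ℕ) ⊓ 𝓟 {n | C * δ * A + η < q k n})
      exact ⟨Ultrafilter.of _, h0.trans inf_le_left, fun _ =>
        (h0.trans inf_le_right) (mem_principal_self _)⟩
    · exact ⟨Ultrafilter.of atTop, Ultrafilter.of_le _, fun h => absurd h hk⟩
  choose 𝒰 h𝒰 h𝒰S using hex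
  obtain ⟨J', hJ'⟩ := exists_jlim J 𝒱 hV 𝒰 h𝒰
  have hfin := hC δ A M κ b3 b4 hδ hδ1 hA hκ hb3 hb4 hb J' s1 s2 x1 x2 k1 k2 k3 k4
    (C * δ * A + η) (by
      intro y1 hy1 y2 hy2
      obtain ⟨p1, e1, e2⟩ := hJ' (s1, y1) (s2, y2)
      apply ge_of_tendsto e2
      filter_upwards [hVS, hV (hq y1 hy1 y2 hy2)] with k m1 m2
      apply ge_of_tendsto (e1 k)
      filter_upwards [h𝒰S k m1, (h𝒰 k) m2] with n m3 m4
      linarith)
  linarith

end Pool.Agent.H61.W
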